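import Pool.Agent.DB.A.Mod

/-!
# Project DB, part A, module DB-A-Armv: the points of the arms

PLAN. `armv` unfolds to an if-then-else; everything is case analysis. `r_pos` shows that the
position `2 * r` is not `0`. `E b ≥ K + 1 ≥ 1` for exits (use `E_spec`).
* `step_adj` (labels of adjacent vertices are adjacent in `G`): for arm edges between positions
  `j` and `j + 1` of excursion `m` the labels are `ray m (min j (2r-j))` and
  `ray m (min (j+1) (2r-j-1))`, heights differ by one, use `Model.ray_adj` (heights `< L` because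
  `r ≤ L`); exit edges: labels `x` and `lab b = ray (E b) 1`.
* `conn_exp`: it is enough to connect every valid vertex with an old vertex (walk down the arm:
  induction on `j`, then on `m`) and `old w`, `old w'` for `D.Adj w w'` (if `w ∈ Q` walk along the
  whole arm from `w` to `w'` and through its exit; if `w' ∈ Q` the same with the roles exchanged);
  then use that `D` is connected (induction on a walk of `D`). All by `Relation.EqvGen.rel/symm/trans`.
-/

namespace Pool.Agent.DB.A.Ctx

open Set

variable {c : Ctx}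

theorem armv_zero_zero (a b : c.W) : c.armv a b 0 0 = .old a := by
  simp [armv]

theorem armv_succ_zero (a b : c.W) (m : ℕ) :
    c.armv a b (m + 1) 0 = .new a b m (2 * c.r b m) := by
  simp [armv]

theorem armv_pos {a b : c.W} {m j : ℕ} (hm : m < c.E b) (hj : 1 ≤ j) :
    c.armv a b m j = .new a b m j := by
  unfold armv
  rw [if_neg (by omega), if_pos hm]

/-- end of an excursion = beginning of the next one -/
theorem armv_end {a b : c.W} {m : ℕ} (hm : m < c.E b) :
    c.armv a b m (2 * c.r b m) = c.armv a b (m + 1) 0 := by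
  have h := c.r_pos b m
  rw [armv_pos hm (by omega), armv_succ_zero]

theorem valid_armv_zero {Q : Set c.W} {a b : c.W} (ha : a ∈ Q) (hab : c.D.Adj a b) {m : ℕ}
    (hm : m ≤ c.E b) : c.Valid Q (c.armv a b m 0) := by
  cases m with
  | zero =>
    rw [armv_zero_zero]
    trivial
  | succ m =>
    rw [armv_succ_zero]
    have h := c.r_pos b m
    exact ⟨ha, hab, by omega, by omega, le_rfl⟩

theorem valid_armv {Q : Set c.W} {a b : c.W} (ha : a ∈ Q) (hab : c.D.Adj a b) {m j : ℕ}
    (hm : m < c.E b) (hj : j ≤ 2 * c.r b m) : c.Valid Q (c.armv a b m j) := by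
  rcases Nat.eq_zero_or_pos j with rfl | h
  · exact valid_armv_zero ha hab hm.le
  · rw [armv_pos hm h]
    exact ⟨ha, hab, hm, h, hj⟩

theorem labE_armv_zero {a : c.W} (ha : c.lab a = c.x) (b : c.W) (m : ℕ) :
    c.labE (c.armv a b m 0) = c.x := by
  cases m with
  | zero =>
    rw [armv_zero_zero]
    exact ha
  | succ m =>
    rw [armv_succ_zero]
    show c.ray m (min (2 * c.r b m) (2 * c.r b m - 2 * c.r b m)) = c.x
    rw [Nat.sub_self, Nat.min_zero]
    exact c.ray_zero m

theorem labE_armv {a b : c.W} (ha : c.lab a = c.x) {m j : ℕ} (hm : m < c.E b)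
    (hj : j ≤ 2 * c.r b m) : c.labE (c.armv a b m j) = c.ray m (min j (2 * c.r b m - j)) := by
  rcases Nat.eq_zero_or_pos j with rfl | h
  · rw [labE_armv_zero ha, Nat.zero_min]
    exact (c.ray_zero m).symm
  · rw [armv_pos hm h]
    rfl

theorem labE_armv_one {a b : c.W} (ha : c.lab a = c.x) {m : ℕ} (hm : m < c.E b) :
    c.labE (c.armv a b m 1) = c.ray m 1 := by
  have h := c.r_pos b m
  rw [labE_armv ha hm (by omega), Nat.min_eq_left (by omega)]

theorem labE_armv_last {a b : c.W} (ha : c.lab a = c.x) {m : ℕ} (hm : m < c.E b) :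
    c.labE (c.armv a b m (2 * c.r b m - 1)) = c.ray m 1 := by
  have h := c.r_pos b m
  rw [labE_armv ha hm (by omega)]
  have h2 : min (2 * c.r b m - 1) (2 * c.r b m - (2 * c.r b m - 1)) = 1 := by omega
  rw [h2]

/-- interior points of the excursions do not have the label `x` -/
theorem labE_armv_ne {a b : c.W} (hab : c.D.Adj a b) (ha : c.lab a = c.x) {m j : ℕ}
    (hm : m < c.E b) (hj : 1 ≤ j) (hj' : j < 2 * c.r b m) : c.labE (c.armv a b m j) ≠ c.x := by
  have h := r_le hab ha hm
  rw [labE_armv ha hm hj'.le]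
  exact c.ray_ne _ _ (by omega) (by omega)

theorem step_valid {Q : Set c.W} {p p' : EV c.W} (h : c.Step Q p p') :
    c.Valid Q p ∧ c.Valid Q p' := by
  cases h with
  | main w w' hw h1 h2 => exact ⟨trivial, trivial⟩
  | arm a b m j ha hab hm hj =>
    exact ⟨valid_armv ha hab hm hj.le, valid_armv ha hab hm (by omega)⟩
  | exit a b ha hab => exact ⟨valid_armv_zero ha hab le_rfl, trivial⟩

theorem step_adj {Q : Set c.W} (hQ : c.Cen Q) {p p' : EV c.W} (h : c.Step Q p p') :
    c.M.G.Adj (c.labE p) (c.labE p') := by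
  cases h with
  | main w w' hw h1 h2 => exact c.lab.map_rel hw
  | arm a b m j ha hab hm hj =>
    have hl : c.r b m ≤ c.M.L := r_le hab (hQ a ha) hm
    rw [labE_armv (hQ a ha) hm hj.le, labE_armv (hQ a ha) hm (by omega : j + 1 ≤ _)]
    rcases lt_or_ge j (c.r b m) with h1 | h1
    · have e1 : min j (2 * c.r b m - j) = j := by omega
      have e2 : min (j + 1) (2 * c.r b m - (j + 1)) = j + 1 := by omega
      rw [e1, e2]
      exact c.M.ray_adj c.x c.hx m j (by omega)
    · have e1 : min j (2 * c.r b m - j) = 2 * c.r b m - (j + 1) + 1 := by omega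
      have e2 : min (j + 1) (2 * c.r b m - (j + 1)) = 2 * c.r b m - (j + 1) := by omega
      rw [e1, e2]
      exact (c.M.ray_adj c.x c.hx m _ (by omega)).symm
  | exit a b ha hab =>
    rw [labE_armv_zero (hQ a ha), ← hQ a ha]
    exact c.lab.map_rel hab

/-- a valid vertex is old or an interior point or an end point of an excursion -/
theorem valid_cases {Q : Set c.W} {p : EV c.W} (h : c.Valid Q p) :
    (∃ w, p = .old w) ∨ ∃ a b m j, a ∈ Q ∧ c.D.Adj a b ∧ m < c.E b ∧ 1 ≤ j ∧
      j ≤ 2 * c.r b m ∧ p = c.armv a b m j := by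
  cases p with
  | old w => exact Or.inl ⟨w, rfl⟩
  | new a b m j =>
    obtain ⟨h1, h2, h3, h4, h5⟩ := h
    exact Or.inr ⟨a, b, m, j, h1, h2, h3, h4, h5, (armv_pos h3 h4).symm⟩

/-- along an excursion -/
private theorem conn_exc {Q : Set c.W} {a b : c.W} (ha : a ∈ Q) (hab : c.D.Adj a b) {m : ℕ}
    (hm : m < c.E b) : ∀ j, j ≤ 2 * c.r b m →
      Relation.EqvGen (c.Step Q) (c.armv a b m 0) (c.armv a b m j) := by
  intro j
  induction j with
  | zero => exact fun _ => Relation.EqvGen.refl _
  | succ j ih =>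
    intro h
    exact (ih (by omega)).trans _ _ _ (Relation.EqvGen.rel _ _ (Step.arm a b m j ha hab hm h))

/-- along an arm -/
private theorem conn_arm {Q : Set c.W} {a b : c.W} (ha : a ∈ Q) (hab : c.D.Adj a b) :
    ∀ m, m ≤ c.E b → Relation.EqvGen (c.Step Q) (.old a) (c.armv a b m 0) := by
  intro m
  induction m with
  | zero =>
    intro _
    rw [armv_zero_zero]
    exact Relation.EqvGen.refl _
  | succ m ih =>
    intro h
    rw [← armv_end h]
    exact (ih (by omega)).trans _ _ _ (conn_exc ha hab h _ le_rfl)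

private theorem conn_adj {Q : Set c.W} {w w' : c.W} (h : c.D.Adj w w') :
    Relation.EqvGen (c.Step Q) (.old w) (.old w') := by
  by_cases h1 : w ∈ Q
  · exact (conn_arm h1 h _ le_rfl).trans _ _ _ (Relation.EqvGen.rel _ _ (Step.exit w w' h1 h))
  · by_cases h2 : w' ∈ Q
    · exact ((conn_arm h2 h.symm _ le_rfl).trans _ _ _
        (Relation.EqvGen.rel _ _ (Step.exit w' w h2 h.symm))).symm
    · exact Relation.EqvGen.rel _ _ (Step.main w w' h h1 h2)

private theorem conn_old {Q : Set c.W} (w w' : c.W) :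
    Relation.EqvGen (c.Step Q) (.old w) (.old w') := by
  obtain ⟨p⟩ := c.conn.preconnected w w'
  induction p with
  | nil => exact Relation.EqvGen.refl _
  | cons h _ ih => exact (conn_adj h).trans _ _ _ ih

private theorem conn_valid {Q : Set c.W} {p : EV c.W} (h : c.Valid Q p) :
    ∃ w, Relation.EqvGen (c.Step Q) (.old w) p := by
  rcases valid_cases h with ⟨w, rfl⟩ | ⟨a, b, m, j, ha, hab, hm, _, hj, rfl⟩
  · exact ⟨w, Relation.EqvGen.refl _⟩
  · exact ⟨a, (conn_arm ha hab m hm.le).trans _ _ _ (conn_exc ha hab hm j hj)⟩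

/-- the partial expansion is connected -/
theorem conn_exp {Q : Set c.W} (hQ : c.Cen Q) {p p' : EV c.W} (hp : c.Valid Q p)
    (hp' : c.Valid Q p') : Relation.EqvGen (c.Step Q) p p' := by
  obtain ⟨w, hw⟩ := conn_valid hp
  obtain ⟨w', hw'⟩ := conn_valid hp'
  exact hw.symm.trans _ _ _ ((conn_old w w').trans _ _ _ hw')

end Pool.Agent.DB.A.Ctx
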