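import Mathlib

/-!
# Project DB, part A: connected vertex sets of graphs, cuts of trees
-/

namespace Pool.Agent.DB.A

open Set

variable {S S' : Type}

/-- `s` and `t` are joined by a walk of `A` whose vertices all lie in `C` -/
def CIn (A : SimpleGraph S) (C : Set S) (s t : S) : Prop :=
  ∃ p : A.Walk s t, ∀ u ∈ p.support, u ∈ C

/-- `C` is connected in `A` (or empty) -/
def Con (A : SimpleGraph S) (C : Set S) : Prop := ∀ s ∈ C, ∀ t ∈ C, CIn A C s t

theorem CIn.refl {A : SimpleGraph S} {C : Set S} {s : S} (h : s ∈ C) : CIn A C s s :=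
  ⟨SimpleGraph.Walk.nil, by simpa using h⟩

theorem CIn.of_adj {A : SimpleGraph S} {C : Set S} {s t : S} (h : A.Adj s t) (hs : s ∈ C)
    (ht : t ∈ C) : CIn A C s t :=
  ⟨SimpleGraph.Walk.cons h SimpleGraph.Walk.nil, by
    intro u hu
    simp at hu
    rcases hu with rfl | rfl
    · exact hs
    · exact ht⟩

theorem CIn.symm {A : SimpleGraph S} {C : Set S} {s t : S} (h : CIn A C s t) : CIn A C t s := by
  obtain ⟨p, hp⟩ := h
  refine ⟨p.reverse, fun u hu => hp u ?_⟩
  simpa [SimpleGraph.Walk.support_reverse] using hu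

theorem CIn.trans {A : SimpleGraph S} {C : Set S} {s t u : S} (h : CIn A C s t)
    (h' : CIn A C t u) : CIn A C s u := by
  obtain ⟨p, hp⟩ := h
  obtain ⟨q, hq⟩ := h'
  refine ⟨p.append q, fun v hv => ?_⟩
  rw [SimpleGraph.Walk.mem_support_append_iff] at hv
  rcases hv with hv | hv
  · exact hp v hv
  · exact hq v hv

theorem CIn.mono {A : SimpleGraph S} {C C' : Set S} (hC : C ⊆ C') {s t : S} (h : CIn A C s t) :
    CIn A C' s t := by
  obtain ⟨p, hp⟩ := h
  exact ⟨p, fun u hu => hC (hp u hu)⟩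

theorem CIn.left {A : SimpleGraph S} {C : Set S} {s t : S} (h : CIn A C s t) : s ∈ C := by
  obtain ⟨p, hp⟩ := h
  exact hp s p.start_mem_support

theorem CIn.right {A : SimpleGraph S} {C : Set S} {s t : S} (h : CIn A C s t) : t ∈ C := by
  obtain ⟨p, hp⟩ := h
  exact hp t p.end_mem_support

/-- in an acyclic graph a path is contained in every walk with the same ends -/
theorem path_subset {A : SimpleGraph S} (hA : A.IsAcyclic) {s t : S} (p q : A.Walk s t)
    (hp : p.IsPath) : p.support ⊆ q.support := by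
  classical
  have h1 : (⟨p, hp⟩ : A.Path s t) = ⟨q.bypass, q.bypass_isPath⟩ :=
    (hA.subsingleton_path s t).elim _ _
  have h2 : p = q.bypass := congrArg Subtype.val h1
  rw [h2]
  exact q.support_bypass_subset_support

/-- intersections of connected sets in an acyclic graph are connected -/
theorem CIn.inter {A : SimpleGraph S} (hA : A.IsAcyclic) {C C' : Set S} {s t : S}
    (h : CIn A C s t) (h' : CIn A C' s t) : CIn A (C ∩ C') s t := by
  classical
  obtain ⟨p, hp⟩ := h
  obtain ⟨q, hq⟩ := h'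
  refine ⟨p.bypass, fun u hu => ⟨hp u (p.support_bypass_subset_support hu), hq u ?_⟩⟩
  exact path_subset hA p.bypass q p.bypass_isPath hu

theorem CIn.map {A : SimpleGraph S} {A' : SimpleGraph S'} (h : A →g A') {C : Set S} {s t : S}
    (hs : CIn A C s t) : CIn A' (h '' C) (h s) (h t) := by
  obtain ⟨p, hp⟩ := hs
  refine ⟨p.map h, fun u hu => ?_⟩
  rw [SimpleGraph.Walk.support_map, List.mem_map] at hu
  obtain ⟨v, hv, rfl⟩ := hu
  exact ⟨v, hp v hv, rfl⟩

theorem CIn.of_reachable {A : SimpleGraph S} {s t : S} (h : A.Reachable s t) :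
    CIn A univ s t := by
  obtain ⟨p⟩ := h
  exact ⟨p, fun u _ => mem_univ u⟩

/-- propagation of an invariant along a connection inside `C` -/
theorem CIn.invariant {A : SimpleGraph S} {C : Set S} {s t : S} (h : CIn A C s t)
    (φ : S → Prop) (hφ : ∀ a ∈ C, ∀ b ∈ C, A.Adj a b → (φ a ↔ φ b)) : φ s ↔ φ t := by
  obtain ⟨p, hp⟩ := h
  induction p with
  | nil => rfl
  | cons hadj p ih =>
      have h1 := ih (fun u hu => hp u (by simp [hu]))
      have h2 := hφ _ (hp _ (by simp)) _ (hp _ (by simp)) hadj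
      exact h2.trans h1

/-- first exit: a connection from a point of `B` to a point outside `B` crosses an edge -/
theorem CIn.exit {A : SimpleGraph S} {C : Set S} {s t : S} (h : CIn A C s t) (B : Set S)
    (hs : s ∈ B) (ht : t ∉ B) : ∃ a b, a ∈ B ∧ b ∉ B ∧ A.Adj a b ∧ a ∈ C ∧ b ∈ C ∧
      CIn A (C ∩ B) s a := by
  obtain ⟨p, hp⟩ := h
  induction p with
  | nil => exact absurd hs ht
  | @cons u v w hadj p ih =>
      by_cases hv : v ∈ B
      · obtain ⟨a, b, ha, hb, hab, haC, hbC, hc⟩ := ih hv ht (fun u hu => hp u (by simp [hu]))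
        refine ⟨a, b, ha, hb, hab, haC, hbC, ?_⟩
        refine CIn.trans (CIn.of_adj hadj ⟨hp _ (by simp), hs⟩ ⟨hp _ (by simp), hv⟩) hc
      · exact ⟨u, v, hs, hv, hadj, hp _ (by simp), hp _ (by simp),
          CIn.refl ⟨hp _ (by simp), hs⟩⟩

/-- a connected graph in which every edge has a cut function is a tree -/
theorem isTree_of_cuts {A : SimpleGraph S} (hc : A.Connected)
    (h : ∀ u v, A.Adj u v → ∃ φ : S → Prop, φ u ∧ ¬ φ v ∧
      ∀ a b, A.Adj a b → s(a, b) ≠ s(u, v) → (φ a ↔ φ b)) : A.IsTree := by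
  refine ⟨hc, ?_⟩
  rw [SimpleGraph.isAcyclic_iff_forall_adj_isBridge]
  intro u v huv
  obtain ⟨φ, hu, hv, hφ⟩ := h u v huv
  rw [SimpleGraph.isBridge_iff]
  refine fun hr => hv ?_
  have := (CIn.of_reachable hr).invariant φ (fun a _ b _ hab => by
    rw [SimpleGraph.deleteEdges_adj] at hab
    exact hφ a b hab.1 (fun he => hab.2 (by simpa using he)))
  exact this.1 hu

/-- every edge of an acyclic graph has a cut function -/
theorem exists_cut {A : SimpleGraph S} (hA : A.IsAcyclic) {u v : S} (huv : A.Adj u v) :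
    ∃ φ : S → Prop, φ u ∧ ¬ φ v ∧
      ∀ a b, A.Adj a b → s(a, b) ≠ s(u, v) → (φ a ↔ φ b) := by
  rw [SimpleGraph.isAcyclic_iff_forall_adj_isBridge] at hA
  have hb := hA huv
  rw [SimpleGraph.isBridge_iff] at hb
  refine ⟨fun a => (A.deleteEdges {s(u, v)}).Reachable u a,
    SimpleGraph.Reachable.refl u, hb, fun a b hab hne => ?_⟩
  have hadj : (A.deleteEdges {s(u, v)}).Adj a b := by
    rw [SimpleGraph.deleteEdges_adj]
    exact ⟨hab, fun he => hne (by simpa using he)⟩
  exact ⟨fun h => h.trans hadj.reachable, fun h => h.trans hadj.symm.reachable⟩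

end Pool.Agent.DB.A
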