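import Pool.Agent.DB.Defs
import Pool.Agent.DB.A.Conn

/-!
# Project DB, part A, module DB-A-Base: factorisations of the identity of the coarse tree

PLAN. `g` is surjective with left inverse `h`, so bijective and `g (h s) = s`: `g` and `h` are inverse
graph isomorphisms. The neighbours of `v` inject by `g` into those of `g v`: `deg G v ≤ deg A (g v)`.
For `x ∈ B` the vertices `ray x m 1`, `m < d x`, are different neighbours of `x` (`ray_adj` with
`ray_zero`, `ray_inj`, `1 ≤ L` from `long`): `d x ≤ deg G x`. Hence `g` maps `B` injectively into the branch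
vertices of `A` (`B.card = (↑B).ncard`, `Set.ncard_le_ncard_of_injOn`), and
`beta A ≥ deg A (g x) - 2 ≥ d x - 2` (one summand, `Finset.single_le_sum`).
-/

namespace Pool.Agent.DB.A

open Set

private theorem base_deg_le (M : Model) {S : Type} [Fintype S] (A : SimpleGraph S)
    (g : M.G →g A) (hinj : Function.Injective g) (v : M.V) : deg M.G v ≤ deg A (g v) := by
  unfold deg
  refine Set.ncard_le_ncard_of_injOn g (fun w hw => ?_) (hinj.injOn) (Set.toFinite _)
  exact g.map_adj hw

private theorem base_d_le (M : Model) (x : M.V) (hx : x ∈ M.B) : M.d x ≤ deg M.G x := by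
  classical
  have h3 := M.three_le x hx
  have hL : 1 ≤ M.L := by
    have h1 := M.long x hx
    have h2 : 0 < (M.d x ^ 2 + M.d x + 1) * M.d x := by positivity
    omega
  have hinj : Set.InjOn (fun m => M.ray x m 1) (Finset.range (M.d x) : Set ℕ) := by
    intro m hm m' hm' h
    rw [Finset.mem_coe, Finset.mem_range] at hm hm'
    rcases (M.ray_inj x hx m 1 m' 1 hL hL h).2 with h1 | h1
    · omega
    · exact Nat.ModEq.eq_of_lt_of_lt h1 hm hm'
  unfold deg
  calc M.d x = ((Finset.range (M.d x) : Finset ℕ) : Set ℕ).ncard := by
        rw [Set.ncard_coe_finset, Finset.card_range]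
    _ ≤ (M.G.neighborSet x).ncard := by
        refine Set.ncard_le_ncard_of_injOn _ (fun m _ => ?_) hinj (Set.toFinite _)
        have h1 := M.ray_adj x hx m 0 (by omega)
        rw [M.ray_zero x hx] at h1
        exact h1

theorem base (M : Model) {S : Type} [Fintype S] (A : SimpleGraph S) (g : M.G →g A)
    (h : A →g M.G) (hg : Function.Surjective g) (hgh : ∀ v, h (g v) = v) :
    M.B.card ≤ bnum A ∧ ∀ x, M.B = {x} → M.d x - 2 ≤ beta A := by
  have hinj : Function.Injective g := Function.LeftInverse.injective hgh
  constructor
  · unfold bnum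
    rw [← Set.ncard_coe_finset]
    refine Set.ncard_le_ncard_of_injOn g (fun x hx => ?_) hinj.injOn (Set.toFinite _)
    have hx' : x ∈ M.B := hx
    exact (M.three_le x hx').trans ((base_d_le M x hx').trans (base_deg_le M A g hinj x))
  · intro x hB
    have hx : x ∈ M.B := by rw [hB]; exact Finset.mem_singleton_self x
    have h1 := (base_d_le M x hx).trans (base_deg_le M A g hinj x)
    have h2 : deg A (g x) - 2 ≤ beta A := by
      unfold beta
      exact Finset.single_le_sum (f := fun v => deg A v - 2) (fun _ _ => Nat.zero_le _)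
        (Finset.mem_univ (g x))
    omega

end Pool.Agent.DB.A
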