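import Pool.Agent.DB.A.Core

/-!
# Project DB, part A: surgery of the tree `A` at the component `N` (definitions)

`N` connected, `O` the outside image; the new tree has one vertex (`none`) for `N` and the classes
of `O` for the relation `Rel`: in the hull of the exit points of one component of `O` all vertices
with the same label are identified.
-/

namespace Pool.Agent.DB.A

open Set

/-- situation of the surgery -/
structure Surg (c : Ctx) {S : Type} (A : SimpleGraph S) (h : A →g c.M.G) (N O : Set S)
    (X : Set (S × S)) : Prop where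
  tree : A.IsTree
  con : Con A N
  cover : ∀ s, s ∈ N ∨ s ∈ O
  joint : ∀ s ∈ N, h s = c.x → s ∉ O
  rays : ∀ s ∈ N, ∃ m j, j ≤ c.L ∧ h s = c.ray m j
  exN : ∀ e ∈ X, e.1 ∈ N ∧ h e.1 = c.x ∧ e.2 ∈ O ∧ A.Adj e.1 e.2
  reach : ∀ s ∈ O, ∃ e ∈ X, CIn A O s e.2

section

variable {S : Type}

/-- exit points -/
def EP (X : Set (S × S)) : Set S := {s | ∃ v, (v, s) ∈ X}

/-- hull of the exit points, component of `O` by component -/
def Hul (A : SimpleGraph S) (O : Set S) (X : Set (S × S)) : Set S :=
  {s | ∃ e₁ e₂, e₁ ∈ EP X ∧ e₂ ∈ EP X ∧ CIn A O e₁ e₂ ∧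
    ∃ p : A.Walk e₁ e₂, p.IsPath ∧ s ∈ p.support}

/-- the identification -/
def Rel {V : Type} (A : SimpleGraph S) (h : S → V) (O : Set S) (X : Set (S × S)) (s t : S) :
    Prop :=
  s = t ∨ (s ∈ Hul A O X ∧ t ∈ Hul A O X ∧ CIn A O s t ∧ h s = h t)

/-- the identification as a setoid -/
def relSetoid {V : Type} (A : SimpleGraph S) (h : S → V) (O : Set S) (X : Set (S × S)) :
    Setoid S where
  r := Rel A h O X
  iseqv :=
    { refl := fun _ => Or.inl rfl
      symm := by
        rintro s t (rfl | ⟨h1, h2, h3, h4⟩)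
        · exact Or.inl rfl
        · exact Or.inr ⟨h2, h1, h3.symm, h4.symm⟩
      trans := by
        rintro s t u (rfl | ⟨h1, h2, h3, h4⟩) (rfl | ⟨k1, k2, k3, k4⟩)
        · exact Or.inl rfl
        · exact Or.inr ⟨k1, k2, k3, k4⟩
        · exact Or.inr ⟨h1, h2, h3, h4⟩
        · exact Or.inr ⟨h1, k2, h3.trans k3, h4.trans k4⟩ }

/-- representative of a class -/
noncomputable def rep {V : Type} (A : SimpleGraph S) (h : S → V) (O : Set S) (X : Set (S × S))
    (s : S) : S := Quotient.out (s := relSetoid A h O X) (Quotient.mk (relSetoid A h O X) s)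

variable {V : Type} {A : SimpleGraph S} {h : S → V} {O : Set S} {X : Set (S × S)}

theorem rep_rel (s : S) : Rel A h O X (rep A h O X s) s :=
  Quotient.exact (s := relSetoid A h O X) (Quotient.out_eq _)

theorem rep_eq_iff {s t : S} : rep A h O X s = rep A h O X t ↔ Rel A h O X s t := by
  constructor
  · intro he
    have h1 := rep_rel (A := A) (h := h) (O := O) (X := X) s
    have h2 := rep_rel (A := A) (h := h) (O := O) (X := X) t
    rw [he] at h1
    exact (relSetoid A h O X).iseqv.trans ((relSetoid A h O X).iseqv.symm h1) h2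
  · intro hr
    have : Quotient.mk (relSetoid A h O X) s = Quotient.mk (relSetoid A h O X) t :=
      Quotient.sound hr
    unfold rep
    rw [this]

theorem rep_rep (s : S) : rep A h O X (rep A h O X s) = rep A h O X s :=
  rep_eq_iff.2 (rep_rel s)

theorem rep_mem {s : S} (hs : s ∈ O) : rep A h O X s ∈ O := by
  rcases rep_rel (A := A) (h := h) (O := O) (X := X) s with he | ⟨-, -, hc, -⟩
  · rw [he]
    exact hs
  · exact hc.left

theorem rep_lab (s : S) : h (rep A h O X s) = h s := by
  rcases rep_rel (A := A) (h := h) (O := O) (X := X) s with he | ⟨-, -, -, hl⟩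
  · rw [he]
  · exact hl

theorem ep_hul {e : S} (he : e ∈ EP X) (hO : e ∈ O) : e ∈ Hul A O X :=
  ⟨e, e, he, he, CIn.refl hO, SimpleGraph.Walk.nil, by simp, by simp⟩

variable (A h O X)

/-- vertices of the new tree -/
abbrev SV : Type := Option {t : S // t ∈ O ∧ rep A h O X t = t}

end

/-- the new tree -/
def SG (c : Ctx) {S : Type} (A : SimpleGraph S) (h : A →g c.M.G) (O : Set S)
    (X : Set (S × S)) : SimpleGraph (SV A h O X) where
  Adj
    | none, none => False
    | none, some t => ∃ s, s ∈ O ∧ s ∈ EP X ∧ rep A h O X s = t.1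
    | some t, none => ∃ s, s ∈ O ∧ s ∈ EP X ∧ rep A h O X s = t.1
    | some t, some t' => ∃ s s', s ∈ O ∧ s' ∈ O ∧ A.Adj s s' ∧ rep A h O X s = t.1 ∧
        rep A h O X s' = t'.1
  symm := ⟨by
    rintro (_ | t) (_ | t') hadj
    · exact hadj
    · exact hadj
    · exact hadj
    · obtain ⟨s, s', h1, h2, h3, h4, h5⟩ := hadj
      exact ⟨s', s, h2, h1, h3.symm, h5, h4⟩⟩
  loopless := ⟨by
    rintro (_ | t) hadj
    · exact hadj
    · obtain ⟨s, s', h1, h2, h3, h4, h5⟩ := hadj
      have e1 : h s = h s' := by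
        rw [← rep_lab (A := A) (h := h) (O := O) (X := X) s,
          ← rep_lab (A := A) (h := h) (O := O) (X := X) s', h4, h5]
      have e2 := h.map_rel h3
      rw [e1] at e2
      exact e2.ne rfl⟩

/-- the class of a vertex of `O` -/
noncomputable def cls (c : Ctx) {S : Type} (A : SimpleGraph S) (h : A →g c.M.G) (O : Set S)
    (X : Set (S × S)) (s : S) : SV A h O X := by
  classical
  exact if hs : s ∈ O then some ⟨rep A h O X s, rep_mem hs, rep_rep s⟩ else none

end Pool.Agent.DB.A
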