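import Pool.Agent.DB.A.Armv
import Pool.Agent.DB.A.Surg

/-!
# Project DB, part A, module DB-A-Comp: the component `N` of a centre

PLAN (definitions `NE, N, QN, B, O, X` in `Exp.lean`, `armv` lemmas in `Armv.lean`).
* `B_armv`, `not_B_armv`: unfold `armv`, `B`; the points of the arm are `old a` (in `B` iff
  `a ∈ QN`), `new a b _ _`.
* `arm_N`: induction on `m` and `j` along the arm: `(0,0)` is `old a`, its image is in `N` by
  definition of `QN`; consecutive points are related by `NE` (`Relation.ReflTransGen.tail`);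
  `armv_end` passes to the next excursion.
* `N_cover`: cases of `ReflTransGen` (last step): the start is `g (old c₀)`, `c₀ ∈ QN`; after a step
  `s = g (armv a b m j)` or `g (armv a b m (j+1))` with `a ∈ Q` and both points of the edge; the whole
  arm is `NE`-connected with `g (old a)`, so `a ∈ QN` (`arm_QN`), and the point is in `B`.
* `arm_QN`: walk back along the arm from the point to `old a`; `NE` is symmetric, so
  `ReflTransGen` is too.
* `N_con`: `NE s t` implies `A.Adj s t` (`hSt.step`) and both in `N`; so from `g (old c₀)` to every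
  `s ∈ N` there is a connection in `N` (induction on `ReflTransGen`), `CIn.symm`, `CIn.trans`.
* `joint_B`: `p = old w`: if `w ∈ Q` then `w ∈ QN` by definition; if `w ∉ Q`: `lab w = x`, `N_cover` gives
  `p'' ∈ B` with `g p'' = g (old w)`, and `hSt.inv` says `p'' = old a'`, `a' ∉ Q`: contradiction to
  `p'' ∈ B` (`QN ⊆ Q`). `p = new a b m j`: `arm_QN` (`armv_pos`).
* `step_B`: cases of `Step`; the exit vertex `old b` is not in `B` because `lab b ≠ x` (`lab_ne`,
  `hSt.cen`).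
-/

namespace Pool.Agent.DB.A.Ctx

open Set

variable {c : Ctx} {Q : Set c.W} {S : Type} {A : SimpleGraph S} {g : EV c.W → S}
  {h : A →g c.M.G} {c₀ : c.W}

theorem QN_sub : c.QN Q g c₀ ⊆ Q := fun _ h => h.1

theorem c₀_mem (hc₀ : c₀ ∈ Q) : c₀ ∈ c.QN Q g c₀ := ⟨hc₀, Relation.ReflTransGen.refl⟩

theorem B_valid {p : EV c.W} (hp : p ∈ c.B Q g c₀) : c.Valid Q p := by
  cases p with
  | old w => exact trivial
  | new a b m j =>
      obtain ⟨h1, h2⟩ := hp
      exact ⟨h1.1, h2⟩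

theorem B_joint {a b : c.W} (ha : a ∈ c.QN Q g c₀) (hab : c.D.Adj a b) {m : ℕ}
    (hm : m ≤ c.E b) : c.armv a b m 0 ∈ c.B Q g c₀ := by
  cases m with
  | zero =>
    rw [armv_zero_zero]
    exact ha
  | succ m =>
    rw [armv_succ_zero]
    have hr := c.r_pos b m
    exact ⟨ha, hab, by omega, by omega, le_rfl⟩

theorem B_armv {a b : c.W} (ha : a ∈ c.QN Q g c₀) (hab : c.D.Adj a b) {m j : ℕ}
    (hm : m < c.E b) (hj : j ≤ 2 * c.r b m) : c.armv a b m j ∈ c.B Q g c₀ := by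
  rcases Nat.eq_zero_or_pos j with rfl | h0
  · exact B_joint ha hab hm.le
  · rw [armv_pos hm h0]
    exact ⟨ha, hab, hm, h0, hj⟩

theorem not_B_joint {a b : c.W} (ha : a ∉ c.QN Q g c₀) (m : ℕ) :
    c.armv a b m 0 ∉ c.B Q g c₀ := by
  cases m with
  | zero =>
    rw [armv_zero_zero]
    exact ha
  | succ m =>
    rw [armv_succ_zero]
    exact fun hB => ha hB.1

theorem not_B_armv {a b : c.W} (ha : a ∉ c.QN Q g c₀) {m j : ℕ} (hm : m < c.E b) :
    c.armv a b m j ∉ c.B Q g c₀ := by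
  rcases Nat.eq_zero_or_pos j with rfl | h0
  · exact not_B_joint ha m
  · rw [armv_pos hm h0]
    exact fun hB => ha hB.1

private theorem NE_symm {s t : S} (hst : c.NE Q g s t) : c.NE Q g t s := by
  obtain ⟨a, b, m, j, h1, h2, h3, h4, h5⟩ := hst
  exact ⟨a, b, m, j, h1, h2, h3, h4, h5.symm⟩

private theorem NE_arm {a b : c.W} (ha : a ∈ Q) (hab : c.D.Adj a b) {m j : ℕ} (hm : m < c.E b)
    (hj : j < 2 * c.r b m) : c.NE Q g (g (c.armv a b m j)) (g (c.armv a b m (j + 1))) :=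
  ⟨a, b, m, j, ha, hab, hm, hj, Or.inl ⟨rfl, rfl⟩⟩

private theorem con_exc {a b : c.W} (ha : a ∈ Q) (hab : c.D.Adj a b) {m : ℕ} (hm : m < c.E b) :
    ∀ j, j ≤ 2 * c.r b m →
      Relation.ReflTransGen (c.NE Q g) (g (c.armv a b m 0)) (g (c.armv a b m j)) := by
  intro j
  induction j with
  | zero => exact fun _ => Relation.ReflTransGen.refl
  | succ j ih => exact fun hj => (ih (by omega)).tail (NE_arm ha hab hm (by omega))

private theorem con_joint {a b : c.W} (ha : a ∈ Q) (hab : c.D.Adj a b) :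
    ∀ m, m ≤ c.E b → Relation.ReflTransGen (c.NE Q g) (g (.old a)) (g (c.armv a b m 0)) := by
  intro m
  induction m with
  | zero =>
    intro _
    rw [armv_zero_zero]
  | succ m ih =>
    intro hm
    rw [← armv_end hm]
    exact (ih (by omega)).trans (con_exc ha hab hm _ le_rfl)

private theorem con_arm {a b : c.W} (ha : a ∈ Q) (hab : c.D.Adj a b) {m j : ℕ} (hm : m < c.E b)
    (hj : j ≤ 2 * c.r b m) :
    Relation.ReflTransGen (c.NE Q g) (g (.old a)) (g (c.armv a b m j)) :=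
  (con_joint ha hab m hm.le).trans (con_exc ha hab hm j hj)

theorem arm_N {a b : c.W} (ha : a ∈ c.QN Q g c₀) (hab : c.D.Adj a b) {m j : ℕ}
    (hm : m < c.E b) (hj : j ≤ 2 * c.r b m) : g (c.armv a b m j) ∈ c.N Q g c₀ :=
  Relation.ReflTransGen.trans ha.2 (con_arm ha.1 hab hm hj)

theorem joint_N {a b : c.W} (ha : a ∈ c.QN Q g c₀) (hab : c.D.Adj a b) {m : ℕ}
    (hm : m ≤ c.E b) : g (c.armv a b m 0) ∈ c.N Q g c₀ :=
  Relation.ReflTransGen.trans ha.2 (con_joint ha.1 hab m hm)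

theorem B_N {p : EV c.W} (hp : p ∈ c.B Q g c₀) : g p ∈ c.N Q g c₀ := by
  cases p with
  | old a => exact hp.2
  | new a b m j =>
    obtain ⟨h1, h2, h3, h4, h5⟩ := hp
    rw [← armv_pos h3 h4]
    exact arm_N h1 h2 h3 h5

private theorem rev {s t : S} (hst : Relation.ReflTransGen (c.NE Q g) s t) :
    Relation.ReflTransGen (c.NE Q g) t s := by
  induction hst with
  | refl => exact Relation.ReflTransGen.refl
  | tail _ h2 ih => exact (Relation.ReflTransGen.single (NE_symm h2)).trans ih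

theorem arm_QN {a b : c.W} (ha : a ∈ Q) (hab : c.D.Adj a b) {m j : ℕ}
    (hm : m < c.E b) (hj : j ≤ 2 * c.r b m) (hN : g (c.armv a b m j) ∈ c.N Q g c₀) :
    a ∈ c.QN Q g c₀ :=
  ⟨ha, Relation.ReflTransGen.trans hN (rev (con_arm ha hab hm hj))⟩

theorem N_cover (hc₀ : c₀ ∈ Q) {s : S} (hs : s ∈ c.N Q g c₀) : ∃ p ∈ c.B Q g c₀, g p = s := by
  have hs' := hs
  rcases Relation.ReflTransGen.cases_tail hs with h1 | ⟨s', -, a, b, m, j, ha, hab, hm, hj, h5⟩
  · exact ⟨.old c₀, c₀_mem hc₀, h1.symm⟩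
  · rcases h5 with ⟨-, rfl⟩ | ⟨rfl, -⟩
    · have hq := arm_QN ha hab hm (show j + 1 ≤ _ by omega) hs'
      exact ⟨_, B_armv hq hab hm (by omega), rfl⟩
    · have hq := arm_QN ha hab hm hj.le hs'
      exact ⟨_, B_armv hq hab hm hj.le, rfl⟩

theorem N_con (hSt : c.St Q A g h) : Con A (c.N Q g c₀) := by
  have key : ∀ s, Relation.ReflTransGen (c.NE Q g) (g (.old c₀)) s →
      CIn A (c.N Q g c₀) (g (.old c₀)) s := by
    intro s hs
    induction hs with
    | refl => exact CIn.refl Relation.ReflTransGen.refl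
    | tail h1 h2 ih =>
      have h3 := h1.tail h2
      refine ih.trans (CIn.of_adj ?_ h1 h3)
      obtain ⟨a, b, m, j, ha, hab, hm, hj, h5⟩ := h2
      have h4 := hSt.step _ _ (Step.arm a b m j ha hab hm hj)
      rcases h5 with ⟨h6, h7⟩ | ⟨h6, h7⟩
      · rw [h6, h7]
        exact h4
      · rw [h6, h7]
        exact h4.symm
  exact fun s hs t ht => (key s hs).symm.trans (key t ht)

theorem joint_B (hSt : c.St Q A g h) (hc₀ : c₀ ∈ Q) {p : EV c.W} (hp : c.Valid Q p)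
    (hN : g p ∈ c.N Q g c₀) (hx : c.labE p = c.x) : p ∈ c.B Q g c₀ := by
  cases p with
  | old w =>
    by_cases hw : w ∈ Q
    · exact ⟨hw, hN⟩
    · obtain ⟨p', hp', hg⟩ := N_cover hc₀ hN
      obtain ⟨a', ha', rfl⟩ := hSt.inv w hw hx p' (B_valid hp') hg
      exact absurd hp'.1 ha'
  | new a b m j =>
    obtain ⟨h1, h2, h3, h4, h5⟩ := hp
    rw [← armv_pos h3 h4] at hN
    exact ⟨arm_QN h1 h2 h3 h5 hN, h2, h3, h4, h5⟩

theorem step_B (hSt : c.St Q A g h) {p p' : EV c.W} (hs : c.Step Q p p') :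
    (p ∈ c.B Q g c₀ ∧ p' ∈ c.B Q g c₀) ∨ (p ∉ c.B Q g c₀ ∧ p' ∉ c.B Q g c₀) ∨
      (p ∈ c.B Q g c₀ ∧ p' ∉ c.B Q g c₀ ∧ ∃ a b, a ∈ c.QN Q g c₀ ∧ c.D.Adj a b ∧
        p = c.armv a b (c.E b) 0 ∧ p' = .old b) := by
  cases hs with
  | main w w' hw h1 h2 => exact Or.inr (Or.inl ⟨fun hB => h1 hB.1, fun hB => h2 hB.1⟩)
  | arm a b m j ha hab hm hj =>
    by_cases hq : a ∈ c.QN Q g c₀
    · exact Or.inl ⟨B_armv hq hab hm hj.le, B_armv hq hab hm (by omega)⟩
    · exact Or.inr (Or.inl ⟨not_B_armv hq hm, not_B_armv hq hm⟩)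
  | exit a b ha hab =>
    have hb : (.old b : EV c.W) ∉ c.B Q g c₀ := fun hb =>
      lab_ne hab (hSt.cen a ha) (hSt.cen b hb.1)
    by_cases hq : a ∈ c.QN Q g c₀
    · exact Or.inr (Or.inr ⟨B_joint hq hab le_rfl, hb, a, b, hq, hab, rfl, rfl⟩)
    · exact Or.inr (Or.inl ⟨not_B_joint hq _, hb⟩)

/-- exit vertices are outside -/
theorem exit_not_B (hSt : c.St Q A g h) {a b : c.W} (ha : a ∈ Q) (hab : c.D.Adj a b) :
    (.old b : EV c.W) ∉ c.B Q g c₀ := fun hb =>
  lab_ne hab (hSt.cen a ha) (hSt.cen b hb.1)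

end Pool.Agent.DB.A.Ctx
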