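import Pool.Agent.DB.A.Mod

/-!
# Project DB, part A, module DB-A-Core: all exits into one outside component have one direction

PLAN (`core1`). Put `C = N ∪ {s₁, s₂}`. `CIn A C s₁ s₂` (through `v₁`, a walk in `N`, `v₂`), so by
`CIn.inter` with `hs`: `CIn A (C ∩ {u | ¬ (u ∈ N ∧ h u = x)}) s₁ s₂`. Every `u` in this set has
`h u ≠ x` (`u ∈ N`: clear; `u = s₁` or `s₂`: `h s₁` is adjacent to `h v₁ = x`). Map by `h`
(`CIn.map`, `CIn.mono`): `CIn G {v | v ≠ x} (h s₁) (h s₂)`; `h s₁ = ray m 1`, `h s₂ = ray m' 1`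
(`nbr_x`), `no_bypass` and `ray_one_iff`.
-/

namespace Pool.Agent.DB.A.Ctx

open Set

theorem core1 (c : Ctx) {S : Type} {A : SimpleGraph S} (hA : A.IsAcyclic) (h : A →g c.M.G)
    (N : Set S) (hN : Con A N) {v₁ v₂ s₁ s₂ : S} (hv₁ : v₁ ∈ N) (hv₂ : v₂ ∈ N)
    (h₁ : h v₁ = c.x) (h₂ : h v₂ = c.x) (ha₁ : A.Adj v₁ s₁) (ha₂ : A.Adj v₂ s₂)
    (hs : CIn A {u | ¬ (u ∈ N ∧ h u = c.x)} s₁ s₂) : h s₁ = h s₂ := by
  have hx : ∀ {v s : S}, h v = c.x → A.Adj v s → h s ≠ c.x := by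
    intro v s hv hvs hs
    have := h.map_rel hvs
    rw [hv, hs] at this
    exact this.ne rfl
  set C : Set S := N ∪ {s₁, s₂} with hC
  have hs₁C : s₁ ∈ C := Or.inr (Or.inl rfl)
  have hs₂C : s₂ ∈ C := Or.inr (Or.inr rfl)
  have hNC : N ⊆ C := subset_union_left
  have h1 : CIn A C s₁ s₂ :=
    (CIn.of_adj ha₁.symm hs₁C (hNC hv₁)).trans (((hN _ hv₁ _ hv₂).mono hNC).trans
      (CIn.of_adj ha₂ (hNC hv₂) hs₂C))
  have h2 := (h1.inter hA hs).map h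
  have h3 : CIn c.M.G {v | v ≠ c.x} (h s₁) (h s₂) := by
    refine h2.mono ?_
    rintro _ ⟨u, ⟨hu, hu'⟩, rfl⟩
    rcases hu with hu | hu | hu
    · exact fun he => hu' ⟨hu, he⟩
    · rw [hu]
      exact hx h₁ ha₁
    · rw [hu]
      exact hx h₂ ha₂
  have e1 := h.map_rel ha₁
  have e2 := h.map_rel ha₂
  rw [h₁] at e1
  rw [h₂] at e2
  obtain ⟨m, -, hm⟩ := c.nbr_x e1
  obtain ⟨m', -, hm'⟩ := c.nbr_x e2
  rw [hm, hm'] at h3
  rw [hm, hm']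
  exact (c.ray_one_iff m m').2 (c.no_bypass h3)

end Pool.Agent.DB.A.Ctx
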