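import Pool.Agent.DB.A.Gate

/-!
# Project DB, part A, module DB-A-Disj: over a free index the arm can be read off; disjointness

PLAN. Fix an exit number `e`. `cf s t = 1` if there are `a ∈ QN`, `b` adjacent, `E b = e`,
`s = g (armv a b m₀ 0)`, `t = g (armv a b m₀ 1)`; `cf s t = -1` if the same holds with `s, t` exchanged;
`0` otherwise (both cannot happen for adjacent ones: labels `x` and `ray m₀ 1 ≠ x`; so `cf` is
antisymmetric). `ι p = 1` for `p = new a b m j`, `a ∈ QN`, `E b = e`, and (`m₀ < m` or `m = m₀` and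
`1 ≤ j < 2r` or `m = m₀`, `j = 2r`), i.e. `m₀ ≤ m`; and for `p ∉ B`: `ι p = 1` iff `out p = e`; all other
values `0` (`old a`, `a ∈ QN`: `0`). In terms of arms (`a ∈ QN`): `ι (armv a b m j) = 1` iff `E b = e` and
(`m₀ < m` or (`m = m₀` and `1 ≤ j`)). [`armv a b (m+1) 0 = new a b m (2r)`: for `m + 1 = m₀` this is
`m = m₀ - 1 < m₀`: value `0`; for `m = m₀`: `1`.]
Check `ι p' - ι p = cf (g p) (g p')` for all steps (`step_B`):
 - gate of the arm itself, `m = m₀`, `j = 0`: `ι` jumps by `[E b = e]`; `cf = 1` iff there is an arm with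
   number `e` and the same gate, iff `E b = e` by `gate_unique`.
 - other arm steps in `B`: `ι` does not jump; `cf (g p) (g p') = 0`: if `g p = g (armv a' b' m₀ 0)` and
   `g p' = g (armv a' b' m₀ 1)`: label of `p` is `x` so `j = 0`, and the index of `g p'` (`IdxFn.arm`) is
   `m = m₀`: the gate itself. If `g p' = g (armv a' b' m₀ 0)`, `g p = g (armv a' b' m₀ 1)`: `p' = (m, 2r)`,
   and the index of `g p` is `m = m₀`: `not_back`. (Interior steps: no label `x`.)
 - exit step: `ι (old b) = [out (old b) = e] = [E b = e]`; `cf = 0`: `g (old b)` has index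
   `out (old b) ≥ K + 1 ≠ m₀`, and `old b` has not the label `x`.
 - steps outside `B`: `out` constant, no end is a joint of `N` (`joint_B`), so `cf = 0`.
`pot_factor` and `conn_exp`: `ι` is a function `J` of the image: `exists_type`.
`disj`: suppose `s ∈ N`, `s ∈ O`: `s = g p = g p'`, `p ∈ B` (`N_cover`), `p'` valid, `p' ∉ B`. The label is
not `x` (`joint_B`). So `p = armv a b m j`, `a ∈ QN`, `m < E b`, `1 ≤ j < 2r` (`B`, `labE`). Index:
`m = I s = out p' ≥ K + 1 > m₀`. With `e = out p'`: `ι p' = 1`, so `ι p = 1`, so `E b = e = m`: contradiction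
to `m < E b`.
-/

namespace Pool.Agent.DB.A.Ctx

open Set

variable {c : Ctx} {Q : Set c.W} {S : Type} {A : SimpleGraph S} {g : EV c.W → S}
  {h : A →g c.M.G} {c₀ : c.W}

/-- the gates of the arms with the number `e` -/
private def dj_Gt (c : Ctx) (Q : Set c.W) {S : Type} (g : EV c.W → S) (c₀ : c.W) (m₀ e : ℕ)
    (s t : S) : Prop :=
  ∃ a b, a ∈ c.QN Q g c₀ ∧ c.D.Adj a b ∧ c.E b = e ∧ s = g (c.armv a b m₀ 0) ∧
    t = g (c.armv a b m₀ 1)

open Classical in
private noncomputable def dj_cf (c : Ctx) (Q : Set c.W) {S : Type} (g : EV c.W → S) (c₀ : c.W)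
    (m₀ e : ℕ) (s t : S) : ℤ :=
  (if dj_Gt c Q g c₀ m₀ e s t then 1 else 0) - (if dj_Gt c Q g c₀ m₀ e t s then 1 else 0)

open Classical in
private noncomputable def dj_io (c : Ctx) (Q : Set c.W) {S : Type} (g : EV c.W → S) (c₀ : c.W)
    (out : EV c.W → ℕ) (m₀ e : ℕ) (p : EV c.W) : ℤ :=
  if p ∈ c.B Q g c₀ then
    (match p with
      | .old _ => 0
      | .new _ b m _ => if c.E b = e ∧ m₀ ≤ m then 1 else 0)
  else (if out p = e then 1 else 0)

private theorem dj_io_out {out : EV c.W → ℕ} {m₀ e : ℕ} {p : EV c.W} (hp : p ∉ c.B Q g c₀) :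
    dj_io c Q g c₀ out m₀ e p = if out p = e then 1 else 0 := by
  unfold dj_io
  rw [if_neg hp]

private theorem dj_io_pos {out : EV c.W → ℕ} {m₀ e : ℕ} {a b : c.W} (ha : a ∈ c.QN Q g c₀)
    (hab : c.D.Adj a b) {m j : ℕ} (hm : m < c.E b) (hj : 1 ≤ j) (hj2 : j ≤ 2 * c.r b m) :
    dj_io c Q g c₀ out m₀ e (c.armv a b m j) = if c.E b = e ∧ m₀ ≤ m then 1 else 0 := by
  have hB := B_armv (c := c) (Q := Q) (g := g) (c₀ := c₀) ha hab hm hj2
  unfold dj_io
  rw [if_pos hB, armv_pos hm hj]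

private theorem dj_io_zero {out : EV c.W → ℕ} {m₀ e : ℕ} (h0 : 1 ≤ m₀) {a b : c.W}
    (ha : a ∈ c.QN Q g c₀)
    (hab : c.D.Adj a b) {m : ℕ} (hm : m ≤ c.E b) :
    dj_io c Q g c₀ out m₀ e (c.armv a b m 0) = if c.E b = e ∧ m₀ < m then 1 else 0 := by
  have hB := B_joint (c := c) (Q := Q) (g := g) (c₀ := c₀) ha hab hm
  unfold dj_io
  rw [if_pos hB]
  rcases Nat.eq_zero_or_pos m with rfl | hpos
  · rw [armv_zero_zero, if_neg (by omega)]
  · obtain ⟨m', rfl⟩ : ∃ m', m = m' + 1 := ⟨m - 1, by omega⟩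
    rw [armv_succ_zero]
    simp only [Order.lt_add_one_iff]

private theorem dj_valid {a b : c.W} (ha : a ∈ c.QN Q g c₀) (hab : c.D.Adj a b) {m j : ℕ}
    (hm : m < c.E b) (hj : j ≤ 2 * c.r b m) : c.Valid Q (c.armv a b m j) :=
  valid_armv (QN_sub ha) hab hm hj

/-- an end of an outer step is not a gate joint -/
private theorem dj_outer (hSt : c.St Q A g h) (hc₀ : c₀ ∈ Q) {p : EV c.W} (hp : c.Valid Q p)
    (hpB : p ∉ c.B Q g c₀) {a b : c.W} {m : ℕ} (ha : a ∈ c.QN Q g c₀) (hab : c.D.Adj a b)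
    (hm : m ≤ c.E b) : g p ≠ g (c.armv a b m 0) := by
  intro he
  apply hpB
  apply joint_B hSt hc₀ hp
  · rw [he]
    exact joint_N ha hab hm
  · rw [← hSt.lab p hp, he, hSt.lab _ (valid_armv_zero (QN_sub ha) hab hm),
      labE_armv_zero (hSt.cen a (QN_sub ha))]

private theorem dj_E (hSt : c.St Q A g h) {m₀ : ℕ} (hF : Free c Q A g c₀ m₀) {a b : c.W}
    (ha : a ∈ c.QN Q g c₀) (hab : c.D.Adj a b) : m₀ + 2 ≤ c.E b ∧ c.K + 1 ≤ c.E b := by
  have h1 := (E_spec hab (hSt.cen a (QN_sub ha))).1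
  have h2 := hF.le
  omega

private theorem dj_step [Finite S] (hSt : c.St Q A g h) (hc₀ : c₀ ∈ Q) {out : EV c.W → ℕ}
    (ho : OutFn c Q g c₀ out) {I : S → ℤ} (hI : IdxFn c Q g c₀ out I) {m₀ : ℕ}
    (hF : Free c Q A g c₀ m₀) (e : ℕ) {p p' : EV c.W} (hs : c.Step Q p p') :
    dj_io c Q g c₀ out m₀ e p' - dj_io c Q g c₀ out m₀ e p = dj_cf c Q g c₀ m₀ e (g p) (g p') := by
  classical
  -- outer steps
  have houter : p ∉ c.B Q g c₀ → p' ∉ c.B Q g c₀ →
      dj_io c Q g c₀ out m₀ e p' - dj_io c Q g c₀ out m₀ e p =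
        dj_cf c Q g c₀ m₀ e (g p) (g p') := by
    intro h1 h2
    have hv := step_valid hs
    rw [dj_io_out h1, dj_io_out h2, ho.step p p' hs h1 h2, sub_self]
    unfold dj_cf
    rw [if_neg, if_neg, sub_self]
    · rintro ⟨a, b, ha, hab, -, h3, -⟩
      exact dj_outer hSt hc₀ hv.2 h2 ha hab (by have := dj_E hSt hF ha hab; omega) h3
    · rintro ⟨a, b, ha, hab, -, h3, -⟩
      exact dj_outer hSt hc₀ hv.1 h1 ha hab (by have := dj_E hSt hF ha hab; omega) h3
  -- labels and indices of the gate points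
  have hlab0 : ∀ {a b : c.W}, a ∈ c.QN Q g c₀ → c.D.Adj a b → h (g (c.armv a b m₀ 0)) = c.x := by
    intro a b ha hab
    have hE := dj_E hSt hF ha hab
    rw [hSt.lab _ (valid_armv_zero (QN_sub ha) hab (by omega)),
      labE_armv_zero (hSt.cen a (QN_sub ha))]
  have hidx1 : ∀ {a b : c.W}, a ∈ c.QN Q g c₀ → c.D.Adj a b → I (g (c.armv a b m₀ 1)) = m₀ := by
    intro a b ha hab
    have hE := dj_E hSt hF ha hab
    have hr := c.r_pos b m₀
    exact hI.arm a b m₀ 1 ha hab (by omega) le_rfl (by omega)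
  cases hs with
  | main w w' hw h1 h2 => exact houter (fun hB => h1 (QN_sub hB)) (fun hB => h2 (QN_sub hB))
  | arm a b m j ha hab hm hj =>
    by_cases haQ : a ∈ c.QN Q g c₀
    · have hx := hSt.cen a ha
      rw [dj_io_pos haQ hab hm (by omega) (by omega : j + 1 ≤ 2 * c.r b m)]
      have hlab : ∀ j', 1 ≤ j' → j' < 2 * c.r b m → h (g (c.armv a b m j')) ≠ c.x := by
        intro j' h1 h2
        rw [hSt.lab _ (dj_valid haQ hab hm h2.le)]
        exact labE_armv_ne hab hx hm h1 h2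
      -- no gate backwards
      have hback : ¬ dj_Gt c Q g c₀ m₀ e (g (c.armv a b m (j + 1))) (g (c.armv a b m j)) := by
        rintro ⟨a', b', ha', hab', -, h3, h4⟩
        have h5 : h (g (c.armv a b m (j + 1))) = c.x := by rw [h3]; exact hlab0 ha' hab'
        have h6 : j + 1 = 2 * c.r b m := by
          by_contra hne
          exact hlab (j + 1) (by omega) (by omega) h5
        have hr := c.r_pos b m
        have h7 := hI.arm a b m j haQ hab hm (by omega) hj
        rw [h4, hidx1 ha' hab'] at h7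
        have h8 : m = m₀ := by exact_mod_cast h7.symm
        subst h8
        rw [h6] at h3
        exact not_back hSt hF haQ hab ha' hab' h3
      by_cases hg : m = m₀ ∧ j = 0
      · obtain ⟨rfl, rfl⟩ := hg
        rw [dj_io_zero hF.one haQ hab hm.le]
        unfold dj_cf
        rw [if_neg hback, sub_zero]
        by_cases hE : c.E b = e
        · rw [if_pos ⟨hE, le_rfl⟩, if_neg (by omega), if_pos ⟨a, b, haQ, hab, hE, rfl, rfl⟩]
          norm_num
        · rw [if_neg (by tauto), if_neg (by tauto), if_neg]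
          · norm_num
          · rintro ⟨a', b', ha', hab', h2, h3, h4⟩
            exact hE ((gate_unique hSt hF haQ hab ha' hab' h3 h4).trans h2)
      · have hforw : ¬ dj_Gt c Q g c₀ m₀ e (g (c.armv a b m j)) (g (c.armv a b m (j + 1))) := by
          rintro ⟨a', b', ha', hab', -, h3, h4⟩
          have h5 : h (g (c.armv a b m j)) = c.x := by rw [h3]; exact hlab0 ha' hab'
          have h6 : j = 0 := by
            by_contra hne
            exact hlab j (by omega) hj h5
          subst h6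
          have hr := c.r_pos b m
          have h7 := hI.arm a b m 1 haQ hab hm le_rfl (by omega)
          have h8 : I (g (c.armv a b m (0 + 1))) = m₀ := by rw [h4]; exact hidx1 ha' hab'
          rw [zero_add, h7] at h8
          exact hg ⟨by exact_mod_cast h8, rfl⟩
        unfold dj_cf
        rw [if_neg hback, if_neg hforw, sub_self]
        rcases Nat.eq_zero_or_pos j with rfl | hj1
        · rw [dj_io_zero hF.one haQ hab hm.le]
          have h1 : m ≠ m₀ := fun he => hg ⟨he, rfl⟩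
          have h2 : (c.E b = e ∧ m₀ ≤ m) ↔ (c.E b = e ∧ m₀ < m) := by
            constructor
            · rintro ⟨h3, h4⟩
              exact ⟨h3, by omega⟩
            · rintro ⟨h3, h4⟩
              exact ⟨h3, by omega⟩
          simp only [h2, sub_self]
        · rw [dj_io_pos haQ hab hm hj1 hj.le, sub_self]
    · exact houter (not_B_armv haQ hm) (not_B_armv haQ hm)
  | exit a b ha hab =>
    by_cases haQ : a ∈ c.QN Q g c₀
    · have hE := dj_E hSt hF haQ hab
      have hnB : (.old b : EV c.W) ∉ c.B Q g c₀ := exit_not_B hSt ha hab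
      rw [dj_io_out hnB, dj_io_zero hF.one haQ hab le_rfl, ho.exit a b haQ hab]
      have h1 : (c.E b = e ∧ m₀ < c.E b) ↔ c.E b = e := by
        constructor
        · exact fun h => h.1
        · exact fun h => ⟨h, by omega⟩
      simp only [h1, sub_self]
      unfold dj_cf
      rw [if_neg, if_neg, sub_self]
      · rintro ⟨a', b', ha', hab', -, h3, -⟩
        have h4 : h (g (.old b)) = c.x := by rw [h3]; exact hlab0 ha' hab'
        rw [hSt.lab (.old b) trivial] at h4
        exact lab_ne hab (hSt.cen a ha) h4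
      · rintro ⟨a', b', ha', hab', -, -, h3⟩
        have h4 := hI.out (.old b) trivial hnB
        rw [h3, hidx1 ha' hab', ho.exit a b haQ hab] at h4
        have h5 : m₀ = c.E b := by exact_mod_cast h4
        omega
    · exact houter (not_B_joint haQ _) (exit_not_B hSt ha hab)

/-- reading off the arm number `e` beyond the gate `m₀` -/
theorem exists_type [Finite S] (hSt : c.St Q A g h) (hc₀ : c₀ ∈ Q) {out : EV c.W → ℕ}
    (ho : OutFn c Q g c₀ out) {I : S → ℤ} (hI : IdxFn c Q g c₀ out I) {m₀ : ℕ}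
    (hF : Free c Q A g c₀ m₀) (e : ℕ) :
    ∃ J : S → ℤ, (∀ a b m j, a ∈ c.QN Q g c₀ → c.D.Adj a b → m < c.E b → 1 ≤ j →
        j < 2 * c.r b m → m₀ < m → (J (g (c.armv a b m j)) = 1 ↔ c.E b = e)) ∧
      ∀ p, c.Valid Q p → p ∉ c.B Q g c₀ → (J (g p) = 1 ↔ out p = e) := by
  obtain ⟨J, hJ⟩ := pot_factor (c.Step Q) hSt.tree g (dj_cf c Q g c₀ m₀ e)
    (fun s t _ => by unfold dj_cf; ring) (dj_io c Q g c₀ out m₀ e) (c.Valid Q)
    ⟨.old c₀, trivial⟩ (fun p p' hp hp' => conn_exp hSt.cen hp hp')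
    (fun p p' hs => ⟨hSt.step p p' hs, dj_step hSt hc₀ ho hI hF e hs⟩)
  refine ⟨J, ?_, ?_⟩
  · intro a b m j ha hab hm hj1 hj2 hmm
    rw [hJ _ (dj_valid ha hab hm hj2.le), dj_io_pos ha hab hm hj1 hj2.le]
    by_cases hE : c.E b = e
    · simp [hE, hmm.le]
    · simp [hE]
  · intro p hp hpB
    rw [hJ p hp, dj_io_out hpB]
    by_cases hE : out p = e
    · simp [hE]
    · simp [hE]

theorem disj [Finite S] (hSt : c.St Q A g h) (hc₀ : c₀ ∈ Q) {out : EV c.W → ℕ}
    (ho : OutFn c Q g c₀ out) {I : S → ℤ} (hI : IdxFn c Q g c₀ out I) {m₀ : ℕ}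
    (hF : Free c Q A g c₀ m₀) : Disjoint (c.N Q g c₀) (c.O Q g c₀) := by
  rw [Set.disjoint_left]
  rintro s hsN ⟨p', hp', hp'B, hps'⟩
  obtain ⟨p, hp, hps⟩ := N_cover hc₀ hsN
  have hpv := B_valid hp
  have hx : h s ≠ c.x := by
    intro hx
    apply hp'B
    apply joint_B hSt hc₀ hp'
    · rw [hps']
      exact hsN
    · rw [← hSt.lab p' hp', hps', hx]
  have hlp : c.labE p ≠ c.x := by
    rw [← hSt.lab p hpv, hps]
    exact hx
  cases p with
  | old a => exact hlp (hSt.cen a (QN_sub hp))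
  | new a b m j =>
    obtain ⟨ha, hab, hm, hj1, hj2⟩ := hp
    rw [← armv_pos (a := a) hm hj1] at hps hlp
    have hj3 : j < 2 * c.r b m := by
      rcases hj2.lt_or_eq with h1 | h1
      · exact h1
      · exfalso
        apply hlp
        rw [h1, armv_end hm, labE_armv_zero (hSt.cen a (QN_sub ha))]
    have h1 := hI.arm a b m j ha hab hm hj1 hj3
    have h2 := hI.out p' hp' hp'B
    rw [hps] at h1
    rw [hps', h1] at h2
    have h3 : m = out p' := by exact_mod_cast h2
    have h4 := (ho.range p' hp' hp'B).1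
    have h5 := hF.le
    obtain ⟨J, hJ1, hJ2⟩ := exists_type hSt hc₀ ho hI hF (out p')
    have h6 := hJ1 a b m j ha hab hm hj1 hj3 (by omega)
    have h7 := (hJ2 p' hp' hp'B).2 rfl
    rw [hps] at h6
    rw [hps'] at h7
    have h8 := h6.1 h7
    omega

end Pool.Agent.DB.A.Ctx
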