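import Pool.Agent.DB.Defs
import Pool.Agent.DB.A.Conn

/-!
# Project DB, part A: partial expansion graphs

A context `c : Ctx` is a connected graph `c.D` on `c.W` with a homomorphism `c.lab` to the coarse
tree of a model and a branch vertex `c.x`. For a set `Q` of vertices of `c.D` with label `x`
(expanded centres) the partial expansion has the vertices `old w` and `new a b m j` (`a ∈ Q`,
`b` adjacent to `a`, point `j` of the excursion `m` of the arm from `a` to `b`); its edges are
given by `c.Step Q`.
-/

namespace Pool.Agent.DB.A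

open Set

/-- vertices of expansion graphs -/
inductive EV (W : Type) : Type
  | old : W → EV W
  | new : W → W → ℕ → ℕ → EV W

/-- a connected graph over the coarse tree of a model, and a branch vertex `x` of the model -/
structure Ctx where
  M : Model
  x : M.V
  hx : x ∈ M.B
  W : Type
  D : SimpleGraph W
  lab : D →g M.G
  conn : D.Connected

namespace Ctx

variable (c : Ctx)

/-- degree of the branch vertex `x` -/
abbrev d : ℕ := c.M.d c.x

/-- number of full levels -/
abbrev K : ℕ := c.M.K c.x

/-- length of the rays -/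
abbrev L : ℕ := c.M.L

/-- rays from `x` -/
abbrev ray (m j : ℕ) : c.M.V := c.M.ray c.x m j

/-- exit number of a neighbour `v = ray x E 1` of `x` (`K + 1 ≤ E ≤ K + d`) -/
noncomputable def ex (v : c.M.V) : ℕ := by
  classical
  exact if h : ∃ E, c.K + 1 ≤ E ∧ E ≤ c.K + c.d ∧ v = c.ray E 1 then h.choose else 0

/-- number of excursions of the arms ending at `b` -/
noncomputable def E (b : c.W) : ℕ := c.ex (c.lab b)

/-- length of the excursion `m` of the arms ending at `b` -/
noncomputable def r (b : c.W) (m : ℕ) : ℕ := c.M.code c.x (c.E b) m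

/-- point `j` of the excursion `m` of the arm from `a` to `b`: the points `(0, 0)` and `a`,
`(m + 1, 0)` and `(m, 2 * r)`, `(E, 1)` and `b` are identified -/
noncomputable def armv (a b : c.W) (m j : ℕ) : EV c.W :=
  if j = 0 then (if m = 0 then .old a else .new a b (m - 1) (2 * c.r b (m - 1)))
  else if m < c.E b then .new a b m j else .old b

/-- labels of the vertices of an expansion -/
noncomputable def labE : EV c.W → c.M.V
  | .old w => c.lab w
  | .new _ b m j => c.ray m (min j (2 * c.r b m - j))

/-- vertices of the partial expansion -/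
def Valid (Q : Set c.W) : EV c.W → Prop
  | .old _ => True
  | .new a b m j => a ∈ Q ∧ c.D.Adj a b ∧ m < c.E b ∧ 1 ≤ j ∧ j ≤ 2 * c.r b m

/-- edges of the partial expansion (one orientation is enough) -/
inductive Step (Q : Set c.W) : EV c.W → EV c.W → Prop
  | main (w w' : c.W) : c.D.Adj w w' → w ∉ Q → w' ∉ Q → Step Q (.old w) (.old w')
  | arm (a b : c.W) (m j : ℕ) : a ∈ Q → c.D.Adj a b → m < c.E b → j < 2 * c.r b m →
      Step Q (c.armv a b m j) (c.armv a b m (j + 1))
  | exit (a b : c.W) : a ∈ Q → c.D.Adj a b → Step Q (c.armv a b (c.E b) 0) (.old b)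

/-- all vertices in `Q` have the label `x` -/
def Cen (Q : Set c.W) : Prop := ∀ a ∈ Q, c.lab a = c.x

/-- a factorisation of the partial expansion over the model through a tree `A`; vertices with
label `x` which are not expanded do not meet the rest -/
structure St (Q : Set c.W) {S : Type} (A : SimpleGraph S) (g : EV c.W → S) (h : A →g c.M.G) :
    Prop where
  cen : c.Cen Q
  tree : A.IsTree
  step : ∀ p p', c.Step Q p p' → A.Adj (g p) (g p')
  lab : ∀ p, c.Valid Q p → h (g p) = c.labE p
  surj : ∀ s, ∃ p, c.Valid Q p ∧ g p = s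
  inv : ∀ a, a ∉ Q → c.lab a = c.x → ∀ p, c.Valid Q p → g p = g (.old a) →
    ∃ a', a' ∉ Q ∧ p = .old a'

/-! ## The component `N` of a centre -/

/-- edges of `A` covered by an excursion of an expanded centre -/
def NE (Q : Set c.W) {S : Type} (g : EV c.W → S) (s t : S) : Prop :=
  ∃ a b m j, a ∈ Q ∧ c.D.Adj a b ∧ m < c.E b ∧ j < 2 * c.r b m ∧
    ((s = g (c.armv a b m j) ∧ t = g (c.armv a b m (j + 1))) ∨
      (t = g (c.armv a b m j) ∧ s = g (c.armv a b m (j + 1))))

/-- the component of the centre `c₀` in the graph of the edges covered by excursions -/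
def N (Q : Set c.W) {S : Type} (g : EV c.W → S) (c₀ : c.W) : Set S :=
  {s | Relation.ReflTransGen (c.NE Q g) (g (.old c₀)) s}

/-- the expanded centres in the component of `c₀` -/
def QN (Q : Set c.W) {S : Type} (g : EV c.W → S) (c₀ : c.W) : Set c.W :=
  {a | a ∈ Q ∧ g (.old a) ∈ c.N Q g c₀}

/-- the vertices of the blocks of the centres in `QN` -/
def B (Q : Set c.W) {S : Type} (g : EV c.W → S) (c₀ : c.W) : Set (EV c.W) :=
  {p | match p with
    | .old a => a ∈ c.QN Q g c₀
    | .new a b m j => a ∈ c.QN Q g c₀ ∧ c.D.Adj a b ∧ m < c.E b ∧ 1 ≤ j ∧ j ≤ 2 * c.r b m}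

/-- the image of the part of the expansion outside the blocks of `QN` -/
def O (Q : Set c.W) {S : Type} (g : EV c.W → S) (c₀ : c.W) : Set S :=
  {s | ∃ p, c.Valid Q p ∧ p ∉ c.B Q g c₀ ∧ g p = s}

/-- the exits of the blocks of `QN`: (last joint, exit vertex) -/
def X (Q : Set c.W) {S : Type} (g : EV c.W → S) (c₀ : c.W) : Set (S × S) :=
  {e | ∃ a b, a ∈ c.QN Q g c₀ ∧ c.D.Adj a b ∧ e = (g (c.armv a b (c.E b) 0), g (.old b))}

end Ctx

end Pool.Agent.DB.A
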