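import Pool.Agent.DB.A.Surg0
import Pool.Agent.DB.Tree.Leave

/-!
# Project DB, part A, module DB-A-Surg2: branch vertices after the surgery

PLAN. `deg G v = (G.neighborSet v).ncard`.
* `three_le_deg`: three different neighbours (finite vertex set) give degree at least three; and
  conversely (`exists_three`): use `Set.two_lt_ncard_iff` or `Set.exists_subset_card_eq`.
* `con_induce`: `Con A C`, `C` non-empty, gives `(A.induce C).Connected` (a walk with support in `C`
  is a walk of the induced graph: `SimpleGraph.Walk.induce`, or induction on the walk).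
* `branch_N` (three different exit directions): `leave A N` contains the three different darts
  `(v i, e i)` (`e i ∈ O`, `N` and `O` disjoint); `leave_le` gives
  `3 ≤ ∑ s ∈ N, (deg A s - 2) + 2`, so some `deg A s - 2 ≥ 1`.
* `class_branch`: a class `some t` with degree at least three contains `s` with `3 ≤ deg A s`.
  CASE 1 `t.1 ∉ Hul`: then the class of `t` is `{t.1}` (`Rel`), `none` is not adjacent (exit points are
  in `Hul`: `ep_hul`, and `rep e = t.1` gives `Rel e t.1`), the three neighbours are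
  `some tᵢ` given by `A.Adj t.1 sᵢ`, `rep sᵢ = tᵢ.1`; the `sᵢ` are different: `s = t.1`.
  CASE 2 `t.1 ∈ Hul`. Let `m` be from `comp_lab t.1` and `h t.1 = ray m k`. Call a neighbour `γ` of
  `some t` outer if `γ = some t'` with `t'.1 ∉ Hul`. A neighbour which is not outer is `none` (only if
  `k = 1`, because `rep e = t.1`, `h e = ray m 1`), or `some t'` with `t'.1 ∈ Hul`, at height `k + 1` or
  `k - 1 ≥ 1` (`ray_step`), and two such `t'` with the same height are equal (connected in `O`, both in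
  `Hul`, same label, so `rep` equal, and `rep t' = t'`). So there are at most two neighbours which are
  not outer [none and height k - 1 exclude each other], and hence at least one outer neighbour:
  `s, s' ∈ O`, `A.Adj s s'`, `rep s = t.1`, `rep s' = t'.1 ∉ Hul`, so `s' ∉ Hul`, `s ∈ Hul` (as `Rel s t.1`).
  By `hul_nbr s`: if `s` has two different neighbours `u, u' ∈ Hul`: `u, u', s'` show `3 ≤ deg A s`.
  Otherwise `s ∈ EP X`; let `v ∉ O` be the exit joint (`ep_spec`), adjacent to `s`, `v ≠ s'` as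
  `s' ∈ O`. By `hul_single s`: if `s` has a neighbour `u ∈ Hul` then `u, v, s'` (`u ∈ O` by `hul_O`).
  Otherwise `s` is the only hull vertex in its component: `t.1 = s`, all neighbours of `some t`
  except `none` are outer and given by neighbours of `s`: at least two different ones `s', s''`
  (three neighbours of `some t`, at most one is `none`), and `v, s', s''` are different.
* `bnum_SG`: injection from the branch vertices of `SG` to those of `A`:
  `some t ↦` the `s` of `class_branch` (`rep s = t.1`, so injective; `s ∈ O`); `none ↦` a branch vertex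
  in `N`, not in `O`: given by the hypothesis or, if `N` and `O` are disjoint, by `branch_N` (the three
  neighbours of `none` are `some tᵢ`, `tᵢ.1 = rep eᵢ`, `eᵢ ∈ EP X` different). `Set.ncard_le_ncard_of_injOn`.
-/

namespace Pool.Agent.DB.A

open Set

theorem three_le_deg {S : Type} [Finite S] {A : SimpleGraph S} {s a b e : S} (ha : A.Adj s a)
    (hb : A.Adj s b) (he : A.Adj s e) (hab : a ≠ b) (hae : a ≠ e) (hbe : b ≠ e) :
    3 ≤ deg A s := by
  have h : 2 < (A.neighborSet s).ncard := by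
    rw [Set.two_lt_ncard_iff]
    exact ⟨a, b, e, ha, hb, he, hab, hae, hbe⟩
  exact h

theorem exists_three {S : Type} [Finite S] {A : SimpleGraph S} {s : S} (h : 3 ≤ deg A s) :
    ∃ a b e, A.Adj s a ∧ A.Adj s b ∧ A.Adj s e ∧ a ≠ b ∧ a ≠ e ∧ b ≠ e := by
  have h' : 2 < (A.neighborSet s).ncard := h
  rw [Set.two_lt_ncard_iff] at h'
  exact h'

theorem con_induce {S : Type} {A : SimpleGraph S} {C : Set S} (hC : Con A C)
    (hne : C.Nonempty) : (A.induce C).Connected := by
  obtain ⟨s₀, hs₀⟩ := hne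
  have : Nonempty C := ⟨⟨s₀, hs₀⟩⟩
  refine ⟨?_⟩
  rintro ⟨s, hs⟩ ⟨t, ht⟩
  obtain ⟨p, hp⟩ := hC s hs t ht
  exact ⟨p.induce C hp⟩

namespace Surg

variable {c : Ctx} {S : Type} {A : SimpleGraph S} {h : A →g c.M.G} {N O : Set S}
  {X : Set (S × S)}

theorem branch_N [Finite S] (hS : Surg c A h N O X) (hd : Disjoint N O) {e₁ e₂ e₃ : S}
    (h₁ : e₁ ∈ EP X) (h₂ : e₂ ∈ EP X) (h₃ : e₃ ∈ EP X) (h12 : e₁ ≠ e₂) (h13 : e₁ ≠ e₃)
    (h23 : e₂ ≠ e₃) : ∃ s ∈ N, s ∉ O ∧ 3 ≤ deg A s := by
  classical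
  have := Fintype.ofFinite S
  obtain ⟨o1, -, v₁, n1, -, -, a1⟩ := hS.ep_spec h₁
  obtain ⟨o2, -, v₂, n2, -, -, a2⟩ := hS.ep_spec h₂
  obtain ⟨o3, -, v₃, n3, -, -, a3⟩ := hS.ep_spec h₃
  have hNO : ∀ {s : S}, s ∈ O → s ∉ N := fun ho hn => Set.disjoint_left.1 hd hn ho
  have h3 : 2 < (leave A ((N.toFinset : Finset S) : Set S)).ncard := by
    rw [Set.two_lt_ncard_iff (Set.toFinite _)]
    refine ⟨(v₁, e₁), (v₂, e₂), (v₃, e₃), ?_, ?_, ?_, ?_, ?_, ?_⟩
    · rw [Set.coe_toFinset]
      exact ⟨n1, hNO o1, a1⟩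
    · rw [Set.coe_toFinset]
      exact ⟨n2, hNO o2, a2⟩
    · rw [Set.coe_toFinset]
      exact ⟨n3, hNO o3, a3⟩
    · exact fun he => h12 (congrArg Prod.snd he)
    · exact fun he => h13 (congrArg Prod.snd he)
    · exact fun he => h23 (congrArg Prod.snd he)
  have hconn : (A.induce ((N.toFinset : Finset S) : Set S)).Connected := by
    rw [Set.coe_toFinset]
    exact con_induce hS.con ⟨v₁, n1⟩
  have hle := leave_le A hS.tree N.toFinset hconn
  have hpos : 0 < ∑ s ∈ N.toFinset, (deg A s - 2) := by omega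
  obtain ⟨s, hs, hs2⟩ := Finset.exists_ne_zero_of_sum_ne_zero hpos.ne'
  have hsN : s ∈ N := Set.mem_toFinset.1 hs
  exact ⟨s, hsN, Set.disjoint_left.1 hd hsN, by omega⟩

theorem class_branch [Finite S] (hS : Surg c A h N O X)
    (t : {t : S // t ∈ O ∧ rep A h O X t = t}) (ht : 3 ≤ deg (SG c A h O X) (some t)) :
    ∃ s ∈ O, rep A h O X s = t.1 ∧ 3 ≤ deg A s := by
  obtain ⟨γ₁, γ₂, γ₃, a1, a2, a3, h12, h13, h23⟩ := exists_three ht
  have hrel : ∀ {s : S} (t' : {t : S // t ∈ O ∧ rep A h O X t = t}), rep A h O X s = t'.1 →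
      Rel A h O X s t'.1 := by
    intro s t' hs
    rw [← t'.2.2] at hs
    exact rep_eq_iff.1 hs
  by_cases hH : t.1 ∈ Hul A O X
  · -- case 2
    obtain ⟨m, hm1, hm2⟩ := hS.comp_lab t.2.1
    obtain ⟨k, hk1, hkL, hk⟩ := hm2 t.1 hH (CIn.refl t.2.1)
    have hcon : ∀ {s : S}, s ∈ O → rep A h O X s = t.1 → CIn A O t.1 s := by
      intro s hs hr
      have := rep_con (A := A) (h := h) (O := O) (X := X) hs
      rw [hr] at this
      exact this.symm
    -- data of a neighbour which is not outer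
    have hinner : ∀ γ, (SG c A h O X).Adj (some t) γ →
        (∀ t', γ = some t' → t'.1 ∈ Hul A O X) → ∃ κ : ℕ, (κ = k + 1 ∨ κ + 1 = k) ∧
        ((γ = none ∧ κ = 0) ∨ ∃ t', γ = some t' ∧ t'.1 ∈ Hul A O X ∧ CIn A O t.1 t'.1 ∧
          h t'.1 = c.ray m κ ∧ 1 ≤ κ) := by
      rintro (_ | t') hadj hin
      · obtain ⟨s, hs, hse, hr⟩ := hadj
        have e1 := hm1 s hse (hcon hs hr)
        have e2 : h t.1 = h s := by
          rw [← hr]
          exact rep_lab s
        rw [hk, e1] at e2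
        have e3 := (c.M.ray_inj c.x c.hx m k m 1 hkL c.L_pos.le e2).1
        exact ⟨0, Or.inr (by omega), Or.inl ⟨rfl, rfl⟩⟩
      · have hin' := hin t' rfl
        obtain ⟨s, s', hs, hs', hss, hr, hr'⟩ := hadj
        have e1 : CIn A O t.1 t'.1 := by
          have h1 := rep_con (A := A) (h := h) (O := O) (X := X) hs'
          rw [hr'] at h1
          exact ((hcon hs hr).trans (CIn.of_adj hss hs hs')).trans h1
        obtain ⟨κ, h1, h2, h3⟩ := hm2 t'.1 hin' e1
        have e2 : c.M.G.Adj (c.ray m k) (c.ray m κ) := by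
          have h4 := h.map_rel hss
          rw [← rep_lab (A := A) (h := h) (O := O) (X := X) s,
            ← rep_lab (A := A) (h := h) (O := O) (X := X) s', hr, hr', hk, h3] at h4
          exact h4
        have e3 := (c.ray_step hk1 hkL h1 h2 e2).2
        exact ⟨κ, by omega, Or.inr ⟨t', rfl, hin', e1, h3, h1⟩⟩
    have hsame : ∀ {γ γ' : SV A h O X} {κ κ' : ℕ},
        ((γ = none ∧ κ = 0) ∨ ∃ t', γ = some t' ∧ t'.1 ∈ Hul A O X ∧ CIn A O t.1 t'.1 ∧
          h t'.1 = c.ray m κ ∧ 1 ≤ κ) →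
        ((γ' = none ∧ κ' = 0) ∨ ∃ t', γ' = some t' ∧ t'.1 ∈ Hul A O X ∧ CIn A O t.1 t'.1 ∧
          h t'.1 = c.ray m κ' ∧ 1 ≤ κ') → κ = κ' → γ = γ' := by
      rintro γ γ' κ κ' (⟨rfl, h1⟩ | ⟨t₁, rfl, h1, h2, h3, h4⟩)
        (⟨rfl, g1⟩ | ⟨t₂, rfl, g1, g2, g3, g4⟩) rfl
      · rfl
      · omega
      · omega
      · congr 1
        apply Subtype.ext
        rw [← t₁.2.2, ← t₂.2.2]
        exact rep_eq_iff.2 (Or.inr ⟨h1, g1, h2.symm.trans g2, h3.trans g3.symm⟩)
    -- an outer neighbour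
    have hout : ∃ t' : {t : S // t ∈ O ∧ rep A h O X t = t},
        (SG c A h O X).Adj (some t) (some t') ∧ t'.1 ∉ Hul A O X := by
      by_contra hno
      push Not at hno
      have hin : ∀ γ, (SG c A h O X).Adj (some t) γ → ∀ t', γ = some t' →
          t'.1 ∈ Hul A O X := by
        rintro γ hadj t' rfl
        exact hno t' hadj
      obtain ⟨κ₁, k1, d1⟩ := hinner γ₁ a1 (hin γ₁ a1)
      obtain ⟨κ₂, k2, d2⟩ := hinner γ₂ a2 (hin γ₂ a2)
      obtain ⟨κ₃, k3, d3⟩ := hinner γ₃ a3 (hin γ₃ a3)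
      have n12 : κ₁ ≠ κ₂ := fun he => h12 (hsame d1 d2 he)
      have n13 : κ₁ ≠ κ₃ := fun he => h13 (hsame d1 d3 he)
      have n23 : κ₂ ≠ κ₃ := fun he => h23 (hsame d2 d3 he)
      omega
    obtain ⟨t', ⟨s, s', hs, hs', hss, hr, hr'⟩, ht'⟩ := hout
    have hs'H : s' ∉ Hul A O X := by
      rcases hrel t' hr' with he | ⟨-, h2, -, -⟩
      · rw [he]
        exact ht'
      · exact absurd h2 ht'
    have hsH : s ∈ Hul A O X := by
      rcases hrel t hr with he | ⟨h2, -, -, -⟩
      · rw [he]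
        exact hH
      · exact h2
    have hne : ∀ {u : S}, u ∈ Hul A O X → u ≠ s' := by
      rintro u hu rfl
      exact hs'H hu
    rcases hS.hul_nbr hsH with hE | ⟨u, u', hu, hu', huu, hsu, hsu'⟩
    · obtain ⟨-, -, v, -, hvO, -, hvs⟩ := hS.ep_spec hE
      have hvne : ∀ {u : S}, u ∈ O → u ≠ v := by
        rintro u hu rfl
        exact hvO hu
      rcases hS.hul_single hsH with ⟨u, hu, hsu⟩ | hall
      · exact ⟨s, hs, hr, three_le_deg hsu hvs.symm hss (hvne (hS.hul_O hu)) (hne hu)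
          (hvne hs').symm⟩
      · -- `s` is the only hull vertex of its component
        have hts : t.1 = s := hall t.1 hH (hcon hs hr).symm
        have hnb : ∀ t'', (SG c A h O X).Adj (some t) (some t'') →
            ∃ s'' ∈ O, A.Adj s s'' ∧ rep A h O X s'' = t''.1 := by
          rintro t'' ⟨s₁, s₁', g1, g2, g3, g4, g5⟩
          have e1 : s₁ = s := by
            rcases hrel t g4 with he | ⟨j1, -, j3, -⟩
            · rw [he, hts]
            · refine hall s₁ j1 ?_
              rw [← hts]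
              exact j3.symm
          rw [e1] at g3
          exact ⟨s₁', g2, g3, g5⟩
        have hfin : ∀ (γ γ' : SV A h O X), (SG c A h O X).Adj (some t) γ →
            (SG c A h O X).Adj (some t) γ' → γ ≠ none → γ' ≠ none → γ ≠ γ' →
            3 ≤ deg A s := by
          rintro (_ | t₁) (_ | t₂) b1 b2 n1 n2 hne'
          · exact absurd rfl n1
          · exact absurd rfl n1
          · exact absurd rfl n2
          · obtain ⟨s₁, p1, p2, p3⟩ := hnb t₁ b1
            obtain ⟨s₂, q1, q2, q3⟩ := hnb t₂ b2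
            have : s₁ ≠ s₂ := by
              rintro rfl
              apply hne'
              congr 1
              exact Subtype.ext (p3.symm.trans q3)
            exact three_le_deg p2 q2 hvs.symm this (hvne p1) (hvne q1)
        refine ⟨s, hs, hr, ?_⟩
        by_cases n1 : γ₁ = none
        · refine hfin γ₂ γ₃ a2 a3 ?_ ?_ h23
          · rintro rfl
            exact h12 n1
          · rintro rfl
            exact h13 n1
        · by_cases n2 : γ₂ = none
          · refine hfin γ₁ γ₃ a1 a3 n1 ?_ h13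
            rintro rfl
            exact h23 n2
          · exact hfin γ₁ γ₂ a1 a2 n1 n2 h12
    · exact ⟨s, hs, hr, three_le_deg hsu hsu' hss huu (hne hu) (hne hu')⟩
  · -- case 1
    have hsingle : ∀ {s : S}, rep A h O X s = t.1 → s = t.1 := by
      intro s hs
      rcases hrel t hs with he | ⟨-, h2, -, -⟩
      · exact he
      · exact absurd h2 hH
    have hnb : ∀ γ, (SG c A h O X).Adj (some t) γ →
        ∃ s', A.Adj t.1 s' ∧ ∃ t', γ = some t' ∧ rep A h O X s' = t'.1 := by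
      rintro (_ | t') hadj
      · obtain ⟨s, hs, hse, hr⟩ := hadj
        rw [hsingle hr] at hs hse
        exact absurd (ep_hul hse hs) hH
      · obtain ⟨s, s', g1, g2, g3, g4, g5⟩ := hadj
        rw [hsingle g4] at g3
        exact ⟨s', g3, t', rfl, g5⟩
    obtain ⟨s₁, b1, t₁, rfl, r1⟩ := hnb γ₁ a1
    obtain ⟨s₂, b2, t₂, rfl, r2⟩ := hnb γ₂ a2
    obtain ⟨s₃, b3, t₃, rfl, r3⟩ := hnb γ₃ a3
    refine ⟨t.1, t.2.1, t.2.2, three_le_deg b1 b2 b3 ?_ ?_ ?_⟩
    · rintro rfl
      exact h12 (congrArg some (Subtype.ext (r1.symm.trans r2)))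
    · rintro rfl
      exact h13 (congrArg some (Subtype.ext (r1.symm.trans r3)))
    · rintro rfl
      exact h23 (congrArg some (Subtype.ext (r2.symm.trans r3)))

theorem bnum_SG [Finite S] (hS : Surg c A h N O X)
    (hp : (∃ s ∈ N, s ∉ O ∧ 3 ≤ deg A s) ∨ Disjoint N O) :
    bnum (SG c A h O X) ≤ bnum A := by
  classical
  have hnone : 3 ≤ deg (SG c A h O X) none → ∃ s, s ∉ O ∧ 3 ≤ deg A s := by
    intro hd
    rcases hp with ⟨s, -, h1, h2⟩ | hdis
    · exact ⟨s, h1, h2⟩
    · obtain ⟨γ₁, γ₂, γ₃, a1, a2, a3, h12, h13, h23⟩ := exists_three hd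
      have hnb : ∀ γ, (SG c A h O X).Adj none γ →
          ∃ s ∈ EP X, ∃ t', γ = some t' ∧ rep A h O X s = t'.1 := by
        rintro (_ | t') hadj
        · exact hadj.elim
        · obtain ⟨s, -, hse, hr⟩ := hadj
          exact ⟨s, hse, t', rfl, hr⟩
      obtain ⟨s₁, b1, t₁, rfl, r1⟩ := hnb γ₁ a1
      obtain ⟨s₂, b2, t₂, rfl, r2⟩ := hnb γ₂ a2
      obtain ⟨s₃, b3, t₃, rfl, r3⟩ := hnb γ₃ a3
      obtain ⟨s, -, h1, h2⟩ := hS.branch_N hdis b1 b2 b3 (by
          rintro rfl
          exact h12 (congrArg some (Subtype.ext (r1.symm.trans r2)))) (by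
          rintro rfl
          exact h13 (congrArg some (Subtype.ext (r1.symm.trans r3)))) (by
          rintro rfl
          exact h23 (congrArg some (Subtype.ext (r2.symm.trans r3))))
      exact ⟨s, h1, h2⟩
  obtain ⟨s₀⟩ := hS.tree.connected.nonempty
  have hex : ∀ γ : SV A h O X, ∃ s : S, 3 ≤ deg (SG c A h O X) γ →
      3 ≤ deg A s ∧ ((γ = none ∧ s ∉ O) ∨ (s ∈ O ∧ ∃ t', γ = some t' ∧ rep A h O X s = t'.1)) := by
    intro γ
    by_cases hγ : 3 ≤ deg (SG c A h O X) γ
    · rcases γ with _ | t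
      · obtain ⟨s, h1, h2⟩ := hnone hγ
        exact ⟨s, fun _ => ⟨h2, Or.inl ⟨rfl, h1⟩⟩⟩
      · obtain ⟨s, h1, h2, h3⟩ := hS.class_branch t hγ
        exact ⟨s, fun _ => ⟨h3, Or.inr ⟨h1, t, rfl, h2⟩⟩⟩
    · exact ⟨s₀, fun h' => absurd h' hγ⟩
  choose F hF using hex
  unfold bnum
  refine Set.ncard_le_ncard_of_injOn F (fun γ hγ => (hF γ hγ).1) ?_ (Set.toFinite _)
  intro γ hγ γ' hγ' he
  obtain ⟨-, h1⟩ := hF γ hγ
  obtain ⟨-, h2⟩ := hF γ' hγ'
  rw [← he] at h2
  rcases h1 with ⟨rfl, h1⟩ | ⟨h1, t, rfl, h3⟩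
  · rcases h2 with ⟨rfl, h2⟩ | ⟨h2, t', rfl, h4⟩
    · rfl
    · exact absurd h2 h1
  · rcases h2 with ⟨rfl, h2⟩ | ⟨h2, t', rfl, h4⟩
    · exact absurd h1 h2
    · exact congrArg some (Subtype.ext (h3.symm.trans h4))

end Surg

end Pool.Agent.DB.A
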