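import Pool.Agent.DB.A.Index
import Pool.Agent.DB.A.Surg2

/-!
# Project DB, part A, module DB-A-Gate: excursions over an unbranched index

`m₀` is a free index: `1 ≤ m₀`, `m₀ + 1 ≤ K`, and the joints at the beginning of the excursions `m₀`
and all interior points of the excursions `m₀` (of the arms of `N`-centres) have images of degree
at most two in `A`. All arms have `E ≥ K + 1 ≥ m₀ + 2`.

PLAN. `nbr_two`: contrapositive of `three_le_deg`.
Write `v = g (armv a b m₀ 0)`, `r = r b m₀` (`r < L`: `code_lt`).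
* `joint_dir`: `v` has the neighbours `g (armv a b (m₀-1) (2r'-1))` (`r' = r b (m₀-1)`,
  `armv a b m₀ 0 = armv a b (m₀-1) (2r')`), label `ray (m₀-1) 1`, and `g (armv a b m₀ 1)`, label
  `ray m₀ 1`; the labels differ (`ray_one_iff`, `d ≥ 3`), so by `nbr_two` these are all neighbours.
* `gate_top`: suppose `g (armv a b m₀ (r-1)) = g (armv a b m₀ (r+1))`. Claim
  `g (armv a b m₀ (r - i)) = g (armv a b m₀ (r + i))` for `0 ≤ i ≤ r`: induction; for `1 ≤ i < r` the point
  `s = g (armv a b m₀ (r-i)) = g (armv a b m₀ (r+i))` has degree at most two and the neighbours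
  `g (armv a b m₀ (r-i+1))` (height `r-i+1`) and `g (armv a b m₀ (r-i-1))` (height `r-i-1`), and
  `g (armv a b m₀ (r+i+1))` is a neighbour of height `r-i-1`, so it is the second one. For `i = r`:
  `v = g (armv a b m₀ (2r)) = g (armv a b (m₀+1) 0)`, which has the neighbour `g (armv a b (m₀+1) 1)` with
  label `ray (m₀+1) 1` (`m₀ + 1 < E`), contradicting `joint_dir` (`m₀+1 ≢ m₀, m₀-1` mod `d`).
* `gate_unique`: suppose `E b ≠ E b'`, so `r b m₀ ≠ r b' m₀` (`code_ne`), w.l.o.g.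
  `r = r b m₀ < r b' m₀` (symmetric statement). Induction on `j ≤ r`:
  `g (armv a b m₀ j) = g (armv a' b' m₀ j)` (given for `j = 0, 1`; for `1 ≤ j < r` the point has degree at
  most two, neighbours `g (armv a b m₀ (j-1))`, `g (armv a b m₀ (j+1))` of heights `j-1`, `j+1`;
  `g (armv a' b' m₀ (j+1))` is a neighbour of height `j+1`). For `j = r`: the neighbours of
  `g (armv a b m₀ r)` are `g (armv a b m₀ (r-1))`, `g (armv a b m₀ (r+1))`, different by `gate_top`, both of
  height `r-1`; but `g (armv a' b' m₀ (r+1))` is a neighbour of height `r+1`: contradiction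
  (`ray_inj`).
* `not_back`: the end `g (armv a b m₀ (2r)) = g (armv a b (m₀+1) 0)` has a neighbour with label
  `ray (m₀+1) 1`, a starting joint of an excursion `m₀` has not (`joint_dir`).
Labels: `hSt.lab`, `valid_armv`, `labE_armv`; adjacency: `hSt.step (Step.arm ...)`.
-/

namespace Pool.Agent.DB.A.Ctx

open Set

variable {c : Ctx} {Q : Set c.W} {S : Type} {A : SimpleGraph S} {g : EV c.W → S}
  {h : A →g c.M.G} {c₀ : c.W}

/-- a free index -/
structure Free (c : Ctx) (Q : Set c.W) {S : Type} (A : SimpleGraph S) (g : EV c.W → S)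
    (c₀ : c.W) (m₀ : ℕ) : Prop where
  one : 1 ≤ m₀
  le : m₀ + 1 ≤ c.K
  joint : ∀ a b, a ∈ c.QN Q g c₀ → c.D.Adj a b → deg A (g (c.armv a b m₀ 0)) ≤ 2
  arm : ∀ a b j, a ∈ c.QN Q g c₀ → c.D.Adj a b → 1 ≤ j → j < 2 * c.r b m₀ →
    deg A (g (c.armv a b m₀ j)) ≤ 2

theorem nbr_two [Finite S] {s t u u' : S} (hs : deg A s ≤ 2) (hu : A.Adj s u) (hu' : A.Adj s u')
    (hne : u ≠ u') (ht : A.Adj s t) : t = u ∨ t = u' := by
  by_contra hcon
  push Not at hcon
  have h1 := three_le_deg hu hu' ht hne hcon.1.symm hcon.2.symm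
  omega

private theorem not_mod {d m m' : ℕ} (h1 : m < m') (h2 : m' < m + d) : ¬ m ≡ m' [MOD d] := by
  intro h
  have h3 := (Nat.modEq_iff_dvd' h1.le).1 h
  have h4 := Nat.le_of_dvd (by omega) h3
  omega

private theorem ray_ht {m j j' : ℕ} (hj : j ≤ c.L) (hj' : j' ≤ c.L)
    (he : c.ray m j = c.ray m j') : j = j' :=
  (c.M.ray_inj c.x c.hx m j m j' hj hj' he).1

private theorem E_ge (hSt : c.St Q A g h) {m₀ : ℕ} (hF : Free c Q A g c₀ m₀)
    {a b : c.W} (ha : a ∈ c.QN Q g c₀) (hab : c.D.Adj a b) : m₀ + 1 < c.E b := by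
  have h1 := (E_spec hab (hSt.cen a ha.1)).1
  have h2 := hF.le
  omega

private theorem r_lt (hSt : c.St Q A g h) {m₀ : ℕ} (hF : Free c Q A g c₀ m₀)
    {a b : c.W} (ha : a ∈ c.QN Q g c₀) (hab : c.D.Adj a b) : c.r b m₀ < c.L :=
  c.code_lt (E_ge hSt hF ha hab) (E_spec hab (hSt.cen a ha.1)).2.1

private theorem P_adj (hSt : c.St Q A g h) {a b : c.W} (ha : a ∈ c.QN Q g c₀)
    (hab : c.D.Adj a b) {m j : ℕ} (hm : m < c.E b) (hj : j < 2 * c.r b m) :
    A.Adj (g (c.armv a b m j)) (g (c.armv a b m (j + 1))) :=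
  hSt.step _ _ (Step.arm a b m j ha.1 hab hm hj)

private theorem P_lab (hSt : c.St Q A g h) {a b : c.W} (ha : a ∈ c.QN Q g c₀)
    (hab : c.D.Adj a b) {m j : ℕ} (hm : m < c.E b) (hj : j ≤ 2 * c.r b m) :
    h (g (c.armv a b m j)) = c.ray m (min j (2 * c.r b m - j)) := by
  rw [hSt.lab _ (valid_armv ha.1 hab hm hj), labE_armv (hSt.cen a ha.1) hm hj]

theorem joint_dir [Finite S] (hSt : c.St Q A g h) {m₀ : ℕ} (hF : Free c Q A g c₀ m₀)
    {a b : c.W} (ha : a ∈ c.QN Q g c₀) (hab : c.D.Adj a b) {t : S}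
    (ht : A.Adj (g (c.armv a b m₀ 0)) t) : h t = c.ray (m₀ - 1) 1 ∨ h t = c.ray m₀ 1 := by
  have hd3 := c.d_ge
  have hE := E_ge hSt hF ha hab
  obtain ⟨m, rfl⟩ : ∃ m, m₀ = m + 1 := ⟨m₀ - 1, by have := hF.one; omega⟩
  have hr := c.r_pos b m
  have hr' := c.r_pos b (m + 1)
  have hm : m < c.E b := by omega
  have h1 := P_adj hSt ha hab hm (show 2 * c.r b m - 1 < 2 * c.r b m by omega)
  rw [show 2 * c.r b m - 1 + 1 = 2 * c.r b m by omega, armv_end hm] at h1
  have h2 := P_adj hSt ha hab (show m + 1 < c.E b by omega) (show 0 < 2 * c.r b (m + 1) by omega)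
  have h3 : h (g (c.armv a b m (2 * c.r b m - 1))) = c.ray m 1 := by
    rw [hSt.lab _ (valid_armv ha.1 hab hm (by omega)), labE_armv_last (hSt.cen a ha.1) hm]
  have h4 : h (g (c.armv a b (m + 1) (0 + 1))) = c.ray (m + 1) 1 := by
    rw [hSt.lab _ (valid_armv ha.1 hab (by omega) (by omega))]
    exact labE_armv_one (hSt.cen a ha.1) (by omega)
  have hne : g (c.armv a b m (2 * c.r b m - 1)) ≠ g (c.armv a b (m + 1) (0 + 1)) := by
    intro he
    have h5 := congrArg h he
    rw [h3, h4, c.ray_one_iff] at h5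
    exact not_mod (by omega) (by omega) h5
  rw [Nat.add_sub_cancel]
  rcases nbr_two (hF.joint a b ha hab) h1.symm h2 hne ht with h5 | h5
  · left
    rw [h5, h3]
  · right
    rw [h5, h4]

private theorem next_nbr (hSt : c.St Q A g h) {m₀ : ℕ} (hF : Free c Q A g c₀ m₀)
    {a b : c.W} (ha : a ∈ c.QN Q g c₀) (hab : c.D.Adj a b) :
    ∃ u, A.Adj (g (c.armv a b m₀ (2 * c.r b m₀))) u ∧ h u = c.ray (m₀ + 1) 1 := by
  have hE := E_ge hSt hF ha hab
  have hr' := c.r_pos b (m₀ + 1)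
  have h2 := P_adj hSt ha hab hE (show 0 < 2 * c.r b (m₀ + 1) by omega)
  refine ⟨g (c.armv a b (m₀ + 1) (0 + 1)), ?_, ?_⟩
  · rw [armv_end (by omega)]
    exact h2
  · rw [hSt.lab _ (valid_armv ha.1 hab (by omega) (by omega))]
    exact labE_armv_one (hSt.cen a ha.1) (by omega)

private theorem dir_ne {m₀ : ℕ} (h1 : 1 ≤ m₀) {y : c.M.V} (hy : y = c.ray (m₀ + 1) 1) :
    ¬ (y = c.ray (m₀ - 1) 1 ∨ y = c.ray m₀ 1) := by
  have hd3 := c.d_ge
  rintro (h2 | h2)
  · rw [hy, c.ray_one_iff] at h2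
    exact not_mod (by omega) (by omega) h2.symm
  · rw [hy, c.ray_one_iff] at h2
    exact not_mod (by omega) (by omega) h2.symm

theorem not_back [Finite S] (hSt : c.St Q A g h) {m₀ : ℕ} (hF : Free c Q A g c₀ m₀)
    {a b a' b' : c.W} (ha : a ∈ c.QN Q g c₀) (hab : c.D.Adj a b) (ha' : a' ∈ c.QN Q g c₀)
    (hab' : c.D.Adj a' b') :
    g (c.armv a b m₀ (2 * c.r b m₀)) ≠ g (c.armv a' b' m₀ 0) := by
  intro he
  obtain ⟨u, hu, hl⟩ := next_nbr hSt hF ha hab
  rw [he] at hu
  exact dir_ne hF.one hl (joint_dir hSt hF ha' hab' hu)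

theorem gate_top [Finite S] (hSt : c.St Q A g h) {m₀ : ℕ} (hF : Free c Q A g c₀ m₀)
    {a b : c.W} (ha : a ∈ c.QN Q g c₀) (hab : c.D.Adj a b) :
    g (c.armv a b m₀ (c.r b m₀ - 1)) ≠ g (c.armv a b m₀ (c.r b m₀ + 1)) := by
  intro he
  have hE := E_ge hSt hF ha hab
  have hrL := r_lt hSt hF ha hab
  have hr := c.r_pos b m₀
  have hm : m₀ < c.E b := by omega
  have key : ∀ i, 1 ≤ i → i ≤ c.r b m₀ →
      g (c.armv a b m₀ (c.r b m₀ - i)) = g (c.armv a b m₀ (c.r b m₀ + i)) := by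
    intro i hi
    induction i, hi using Nat.le_induction with
    | base => exact fun _ => he
    | succ i hi ih =>
      intro hir
      have h0 := ih (by omega)
      have h1 := P_adj hSt ha hab hm (show c.r b m₀ - i < 2 * c.r b m₀ by omega)
      have h2 := P_adj hSt ha hab hm (show c.r b m₀ - (i + 1) < 2 * c.r b m₀ by omega)
      rw [show c.r b m₀ - (i + 1) + 1 = c.r b m₀ - i by omega] at h2
      have h3 := P_adj hSt ha hab hm (show c.r b m₀ + i < 2 * c.r b m₀ by omega)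
      rw [← h0] at h3
      have l1 := P_lab hSt ha hab hm (show c.r b m₀ - i + 1 ≤ 2 * c.r b m₀ by omega)
      have l2 := P_lab hSt ha hab hm (show c.r b m₀ - (i + 1) ≤ 2 * c.r b m₀ by omega)
      have l3 := P_lab hSt ha hab hm (show c.r b m₀ + i + 1 ≤ 2 * c.r b m₀ by omega)
      have hne : g (c.armv a b m₀ (c.r b m₀ - i + 1)) ≠
          g (c.armv a b m₀ (c.r b m₀ - (i + 1))) := by
        intro h5
        rw [h5, l2] at l1
        have := ray_ht (by omega) (by omega) l1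
        omega
      rcases nbr_two (hF.arm a b _ ha hab (by omega) (by omega)) h1 h2.symm hne h3 with h5 | h5
      · rw [h5, l1] at l3
        have := ray_ht (by omega) (by omega) l3
        omega
      · rw [← h5, add_assoc]
  have h1 := key (c.r b m₀) hr le_rfl
  rw [Nat.sub_self, ← Nat.two_mul] at h1
  exact not_back hSt hF ha hab ha hab h1.symm

private theorem gate_aux [Finite S] (hSt : c.St Q A g h) {m₀ : ℕ} (hF : Free c Q A g c₀ m₀)
    {a b a' b' : c.W} (ha : a ∈ c.QN Q g c₀) (hab : c.D.Adj a b) (ha' : a' ∈ c.QN Q g c₀)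
    (hab' : c.D.Adj a' b')
    (h1 : g (c.armv a b m₀ 1) = g (c.armv a' b' m₀ 1)) (hlt : c.r b m₀ < c.r b' m₀) : False := by
  have hE := E_ge hSt hF ha hab
  have hE' := E_ge hSt hF ha' hab'
  have hrL := r_lt hSt hF ha hab
  have hrL' := r_lt hSt hF ha' hab'
  have hr := c.r_pos b m₀
  have hm : m₀ < c.E b := by omega
  have hm' : m₀ < c.E b' := by omega
  have key : ∀ j, 1 ≤ j → j ≤ c.r b m₀ → g (c.armv a b m₀ j) = g (c.armv a' b' m₀ j) := by
    intro j hj
    induction j, hj using Nat.le_induction with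
    | base => exact fun _ => h1
    | succ j hj ih =>
      intro hjr
      have e0 := ih (by omega)
      have a1 := P_adj hSt ha hab hm (show j - 1 < 2 * c.r b m₀ by omega)
      rw [show j - 1 + 1 = j by omega] at a1
      have a2 := P_adj hSt ha hab hm (show j < 2 * c.r b m₀ by omega)
      have a3 := P_adj hSt ha' hab' hm' (show j < 2 * c.r b' m₀ by omega)
      rw [← e0] at a3
      have l1 := P_lab hSt ha hab hm (show j - 1 ≤ 2 * c.r b m₀ by omega)
      have l2 := P_lab hSt ha hab hm (show j + 1 ≤ 2 * c.r b m₀ by omega)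
      have l3 := P_lab hSt ha' hab' hm' (show j + 1 ≤ 2 * c.r b' m₀ by omega)
      have hne : g (c.armv a b m₀ (j - 1)) ≠ g (c.armv a b m₀ (j + 1)) := by
        intro h5
        rw [h5, l2] at l1
        have := ray_ht (by omega) (by omega) l1
        omega
      rcases nbr_two (hF.arm a b _ ha hab (by omega) (by omega)) a1.symm a2 hne a3 with h5 | h5
      · rw [h5, l1] at l3
        have := ray_ht (by omega) (by omega) l3
        omega
      · exact h5.symm
  have e0 := key (c.r b m₀) hr le_rfl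
  have a1 := P_adj hSt ha hab hm (show c.r b m₀ - 1 < 2 * c.r b m₀ by omega)
  rw [show c.r b m₀ - 1 + 1 = c.r b m₀ by omega] at a1
  have a2 := P_adj hSt ha hab hm (show c.r b m₀ < 2 * c.r b m₀ by omega)
  have a3 := P_adj hSt ha' hab' hm' (show c.r b m₀ < 2 * c.r b' m₀ by omega)
  rw [← e0] at a3
  have l1 := P_lab hSt ha hab hm (show c.r b m₀ - 1 ≤ 2 * c.r b m₀ by omega)
  have l2 := P_lab hSt ha hab hm (show c.r b m₀ + 1 ≤ 2 * c.r b m₀ by omega)
  have l3 := P_lab hSt ha' hab' hm' (show c.r b m₀ + 1 ≤ 2 * c.r b' m₀ by omega)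
  rcases nbr_two (hF.arm a b _ ha hab (by omega) (by omega)) a1.symm a2
    (gate_top hSt hF ha hab) a3 with h5 | h5
  · rw [h5, l1] at l3
    have := ray_ht (by omega) (by omega) l3
    omega
  · rw [h5, l2] at l3
    have := ray_ht (by omega) (by omega) l3
    omega

theorem gate_unique [Finite S] (hSt : c.St Q A g h) {m₀ : ℕ} (hF : Free c Q A g c₀ m₀)
    {a b a' b' : c.W} (ha : a ∈ c.QN Q g c₀) (hab : c.D.Adj a b) (ha' : a' ∈ c.QN Q g c₀)
    (hab' : c.D.Adj a' b') (h0 : g (c.armv a b m₀ 0) = g (c.armv a' b' m₀ 0))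
    (h1 : g (c.armv a b m₀ 1) = g (c.armv a' b' m₀ 1)) : c.E b = c.E b' := by
  by_contra hne
  have h2 := E_spec hab (hSt.cen a ha.1)
  have h2' := E_spec hab' (hSt.cen a' ha'.1)
  have h3 : c.r b m₀ ≠ c.r b' m₀ :=
    c.code_ne (E_ge hSt hF ha hab) (E_ge hSt hF ha' hab') h2.2.1 h2'.2.1 hne
  rcases Nat.lt_or_gt_of_ne h3 with h4 | h4
  · exact gate_aux hSt hF ha hab ha' hab' h1 h4
  · exact gate_aux hSt hF ha' hab' ha hab h1.symm h4

end Pool.Agent.DB.A.Ctx
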