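import Pool.Agent.DB.A.Conn

/-!
# Project DB, part A, module DB-A-Pot: potentials on trees (Mathlib + Conn only)

PLAN. `exists_pot`: fix a root `r`; for every `s` let `P s` be the unique path from `r` to `s`
(`SimpleGraph.IsTree.existsUnique_path`) and `κ s` the sum of `c` along the darts of `P s`
(define by recursion on walks, e.g. `wsum : A.Walk u v → ℤ`, `wsum nil = 0`,
`wsum (cons h p) = c u v + wsum p`, additive under `append`/`concat`). For adjacent `s, t`: if `t` is
not in the support of `P s` then `(P s).concat h` is a path from `r` to `t`, hence `P t`, and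
`κ t = κ s + c s t`. Otherwise `s` is not in the support of `P t` (see
`SimpleGraph.IsAcyclic.ne_mem_support_of_support_of_adj_of_isPath`) and symmetrically
`κ s = κ t + c t s = κ t - c s t`.
`pot_factor`: with `κ` from `exists_pot`, `ι p' - ι p = κ (g p') - κ (g p)` for `R p p'`, hence for
`EqvGen R p p'`; choose `p₀` with `V p₀` and put `I s = κ s + (ι p₀ - κ (g p₀))`.
-/

namespace Pool.Agent.DB.A

theorem exists_pot {S : Type} {A : SimpleGraph S} (hA : A.IsTree) (c : S → S → ℤ)
    (hc : ∀ s t, A.Adj s t → c s t = - c t s) :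
    ∃ κ : S → ℤ, ∀ s t, A.Adj s t → κ t - κ s = c s t := by
  classical
  obtain ⟨r⟩ := hA.isConnected.nonempty
  choose P hP _ using fun s => hA.existsUnique_path r s
  have hcat : ∀ {s t : S} (h : A.Adj s t), P t = (P s).concat h →
      ((P t).darts.map fun d => c d.fst d.snd).sum =
        ((P s).darts.map fun d => c d.fst d.snd).sum + c s t := by
    intro s t h e
    rw [e, SimpleGraph.Walk.darts_concat, List.concat_eq_append, List.map_append,
      List.sum_append]
    simp
  refine ⟨fun s => ((P s).darts.map fun d => c d.fst d.snd).sum, fun s t h => ?_⟩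
  by_cases hs : s ∈ (P t).support
  · have h1 := hcat h (hA.isAcyclic.path_concat (hP s) (hP t) h hs)
    beta_reduce
    rw [h1]
    ring
  · have h2 : ((P t).concat h.symm).IsPath := (hP t).concat hs h.symm
    have h3 : P s = (P t).concat h.symm := (hA.existsUnique_path r s).unique (hP s) h2
    have h1 := hcat h.symm h3
    beta_reduce
    rw [h1, hc s t h]
    ring

/-- a function on `P` whose increments along the relation `R` are given by a function on the
(directed) edges of a tree factors through the tree -/
theorem pot_factor {P S : Type} (R : P → P → Prop) {A : SimpleGraph S} (hA : A.IsTree)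
    (g : P → S) (c : S → S → ℤ) (hc : ∀ s t, A.Adj s t → c s t = - c t s) (ι : P → ℤ)
    (V : P → Prop) (hne : ∃ p, V p) (hV : ∀ p p', V p → V p' → Relation.EqvGen R p p')
    (hR : ∀ p p', R p p' → A.Adj (g p) (g p') ∧ ι p' - ι p = c (g p) (g p')) :
    ∃ I : S → ℤ, ∀ p, V p → I (g p) = ι p := by
  obtain ⟨κ, hκ⟩ := exists_pot hA c hc
  obtain ⟨p₀, hp₀⟩ := hne
  have hinv : ∀ p p', Relation.EqvGen R p p' → ι p - κ (g p) = ι p' - κ (g p') := by
    intro p p' h
    induction h with
    | rel x y h =>
      obtain ⟨h1, h2⟩ := hR x y h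
      have h3 := hκ _ _ h1
      linarith
    | refl x => rfl
    | symm x y _ ih => exact ih.symm
    | trans x y z _ _ ih1 ih2 => exact ih1.trans ih2
  refine ⟨fun s => κ s + (ι p₀ - κ (g p₀)), fun p hp => ?_⟩
  have h1 := hinv p₀ p (hV p₀ p hp₀ hp)
  show κ (g p) + (ι p₀ - κ (g p₀)) = ι p
  rw [h1]
  ring

end Pool.Agent.DB.A
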