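import Pool.Agent.DB.A.Out
import Pool.Agent.DB.A.Pot

/-!
# Project DB, part A, module DB-A-Index: the index of an excursion can be read off from the image

PLAN. For every joint `v` (`v ∈ N`, `h v = x`) choose the missing direction `w v < d` (`hmiss`) and put
`lam v m = (m + (d - 1 - w v)) % d`. If `m ≢ w v` mod `d` then `lam v m ≤ d - 2` and
`lam v (m + 1) = lam v m + 1`. `lam v` depends only on the residue of `m`. For a neighbour `u` of a joint
`v`: `h u = ray m 1`, `m ≢ w v`; let `dirn u` be a natural number with `h u = ray (dirn u) 1` if it exists.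
`cf s t = lam s (dirn t)` if `s` is a joint, `- lam t (dirn s)` if `s` is not but `t` is, `0` otherwise
(adjacent vertices are not both joints: labels), integers.
`ι (old a) = - lam (g (old a)) 0` for `a ∈ QN`, `ι (new a b m j) = m` for `a ∈ QN`, `j < 2r`,
`ι (new a b m (2r)) = m + 1 - lam (g ·) (m + 1)`, and `ι p = out p` outside `B`. So on arms of `QN`:
`ι (armv a b m j) = m` for `1 ≤ j < 2r` and `ι (armv a b m 0) = m - lam (g (armv a b m 0)) m`.
Check `ι p' - ι p = cf (g p) (g p')` for all steps (`step_B`): steps in `B` are arm steps with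
`a ∈ QN`: `j = 0`: `lam v m`; interior: `0` (labels are not `x`: `labE_armv_ne`); last one
(`j + 1 = 2r`): `m + 1 - lam v (m+1) - m = - lam v m` because the neighbour
`g (armv a b m (2r-1))` of the joint `v` has the direction `m`, so `m ≢ w v`. Exit step:
`out (old b) - (E - lam v E) = lam v E` with `out (old b) = E` and `lab b = ray E 1`. Steps outside `B`:
`out` is constant and neither end is a joint of `N` (`joint_B`), so `cf = 0`.
Then `pot_factor` (with `conn_exp`) gives `I`. For the last claim: `I (g (armv a b m 0)) = m - lam v m`,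
`0 ≤ lam v m ≤ d - 2` because `v` has a neighbour in direction `m`: `g (armv a b m 1)` if `m < E`, and
`g (old b)` if `m = E`.
-/

namespace Pool.Agent.DB.A.Ctx

open Set

variable {c : Ctx} {Q : Set c.W} {S : Type} {A : SimpleGraph S} {g : EV c.W → S}
  {h : A →g c.M.G} {c₀ : c.W}

/-- index function -/
structure IdxFn (c : Ctx) (Q : Set c.W) {S : Type} (g : EV c.W → S) (c₀ : c.W)
    (out : EV c.W → ℕ) (I : S → ℤ) : Prop where
  arm : ∀ a b m j, a ∈ c.QN Q g c₀ → c.D.Adj a b → m < c.E b → 1 ≤ j → j < 2 * c.r b m →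
    I (g (c.armv a b m j)) = m
  out : ∀ p, c.Valid Q p → p ∉ c.B Q g c₀ → I (g p) = out p
  joint : ∀ a b m, a ∈ c.QN Q g c₀ → c.D.Adj a b → m ≤ c.E b →
    I (g (c.armv a b m 0)) ≤ m ∧ (m : ℤ) + 2 ≤ I (g (c.armv a b m 0)) + c.d

private theorem lam_congr {d m m' w : ℕ} (h : m ≡ m' [MOD d]) :
    (m + (d - 1 - w)) % d = (m' + (d - 1 - w)) % d :=
  Nat.ModEq.add_right _ h

private theorem lam_le {d m w : ℕ} (hd : 3 ≤ d) (hw : w < d) (h : ¬ m ≡ w [MOD d]) :
    (m + (d - 1 - w)) % d + 2 ≤ d ∧ (m + 1 + (d - 1 - w)) % d = (m + (d - 1 - w)) % d + 1 := by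
  have h1 := Nat.mod_lt (m + (d - 1 - w)) (show 0 < d by omega)
  have h2 : (m + (d - 1 - w)) % d ≠ d - 1 := by
    intro h3
    apply h
    have h4 : (m + (d - 1 - w)) ≡ (w + (d - 1 - w)) [MOD d] := by
      unfold Nat.ModEq
      rw [h3, show w + (d - 1 - w) = d - 1 by omega, Nat.mod_eq_of_lt (by omega)]
    exact Nat.ModEq.add_right_cancel' _ h4
  refine ⟨by omega, ?_⟩
  have h3 : m + 1 + (d - 1 - w) = (m + (d - 1 - w)) + 1 := by omega
  rw [h3, Nat.add_mod, Nat.mod_eq_of_lt (show 1 < d by omega), Nat.mod_eq_of_lt (by omega)]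

theorem exists_index (hSt : c.St Q A g h) (hc₀ : c₀ ∈ Q)
    (hmiss : ∀ v ∈ c.N Q g c₀, h v = c.x → ∃ w, w < c.d ∧ ∀ u, A.Adj v u → h u ≠ c.ray w 1)
    {out : EV c.W → ℕ} (ho : OutFn c Q g c₀ out) : ∃ I : S → ℤ, IdxFn c Q g c₀ out I := by
  classical
  choose! w hw hmw using hmiss
  have hd3 := c.d_ge
  -- the lift
  let lam : S → ℕ → ℕ := fun v m => (m + (c.d - 1 - w v)) % c.d
  have hlam : ∀ v ∈ c.N Q g c₀, h v = c.x → ∀ m u, A.Adj v u → h u = c.ray m 1 →
      lam v m + 2 ≤ c.d ∧ lam v (m + 1) = lam v m + 1 := by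
    intro v hv hvx m u hvu hu
    refine lam_le hd3 (hw v hv hvx) fun hmod => ?_
    refine hmw v hv hvx u hvu ?_
    rw [hu]
    exact (c.ray_one_iff _ _).2 hmod
  -- direction of a vertex next to x
  let dirn : c.M.V → ℕ := fun y => if hy : ∃ m, y = c.ray m 1 then hy.choose else 0
  have hdirn : ∀ m, dirn (c.ray m 1) ≡ m [MOD c.d] := by
    intro m
    have hy : ∃ m', c.ray m 1 = c.ray m' 1 := ⟨m, rfl⟩
    have h1 : dirn (c.ray m 1) = hy.choose := dif_pos hy
    rw [h1]
    exact ((c.ray_one_iff _ _).1 hy.choose_spec).symm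
  have hlamd : ∀ v m, lam v (dirn (c.ray m 1)) = lam v m := fun v m => lam_congr (hdirn m)
  let J : S → Prop := fun v => v ∈ c.N Q g c₀ ∧ h v = c.x
  let cf : S → S → ℤ := fun s t =>
    if J s then (lam s (dirn (h t)) : ℤ) else if J t then -(lam t (dirn (h s)) : ℤ) else 0
  have hJJ : ∀ s t, A.Adj s t → J s → J t → False := by
    intro s t hst hs ht
    have h1 := h.map_rel hst
    rw [hs.2, ht.2] at h1
    exact h1.ne rfl
  have hcf : ∀ s t, A.Adj s t → cf s t = - cf t s := by
    intro s t hst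
    simp only [cf]
    by_cases hs : J s
    · have ht : ¬ J t := fun ht => hJJ s t hst hs ht
      rw [if_pos hs, if_neg ht, if_pos hs, neg_neg]
    · by_cases ht : J t
      · rw [if_neg hs, if_pos ht, if_pos ht]
      · rw [if_neg hs, if_neg ht, if_neg ht, if_neg hs, neg_zero]
  let ι : EV c.W → ℤ := fun p =>
    if p ∈ c.B Q g c₀ then
      match p with
      | .old a => -(lam (g (.old a)) 0 : ℤ)
      | .new a b m j =>
        if j = 2 * c.r b m then (m : ℤ) + 1 - lam (g (.new a b m j)) (m + 1) else m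
    else out p
  have hι0 : ∀ a b m, a ∈ c.QN Q g c₀ → c.D.Adj a b → m ≤ c.E b →
      ι (c.armv a b m 0) = m - lam (g (c.armv a b m 0)) m := by
    intro a b m ha hab hm
    have hB := B_joint ha hab hm
    simp only [ι]
    rw [if_pos hB]
    cases m with
    | zero =>
      rw [armv_zero_zero]
      simp
    | succ m =>
      rw [armv_succ_zero]
      simp
  have hι1 : ∀ a b m j, a ∈ c.QN Q g c₀ → c.D.Adj a b → m < c.E b → 1 ≤ j → j < 2 * c.r b m →
      ι (c.armv a b m j) = m := by
    intro a b m j ha hab hm hj hj'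
    have hB := B_armv (j := j) ha hab hm hj'.le
    simp only [ι]
    rw [if_pos hB, armv_pos hm hj]
    simp only
    rw [if_neg hj'.ne]
  have hι2 : ∀ p, p ∉ c.B Q g c₀ → ι p = out p := by
    intro p hp
    simp only [ι]
    rw [if_neg hp]
  have hlab0 : ∀ a b m, a ∈ c.QN Q g c₀ → c.D.Adj a b → m ≤ c.E b →
      J (g (c.armv a b m 0)) := by
    intro a b m ha hab hm
    refine ⟨joint_N ha hab hm, ?_⟩
    rw [hSt.lab _ (valid_armv_zero ha.1 hab hm)]
    exact labE_armv_zero (hSt.cen a ha.1) b m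
  have hlab1 : ∀ a b m j, a ∈ c.QN Q g c₀ → c.D.Adj a b → m < c.E b → 1 ≤ j →
      j < 2 * c.r b m → ¬ J (g (c.armv a b m j)) := by
    intro a b m j ha hab hm hj hj' hJ
    have h1 := hJ.2
    rw [hSt.lab _ (valid_armv ha.1 hab hm hj'.le)] at h1
    exact labE_armv_ne hab (hSt.cen a ha.1) hm hj hj' h1
  have hstep : ∀ p p', c.Step Q p p' → A.Adj (g p) (g p') ∧ ι p' - ι p = cf (g p) (g p') := by
    intro p p' hs
    have hadj := hSt.step p p' hs
    refine ⟨hadj, ?_⟩
    have hval := step_valid hs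
    rcases step_B (c₀ := c₀) hSt hs with ⟨hB, hB'⟩ | ⟨hB, hB'⟩ | ⟨hB, hB', a, b, ha, hab, rfl, rfl⟩
    · cases hs with
      | main w w' hw h1 h2 => exact absurd hB.1 h1
      | exit a b ha hab => exact absurd hB' (exit_not_B hSt ha hab)
      | arm a b m j haQ hab hm hj =>
        have ha : a ∈ c.QN Q g c₀ := by
          by_contra ha
          exact not_B_armv ha hm hB
        have hr := c.r_pos b m
        rcases Nat.eq_zero_or_pos j with rfl | hj0
        · have hJ := hlab0 a b m ha hab hm.le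
          rw [zero_add] at hadj ⊢
          rw [hι1 a b m 1 ha hab hm le_rfl (by omega), hι0 a b m ha hab hm.le]
          simp only [cf]
          rw [if_pos hJ, hSt.lab _ (valid_armv (j := 1) ha.1 hab hm (by omega)),
            labE_armv_one (hSt.cen a ha.1) hm, hlamd]
          ring
        · rcases Nat.lt_or_ge (j + 1) (2 * c.r b m) with hj1 | hj1
          · rw [hι1 a b m j ha hab hm hj0 hj, hι1 a b m (j + 1) ha hab hm (by omega) hj1]
            simp only [cf]
            rw [if_neg (hlab1 a b m j ha hab hm hj0 hj),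
              if_neg (hlab1 a b m (j + 1) ha hab hm (by omega) hj1)]
            ring
          · have hj2 : j + 1 = 2 * c.r b m := by omega
            have hj3 : j = 2 * c.r b m - 1 := by omega
            rw [hj2, armv_end hm] at hadj ⊢
            have hJ := hlab0 a b (m + 1) ha hab hm
            have hlj : h (g (c.armv a b m j)) = c.ray m 1 := by
              rw [hSt.lab _ (valid_armv ha.1 hab hm hj.le), hj3]
              exact labE_armv_last (hSt.cen a ha.1) hm
            rw [hι1 a b m j ha hab hm hj0 hj, hι0 a b (m + 1) ha hab hm]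
            simp only [cf]
            rw [if_neg (hlab1 a b m j ha hab hm hj0 hj), if_pos hJ, hlj, hlamd]
            have h1 := (hlam _ hJ.1 hJ.2 m _ hadj.symm hlj).2
            rw [h1]
            push_cast
            ring
    · have hn : ∀ q, c.Valid Q q → q ∉ c.B Q g c₀ → ¬ J (g q) := by
        intro q hq hqB hJ
        refine hqB (joint_B hSt hc₀ hq hJ.1 ?_)
        rw [← hSt.lab q hq]
        exact hJ.2
      rw [hι2 p hB, hι2 p' hB', ho.step p p' hs hB hB']
      simp only [cf]
      rw [if_neg (hn p hval.1 hB), if_neg (hn p' hval.2 hB'), sub_self]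
    · have hJ := hlab0 a b (c.E b) ha hab le_rfl
      have hE := E_spec hab (hSt.cen a ha.1)
      rw [hι2 _ hB', ho.exit a b ha hab, hι0 a b (c.E b) ha hab le_rfl]
      simp only [cf]
      have h1 : h (g (.old b)) = c.ray (c.E b) 1 := by
        rw [hSt.lab _ hval.2]
        exact hE.2.2
      rw [if_pos hJ, h1, hlamd]
      ring
  obtain ⟨I, hI⟩ := pot_factor (c.Step Q) hSt.tree g cf hcf ι (c.Valid Q) ⟨.old c₀, trivial⟩
    (fun p p' hp hp' => conn_exp hSt.cen hp hp') hstep
  refine ⟨I, ?_, ?_, ?_⟩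
  · intro a b m j ha hab hm hj hj'
    rw [hI _ (valid_armv ha.1 hab hm hj'.le), hι1 a b m j ha hab hm hj hj']
  · intro p hp hpB
    rw [hI p hp, hι2 p hpB]
  · intro a b m ha hab hm
    have hJ := hlab0 a b m ha hab hm
    rw [hI _ (valid_armv_zero ha.1 hab hm), hι0 a b m ha hab hm]
    have hnb : ∃ u, A.Adj (g (c.armv a b m 0)) u ∧ h u = c.ray m 1 := by
      rcases Nat.lt_or_ge m (c.E b) with hmE | hmE
      · have hr := c.r_pos b m
        refine ⟨g (c.armv a b m 1), hSt.step _ _ (Step.arm a b m 0 ha.1 hab hmE (by omega)), ?_⟩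
        rw [hSt.lab _ (valid_armv (j := 1) ha.1 hab hmE (by omega)),
          labE_armv_one (hSt.cen a ha.1) hmE]
      · have hme : m = c.E b := by omega
        subst hme
        refine ⟨g (.old b), hSt.step _ _ (Step.exit a b ha.1 hab), ?_⟩
        rw [hSt.lab (.old b) trivial]
        exact (E_spec hab (hSt.cen a ha.1)).2.2
    obtain ⟨u, hu, hum⟩ := hnb
    have h1 := (hlam _ hJ.1 hJ.2 m u hu hum).1
    have h2 : ((lam (g (c.armv a b m 0)) m : ℕ) : ℤ) + 2 ≤ c.d := by exact_mod_cast h1
    have h3 : (0 : ℤ) ≤ lam (g (c.armv a b m 0)) m := by positivity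
    constructor <;> linarith

end Pool.Agent.DB.A.Ctx
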