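import Pool.Agent.DB.A.Armv
import Pool.Agent.DB.G.Pl

/-!
# Project DB, part A, module DB-A-Pts: points of the expansion in `|G|`

`P` gives points of `|G|` for the vertices of `D` such that a map `F` sends the segment
`[P w, P w']` of every edge linearly onto `[lab w, lab w']`. `PE` extends `P` to the full expansion
(`Q` = all vertices with label `x`): point `(m, j)` of the arm from `a` to `b` at the parameter
`(m + j / (2r)) / (E + 1)` of the segment `[P a, P b]`. Then `f x ∘ F` is linear on all edges of the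
expansion.

PLAN. Main edges (`lab w, lab w' ≠ x`): `f x` is the identity at points `p` with `p x = 0`.
Arm edges: `PE (armv a b m j) = (1 - τ) P a + τ P b`, `τ = (m + j/(2r)) / (E + 1)` for all `m < E`,
`j ≤ 2r` (`armv` normal form: `(0,0)`: `τ = 0`; `(m+1, 0)` is `new a b m (2r)`: `τ = (m + 1)/(E+1)`).
The segment between the points `j` and `j+1` at time `s` is the point with
`τ = (m + (j + s)/(2r)) / (E + 1) = u / (E + 1)`, `u = m + (j+s)/(2r) ∈ [m, m+1]`, `τ < 1`; `F` maps it to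
`(1 - τ) ev x + τ ev (ray E 1)` (`hF` with `s := τ`), and `f_first`, `armPt_exc` (`G/Pl.lean`) give
`pl (ray m) L (r * max 0 (1 - |2 (u - m) - 1|))`, `2 (u - m) = (j + s)/r`. If `j < r` the height is
`j + s`, `pl_eq` (`n = j < L`) gives `(1-s) ev (ray m j) + s ev (ray m (j+1))`; if `j ≥ r` the height is
`2r - j - s = (2r - j - 1) + (1 - s)`, `pl_eq` with `n = 2r - j - 1 < r ≤ L`. Compare with `labE_armv`.
Exit edge from `armv a b E 0` (`τ = E/(E+1)`) to `old b` (`τ = 1`): the point at time `s` has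
`τ = (E + s)/(E + 1)`; for `s < 1`: `f_first`, `armPt_exit`, `pl_eq` with `n = 0`; for `s = 1`: `F` gives
`ev (ray E 1) = ev (lab b)` and `f x` fixes it.
Membership in `real G`: the points are on segments `[P a, P b]` (`hreal`, convex combination of two
parameters).
-/
namespace Pool.Agent.DB.A.Ctx

open Set

variable (c : Ctx)

/-- points of the expansion -/
noncomputable def PE (P : c.W → c.M.V → ℝ) : EV c.W → c.M.V → ℝ
  | .old w => P w
  | .new a b m j =>
      (1 - ((m : ℝ) + (j : ℝ) / (2 * c.r b m)) / ((c.E b : ℝ) + 1)) • P a +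
        (((m : ℝ) + (j : ℝ) / (2 * c.r b m)) / ((c.E b : ℝ) + 1)) • P b

private theorem f_fix {p : c.M.V → ℝ} (h : p c.x = 0) : c.M.f c.x p = p := by
  unfold Model.f
  rw [if_pos h]

private theorem ev_at {v : c.M.V} (h : v ≠ c.x) : (ev v : c.M.V → ℝ) c.x = 0 := by
  unfold ev
  rw [Pi.single_apply, if_neg (Ne.symm h)]

private theorem PE_new (P : c.W → c.M.V → ℝ) (a b : c.W) (m j : ℕ) :
    c.PE P (.new a b m j) =
      (1 - ((m : ℝ) + (j : ℝ) / (2 * c.r b m)) / ((c.E b : ℝ) + 1)) • P a +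
        (((m : ℝ) + (j : ℝ) / (2 * c.r b m)) / ((c.E b : ℝ) + 1)) • P b := rfl

private theorem PE_armv (P : c.W → c.M.V → ℝ) {a b : c.W} {m j : ℕ} (hm : m < c.E b) :
    c.PE P (c.armv a b m j) =
      (1 - ((m : ℝ) + (j : ℝ) / (2 * c.r b m)) / ((c.E b : ℝ) + 1)) • P a +
        (((m : ℝ) + (j : ℝ) / (2 * c.r b m)) / ((c.E b : ℝ) + 1)) • P b := by
  rcases Nat.eq_zero_or_pos j with rfl | hj
  · cases m with
    | zero =>
      rw [armv_zero_zero]
      simp [PE]
    | succ m =>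
      rw [armv_succ_zero]
      have hr : (c.r b m : ℝ) ≠ 0 := by
        have := c.r_pos b m
        positivity
      have h1 : ((m : ℝ) + ((2 * c.r b m : ℕ) : ℝ) / (2 * c.r b m)) =
          ((m + 1 : ℕ) : ℝ) + ((0 : ℕ) : ℝ) / (2 * c.r b (m + 1)) := by
        push_cast
        rw [zero_div, add_zero, div_self (mul_ne_zero two_ne_zero hr)]
      rw [PE_new, h1]
  · rw [armv_pos hm hj]
    rfl

private theorem PE_exit (P : c.W → c.M.V → ℝ) {a b : c.W} (hE : 1 ≤ c.E b) :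
    c.PE P (c.armv a b (c.E b) 0) =
      (1 - (c.E b : ℝ) / ((c.E b : ℝ) + 1)) • P a +
        ((c.E b : ℝ) / ((c.E b : ℝ) + 1)) • P b := by
  obtain ⟨e, he⟩ : ∃ e, c.E b = e + 1 := ⟨c.E b - 1, by omega⟩
  have h0 : c.armv a b (c.E b) 0 = .new a b e (2 * c.r b e) := by
    rw [he, armv_succ_zero]
  have hr : (c.r b e : ℝ) ≠ 0 := by
    have := c.r_pos b e
    positivity
  have h1 : ((e : ℝ) + ((2 * c.r b e : ℕ) : ℝ) / (2 * c.r b e)) = (c.E b : ℝ) := by
    rw [he]
    push_cast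
    rw [div_self (mul_ne_zero two_ne_zero hr)]
  rw [h0, PE_new, h1]

private theorem comb (P Q : c.M.V → ℝ) (s α β : ℝ) :
    (1 - s) • ((1 - α) • P + α • Q) + s • ((1 - β) • P + β • Q) =
      (1 - ((1 - s) * α + s * β)) • P + ((1 - s) * α + s * β) • Q := by
  funext v
  simp only [Pi.add_apply, Pi.smul_apply, smul_eq_mul]
  ring

theorem PE_step (P : c.W → c.M.V → ℝ) (F : (c.M.V → ℝ) → (c.M.V → ℝ))
    (hP : ∀ w w', c.D.Adj w w' → ∀ s : ℝ, 0 ≤ s → s ≤ 1 →
      (1 - s) • P w + s • P w' ∈ real c.M.G ∧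
      F ((1 - s) • P w + s • P w') = (1 - s) • ev (c.lab w) + s • ev (c.lab w'))
    {p p' : EV c.W} (hs : c.Step {w | c.lab w = c.x} p p') (s : ℝ) (h0 : 0 ≤ s) (h1 : s ≤ 1) :
    (1 - s) • c.PE P p + s • c.PE P p' ∈ real c.M.G ∧
      c.M.f c.x (F ((1 - s) • c.PE P p + s • c.PE P p')) =
        (1 - s) • ev (c.labE p) + s • ev (c.labE p') := by
  cases hs with
  | main w w' hw hw1 hw2 =>
    obtain ⟨h2, h3⟩ := hP w w' hw s h0 h1
    refine ⟨h2, ?_⟩
    show c.M.f c.x (F ((1 - s) • P w + s • P w')) = (1 - s) • ev (c.lab w) + s • ev (c.lab w')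
    rw [h3]
    apply f_fix
    rw [Pi.add_apply, Pi.smul_apply, Pi.smul_apply, ev_at c hw1, ev_at c hw2]
    simp
  | arm a b m j ha hab hm hj =>
    have ha' : c.lab a = c.x := ha
    obtain ⟨hE1, hE2, hlab⟩ := E_spec hab ha'
    have hr := c.r_pos b m
    have hrL : c.r b m ≤ c.M.L := r_le hab ha' hm
    have hrR : (0 : ℝ) < c.r b m := by exact_mod_cast hr
    have hER : (0 : ℝ) < (c.E b : ℝ) + 1 := by positivity
    set u : ℝ := (m : ℝ) + ((j : ℝ) + s) / (2 * c.r b m) with hu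
    have hjR : (j : ℝ) + 1 ≤ 2 * c.r b m := by exact_mod_cast hj
    have hj0 : (0 : ℝ) ≤ j := Nat.cast_nonneg j
    have hτ : (1 - s) * (((m : ℝ) + (j : ℝ) / (2 * c.r b m)) / ((c.E b : ℝ) + 1)) +
        s * (((m : ℝ) + ((j + 1 : ℕ) : ℝ) / (2 * c.r b m)) / ((c.E b : ℝ) + 1)) =
        u / ((c.E b : ℝ) + 1) := by
      rw [hu]
      push_cast
      field_simp
      ring
    have hfrac0 : 0 ≤ ((j : ℝ) + s) / (2 * c.r b m) := by positivity
    have hfrac1 : ((j : ℝ) + s) / (2 * c.r b m) ≤ 1 := by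
      rw [div_le_one (by positivity)]
      linarith
    have hu0 : (m : ℝ) ≤ u := by linarith
    have hu1 : u ≤ (m : ℝ) + 1 := by linarith
    have hm0 : (0 : ℝ) ≤ m := Nat.cast_nonneg m
    have hmE : (m : ℝ) + 1 ≤ c.E b := by exact_mod_cast hm
    have hτ0 : 0 ≤ u / ((c.E b : ℝ) + 1) := div_nonneg (by linarith) hER.le
    have hτ1 : u / ((c.E b : ℝ) + 1) < 1 := by
      rw [div_lt_one hER]
      linarith
    rw [PE_armv c P hm, PE_armv c P hm, comb, hτ]
    obtain ⟨h2, h3⟩ := hP a b hab _ hτ0 hτ1.le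
    refine ⟨h2, ?_⟩
    rw [h3, ha', hlab, f_first c.M c.x c.hx (c.E b) hE1 hE2 _ hτ0 hτ1,
      armPt_exc c.M c.x c.hx (c.E b) m hm u hu0 hu1,
      labE_armv ha' hm hj.le, labE_armv ha' hm (by omega : j + 1 ≤ _)]
    have hcode : (c.M.code c.x (c.E b) m : ℝ) = (c.r b m : ℝ) := rfl
    rw [hcode]
    have hdiff : 2 * (u - m) = ((j : ℝ) + s) / c.r b m := by
      rw [hu]
      field_simp
      ring
    rw [hdiff]
    rcases lt_or_ge j (c.r b m) with hjr | hjr
    · have hjr' : (j : ℝ) + 1 ≤ c.r b m := by exact_mod_cast hjr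
      have h4 : ((j : ℝ) + s) / c.r b m ≤ 1 := by
        rw [div_le_one hrR]
        linarith
      have h5 : 0 ≤ ((j : ℝ) + s) / c.r b m := by positivity
      have h6 : (c.r b m : ℝ) * max 0 (1 - |((j : ℝ) + s) / c.r b m - 1|) = (j : ℝ) + s := by
        rw [abs_of_nonpos (by linarith), max_eq_right (by linarith)]
        field_simp
        ring
      rw [h6, pl_eq _ _ j (lt_of_lt_of_le hjr hrL) s h0 h1]
      have e1 : min j (2 * c.r b m - j) = j := by omega
      have e2 : min (j + 1) (2 * c.r b m - (j + 1)) = j + 1 := by omega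
      rw [e1, e2]
    · have hjr' : (c.r b m : ℝ) ≤ j := by exact_mod_cast hjr
      have h4 : 1 ≤ ((j : ℝ) + s) / c.r b m := by
        rw [le_div_iff₀ hrR]
        linarith
      have h5 : ((j : ℝ) + s) / c.r b m ≤ 2 := by
        rw [div_le_iff₀ hrR]
        linarith
      have h7 : ((2 * c.r b m - (j + 1) : ℕ) : ℝ) = 2 * c.r b m - ((j : ℝ) + 1) := by
        rw [Nat.cast_sub (by omega)]
        push_cast
        ring
      have h6 : (c.r b m : ℝ) * max 0 (1 - |((j : ℝ) + s) / c.r b m - 1|) =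
          ((2 * c.r b m - (j + 1) : ℕ) : ℝ) + (1 - s) := by
        rw [abs_of_nonneg (by linarith), max_eq_right (by linarith), h7]
        field_simp
        ring
      rw [h6, pl_eq _ _ (2 * c.r b m - (j + 1)) (by have : c.r b m ≤ c.M.L := hrL; omega) (1 - s)
        (by linarith) (by linarith)]
      have e1 : min j (2 * c.r b m - j) = 2 * c.r b m - (j + 1) + 1 := by omega
      have e2 : min (j + 1) (2 * c.r b m - (j + 1)) = 2 * c.r b m - (j + 1) := by omega
      rw [e1, e2, sub_sub_cancel, add_comm]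
  | exit a b ha hab =>
    have ha' : c.lab a = c.x := ha
    obtain ⟨hE1, hE2, hlab⟩ := E_spec hab ha'
    have hER : (0 : ℝ) < (c.E b : ℝ) + 1 := by positivity
    have hE0 : (0 : ℝ) ≤ c.E b := Nat.cast_nonneg _
    rw [PE_exit c P (by omega : 1 ≤ c.E b), labE_armv_zero ha']
    show (1 - s) • ((1 - (c.E b : ℝ) / ((c.E b : ℝ) + 1)) • P a +
        ((c.E b : ℝ) / ((c.E b : ℝ) + 1)) • P b) + s • P b ∈ real c.M.G ∧
      c.M.f c.x (F ((1 - s) • ((1 - (c.E b : ℝ) / ((c.E b : ℝ) + 1)) • P a +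
        ((c.E b : ℝ) / ((c.E b : ℝ) + 1)) • P b) + s • P b)) =
        (1 - s) • ev c.x + s • ev (c.lab b)
    have hseg : (1 - s) • ((1 - (c.E b : ℝ) / ((c.E b : ℝ) + 1)) • P a +
        ((c.E b : ℝ) / ((c.E b : ℝ) + 1)) • P b) + s • P b =
        (1 - ((c.E b : ℝ) + s) / ((c.E b : ℝ) + 1)) • P a +
          (((c.E b : ℝ) + s) / ((c.E b : ℝ) + 1)) • P b := by
      funext v
      simp only [Pi.add_apply, Pi.smul_apply, smul_eq_mul]
      field_simp
      ring
    rw [hseg]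
    have hτ0 : 0 ≤ ((c.E b : ℝ) + s) / ((c.E b : ℝ) + 1) := div_nonneg (by linarith) hER.le
    have hτ1 : ((c.E b : ℝ) + s) / ((c.E b : ℝ) + 1) ≤ 1 := by
      rw [div_le_one hER]
      linarith
    obtain ⟨h2, h3⟩ := hP a b hab _ hτ0 hτ1
    refine ⟨h2, ?_⟩
    rw [h3]
    rcases h1.lt_or_eq with h4 | h4
    · have hτ2 : ((c.E b : ℝ) + s) / ((c.E b : ℝ) + 1) < 1 := by
        rw [div_lt_one hER]
        linarith
      rw [ha', hlab, f_first c.M c.x c.hx (c.E b) hE1 hE2 _ hτ0 hτ2,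
        armPt_exit c.M c.x c.hx (c.E b) _ (by linarith)]
      have h5 : (c.E b : ℝ) + s - c.E b = ((0 : ℕ) : ℝ) + s := by push_cast; ring
      rw [h5, pl_eq _ _ 0 (lt_trans Nat.zero_lt_one c.L_pos) s h0 h1]
      have h6 : c.M.ray c.x (c.E b) 0 = c.x := c.ray_zero (c.E b)
      rw [h6]
    · have h5 : ((c.E b : ℝ) + s) / ((c.E b : ℝ) + 1) = 1 := by
        rw [h4]
        exact div_self hER.ne'
      rw [h5, h4, sub_self, zero_smul, zero_smul, zero_add, one_smul]
      exact f_fix c (ev_at c (lab_ne hab ha'))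

end Pool.Agent.DB.A.Ctx
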