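import Pool.Agent.DB.A.Peel
import Pool.Agent.DB.A.Pts
import Pool.Agent.DB.A.Base

/-!
# Project DB, part A: the combinatorial theorem `A_main`
-/

namespace Pool.Agent.DB.A

open Set

namespace Ctx

variable (c : Ctx)

/-- all vertices with label `x` -/
abbrev QA : Set c.W := {w | c.lab w = c.x}

/-- vertices of the full expansion -/
abbrev XV : Type := {p : EV c.W // c.Valid c.QA p}

theorem cenQA : c.Cen c.QA := fun _ ha => ha

/-- the full expansion graph -/
def XG : SimpleGraph c.XV where
  Adj p p' := c.Step c.QA p.1 p'.1 ∨ c.Step c.QA p'.1 p.1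
  symm := ⟨fun _ _ h => h.symm⟩
  loopless := ⟨by
    rintro p (h | h)
    · exact (step_adj c.cenQA h).ne rfl
    · exact (step_adj c.cenQA h).ne rfl⟩

/-- labels of the full expansion graph -/
noncomputable def xlab : c.XG →g c.M.G where
  toFun p := c.labE p.1
  map_rel' := by
    rintro p p' (h | h)
    · exact step_adj c.cenQA h
    · exact (step_adj c.cenQA h).symm

theorem finite_XV [Finite c.W] : Finite c.XV := by
  have h1 : {p : EV c.W | c.Valid c.QA p} ⊆ range (EV.old : c.W → EV c.W) ∪
      ⋃ a : c.W, ⋃ b : c.W, ⋃ m ∈ Iio (c.E b), ⋃ j ∈ Iic (2 * c.r b m), {EV.new a b m j} := by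
    rintro p hp
    cases p with
    | old w => exact Or.inl ⟨w, rfl⟩
    | new a b m j =>
        refine Or.inr ?_
        simp only [mem_iUnion]
        exact ⟨a, b, m, hp.2.2.1, j, hp.2.2.2.2, rfl⟩
  have h2 : {p : EV c.W | c.Valid c.QA p}.Finite := by
    refine Set.Finite.subset ?_ h1
    refine (Set.finite_range _).union ?_
    refine Set.finite_iUnion fun a => Set.finite_iUnion fun b => ?_
    refine Set.Finite.biUnion (Set.finite_Iio _) fun m _ => ?_
    exact Set.Finite.biUnion (Set.finite_Iic _) fun j _ => Set.finite_singleton _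
  exact h2.to_subtype

theorem XG_connected : c.XG.Connected := by
  have key : ∀ p p' : EV c.W, Relation.EqvGen (c.Step c.QA) p p' → ∀ (hp : c.Valid c.QA p)
      (hp' : c.Valid c.QA p'), c.XG.Reachable ⟨p, hp⟩ ⟨p', hp'⟩ := by
    intro p p' h
    -- valid vertices are only related to valid vertices
    have hv : ∀ p p' : EV c.W, Relation.EqvGen (c.Step c.QA) p p' →
        (c.Valid c.QA p ↔ c.Valid c.QA p') := by
      intro p p' h
      induction h with
      | rel p p' h => exact ⟨fun _ => (step_valid h).2, fun _ => (step_valid h).1⟩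
      | refl p => exact Iff.rfl
      | symm p p' _ ih => exact ih.symm
      | trans p p' p'' _ _ ih ih' => exact ih.trans ih'
    induction h with
    | rel p p' h =>
        intro hp hp'
        exact SimpleGraph.Adj.reachable (Or.inl h)
    | refl p => intro hp hp'; exact SimpleGraph.Reachable.refl _
    | symm p p' _ ih => intro hp hp'; exact (ih hp' hp).symm
    | trans p p' p'' h1 h2 ih ih' =>
        intro hp hp''
        have hp' := (hv _ _ h1).1 hp
        exact (ih hp hp').trans (ih' hp' hp'')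
  have : Nonempty c.XV := ⟨⟨.old c.conn.nonempty.some, trivial⟩⟩
  exact SimpleGraph.Connected.mk fun p p' => key _ _ (conn_exp c.cenQA p.2 p'.2) p.2 p'.2

/-- rigidity of a graph over the coarse tree -/
def Rigid (M : Model) {W : Type} (H : SimpleGraph W) (lab : H →g M.G) : Prop :=
  ∀ (S : Type) (_ : Fintype S) (A : SimpleGraph S) (g : H →g A) (h : A →g M.G),
    A.IsTree → Function.Surjective g → (∀ w, h (g w) = lab w) →
    M.B.card ≤ bnum A ∧ (∀ x, M.B = {x} → M.d x - 2 ≤ beta A)

theorem rigid_XG [Finite c.W] (hR : Rigid c.M c.D c.lab) : Rigid c.M c.XG c.xlab := by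
  classical
  intro S fS A g h hA hg hgh
  obtain ⟨w₀⟩ := c.conn.nonempty
  let gE : EV c.W → S := fun p => if hp : c.Valid c.QA p then g ⟨p, hp⟩ else g ⟨.old w₀, trivial⟩
  have hgE : ∀ p (hp : c.Valid c.QA p), gE p = g ⟨p, hp⟩ := fun p hp => dif_pos hp
  have hSt : c.St c.QA A gE h := by
    refine ⟨c.cenQA, hA, ?_, ?_, ?_, ?_⟩
    · intro p p' hs
      obtain ⟨hp, hp'⟩ := step_valid hs
      rw [hgE p hp, hgE p' hp']
      exact g.map_rel (Or.inl hs)
    · intro p hp
      rw [hgE p hp, hgh]
      rfl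
    · intro s
      obtain ⟨p, rfl⟩ := hg s
      exact ⟨p.1, p.2, hgE p.1 p.2⟩
    · intro a ha hax
      exact absurd hax ha
  obtain ⟨S', fS', A', g', h', hSt', hb, hbe⟩ := peel (c := c) _ c.QA le_rfl S fS A gE h hSt
  let g'' : c.D →g A' :=
    ⟨fun w => g' (.old w), fun {w w'} hww => hSt'.step _ _ (Step.main w w' hww (by simp) (by simp))⟩
  have hs'' : Function.Surjective g'' := by
    intro s
    obtain ⟨p, hp, rfl⟩ := hSt'.surj s
    cases p with
    | old w => exact ⟨w, rfl⟩
    | new a b m j => exact absurd hp.1 (by simp)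
  have hR' := hR S' fS' A' g'' h' hSt'.tree hs'' (fun w => hSt'.lab (.old w) trivial)
  refine ⟨hR'.1.trans hb, fun x hx => ?_⟩
  have hxx : c.x = x := by
    have := c.hx
    rw [hx] at this
    simpa using this
  have h1 := hR'.2 x hx
  rw [← hxx] at h1 ⊢
  by_contra hlt
  have h2 : beta A < c.d - 2 := by
    show beta A < c.M.d c.x - 2
    omega
  have h3 := hbe h2
  have h4 : beta A < c.M.d c.x - 2 := h2
  omega

end Ctx

open Ctx

theorem A_all (M : Model) : ∀ (l : List M.V), (∀ x ∈ l, x ∈ M.B) →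
    ∃ (W : Type) (_ : Fintype W) (H : SimpleGraph W) (lab : H →g M.G) (P : W → M.V → ℝ),
      H.Connected ∧ Nontrivial W ∧
      (∀ w w', H.Adj w w' → ∀ s : ℝ, 0 ≤ s → s ≤ 1 →
        (1 - s) • P w + s • P w' ∈ real M.G ∧
        M.F l ((1 - s) • P w + s • P w') = (1 - s) • ev (lab w) + s • ev (lab w')) ∧
      Rigid M H lab := by
  intro l
  induction l with
  | nil =>
      intro _
      obtain ⟨x, hx⟩ := M.ne
      have hadj : M.G.Adj (M.ray x 0 0) (M.ray x 0 1) := by
        refine M.ray_adj x hx 0 0 ?_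
        have h1 := M.long x hx
        have h2 := M.three_le x hx
        nlinarith [Nat.zero_le (M.d x ^ 2)]
      refine ⟨M.V, M.fV, M.G, SimpleGraph.Hom.id, ev, M.tree.connected, ⟨_, _, hadj.ne⟩, ?_, ?_⟩
      · intro w w' hww s h0 h1
        exact ⟨⟨w, w', Or.inr hww, s, h0, h1, rfl⟩, rfl⟩
      · intro S fS A g h hA hg hgh
        exact base M A g h hg hgh
  | cons x l ih =>
      intro hl
      obtain ⟨W, fW, H, lab, P, hc, hn, hP, hR⟩ := ih (fun y hy => hl y (List.mem_cons_of_mem x hy))
      let c : Ctx := ⟨M, x, hl x List.mem_cons_self, W, H, lab, hc⟩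
      have : Finite c.W := Finite.of_fintype W
      have := c.finite_XV
      have hstep := fun {p p' : EV c.W} (hs : c.Step c.QA p p') (s : ℝ) (h0 : 0 ≤ s) (h1 : s ≤ 1) =>
        c.PE_step P (M.F l) hP hs s h0 h1
      refine ⟨c.XV, Fintype.ofFinite _, c.XG, c.xlab, fun p => c.PE P p.1, c.XG_connected, ?_, ?_,
        c.rigid_XG hR⟩
      · obtain ⟨w, w', hww⟩ := hn
        refine ⟨⟨.old w, trivial⟩, ⟨.old w', trivial⟩, fun he => hww ?_⟩
        have := congrArg Subtype.val he
        exact EV.old.inj this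
      · rintro p p' hadj s h0 h1
        rcases hadj with hs | hs
        · exact hstep hs s h0 h1
        · have h2 := hstep hs (1 - s) (by linarith) (by linarith)
          rw [show (1 : ℝ) - (1 - s) = s by ring, add_comm (s • _) ((1 - s) • _),
            add_comm (s • _) ((1 - s) • _)] at h2
          exact h2

end Pool.Agent.DB.A

namespace Pool.Agent.DB

/-- combinatorial part: expansion graphs, points, peeling theorem -/
theorem A_main (M : Model) (l : List M.V) (hl : ∀ x ∈ l, x ∈ M.B) :
    ∃ (W : Type) (_ : Fintype W) (H : SimpleGraph W) (lab : H →g M.G) (P : W → M.V → ℝ),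
      H.Connected ∧ Nontrivial W ∧
      (∀ w w', H.Adj w w' → ∀ s : ℝ, 0 ≤ s → s ≤ 1 →
        (1 - s) • P w + s • P w' ∈ real M.G ∧
        M.F l ((1 - s) • P w + s • P w') = (1 - s) • ev (lab w) + s • ev (lab w')) ∧
      ∀ (S : Type) (_ : Fintype S) (A : SimpleGraph S) (g : H →g A) (h : A →g M.G),
        A.IsTree → Function.Surjective g → (∀ w, h (g w) = lab w) →
        M.B.card ≤ bnum A ∧ (∀ x, M.B = {x} → M.d x - 2 ≤ beta A) :=
  A.A_all M l hl

end Pool.Agent.DB
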