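import Pool.Agent.DB.A.Exp

/-!
# Project DB, part A, module DB-A-Mod: facts about the model near the branch vertex `x`

PLAN. Everything follows from the fields of `Model` (`three_le`, `long`, `ray_*`, `nbr`, `ray_int`,
`ray_end`, `tree`); `c.K = c.d ^ 2` by definition.
* `ray_one_iff`: `ray_per` and `ray_inj` (with `j = j' = 1 ≤ L`; `1 ≤ L` from `long`, `three_le`).
* `ex_spec`: `nbr` gives `v = ray m 1`, `m < d`; the numbers `K + 1, ..., K + d` form a complete
  residue system, so some `E` in this range is congruent to `m`; then `Exists.choose_spec`.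
* `ex_ray`: two congruent numbers in `[K + 1, K + d]` are equal.
* `code_*`: unfold `Model.code`; `r(E,m) = m * d + (K + d - E) + d` for `m + 1 ≠ E`; with
  `m + 2 ≤ E ≤ K + d` it is less than `(d ^ 2 + d + 1) * d ≤ L`.
* `ray_step`: if `j < L` use `ray_int` and `ray_inj`; symmetric if `j' < L`; the case
  `j = j' = L` is impossible: by `ray_end` for `m`: either the only neighbour of `ray m L` is
  `ray m (L - 1)` (contradiction to `ray_inj`, `L ≠ L - 1`), or `y = ray m L ∈ B`, and then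
  `u = ray m' L` is a neighbour of `y`, so `u = ray y m'' 1` (`nbr` for `y`), an interior vertex of
  a ray of `y`; by `ray_end` for `m'`: if the only neighbour of `u` is `ray m' (L - 1)` then
  `y = ray m L = ray m' (L - 1)`, contradiction to `ray_inj`; otherwise `u ∈ B`, but then `u` has
  at least three neighbours `ray u k 1`, `k < 3`, (different by `ray_inj`), while `ray_int` for `y`
  allows only two.
* `no_bypass`: let `u = ray m 1`, `u' = ray m' 1`. The walk `u, x, u'` gives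
  `CIn G {u, x, u'} u u'`, so by `CIn.inter` (the graph is acyclic) `CIn G ({u,x,u'} ∩ {v ≠ x}) u u'`;
  if `u ≠ u'` then `CIn.exit` with `B = {u}` gives that `u` and `u'` are adjacent, so
  `CIn G {u, u'} u u'`-type paths `[u, u']` and `[u, x, u']` contradict `path_subset`
  (the path `u, x, u'` is a path and `x` is not in the support of the walk `u, u'`). Hence
  `u = u'` and `ray_one_iff`.
-/

namespace Pool.Agent.DB.A.Ctx

open Set

variable (c : Ctx)

theorem d_ge : 3 ≤ c.d := c.M.three_le c.x c.hx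

theorem K_eq : c.K = c.d ^ 2 := rfl

theorem L_ge : (c.d ^ 2 + c.d + 1) * c.d ≤ c.L := c.M.long c.x c.hx

theorem L_pos : 1 < c.L := by
  have h1 := c.d_ge
  have h2 := c.L_ge
  nlinarith [Nat.zero_le (c.d ^ 2)]

theorem ray_zero (m : ℕ) : c.ray m 0 = c.x := c.M.ray_zero c.x c.hx m

/-- congruent numbers in `[K + 1, K + d]` are equal -/
theorem residue_unique {d K a b : ℕ} (h : a ≡ b [MOD d]) (h1 : K + 1 ≤ a) (h2 : a ≤ K + d)
    (h3 : K + 1 ≤ b) (h4 : b ≤ K + d) : a = b := by
  have h5 : (a : ℤ) ≡ b [ZMOD d] := (Int.natCast_modEq_iff).2 h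
  have h6 := h5.dvd
  have h7 : |(b : ℤ) - a| < d := by
    rw [abs_lt]
    constructor <;> omega
  have h8 := Int.eq_zero_of_abs_lt_dvd h6 h7
  omega

theorem ray_ne (m j : ℕ) (h1 : 1 ≤ j) (h2 : j ≤ c.L) : c.ray m j ≠ c.x := by
  intro h
  have h3 : c.M.ray c.x m j = c.M.ray c.x m 0 := by
    rw [c.M.ray_zero c.x c.hx m]
    exact h
  have := (c.M.ray_inj c.x c.hx m j m 0 h2 (Nat.zero_le _) h3).1
  omega

theorem ray_one_iff (m m' : ℕ) : c.ray m 1 = c.ray m' 1 ↔ m ≡ m' [MOD c.d] := by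
  constructor
  · intro h
    rcases (c.M.ray_inj c.x c.hx m 1 m' 1 c.L_pos.le c.L_pos.le h).2 with h1 | h1
    · omega
    · exact h1
  · intro h
    exact c.M.ray_per c.x c.hx m m' 1 h

theorem adj_ray_one (m : ℕ) : c.M.G.Adj c.x (c.ray m 1) := by
  have h := c.M.ray_adj c.x c.hx m 0 (by have := c.L_pos; show 0 < c.L; omega)
  rw [c.M.ray_zero c.x c.hx m] at h
  exact h

theorem nbr_x {v : c.M.V} (h : c.M.G.Adj c.x v) : ∃ m, m < c.d ∧ v = c.ray m 1 :=
  c.M.nbr c.x c.hx v h

theorem ex_spec {v : c.M.V} (h : c.M.G.Adj c.x v) :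
    c.K + 1 ≤ c.ex v ∧ c.ex v ≤ c.K + c.d ∧ v = c.ray (c.ex v) 1 := by
  classical
  obtain ⟨m, hm, hv⟩ := c.nbr_x h
  have hd := c.d_ge
  have hex : ∃ E, c.K + 1 ≤ E ∧ E ≤ c.K + c.d ∧ v = c.ray E 1 := by
    have hK : c.K = c.d * c.d := by rw [c.K_eq, sq]
    by_cases hm0 : m = 0
    · refine ⟨c.K + c.d, by omega, le_rfl, ?_⟩
      rw [hv, c.ray_one_iff, hm0, hK]
      have : c.d * c.d + c.d = c.d * (c.d + 1) := by ring
      rw [this]
      exact ((Nat.modEq_zero_iff_dvd).2 (dvd_mul_right _ _)).symm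
    · refine ⟨c.K + m, by omega, by omega, ?_⟩
      rw [hv, c.ray_one_iff, hK]
      have h1 : c.d * c.d ≡ 0 [MOD c.d] := (Nat.modEq_zero_iff_dvd).2 (dvd_mul_right _ _)
      have h2 := (h1.add_right m).symm
      rwa [zero_add] at h2
  have he : c.ex v = hex.choose := by
    unfold ex
    rw [dif_pos hex]
  rw [he]
  exact hex.choose_spec

theorem ex_ray {E : ℕ} (h1 : c.K + 1 ≤ E) (h2 : E ≤ c.K + c.d) : c.ex (c.ray E 1) = E := by
  obtain ⟨h3, h4, h5⟩ := c.ex_spec (c.adj_ray_one E)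
  rw [c.ray_one_iff] at h5
  exact (residue_unique h5 h1 h2 h3 h4).symm

/-- adjacent vertices on rays from `x`, both different from `x` -/
theorem ray_step {m m' j j' : ℕ} (h1 : 1 ≤ j) (h2 : j ≤ c.L) (h3 : 1 ≤ j') (h4 : j' ≤ c.L)
    (h : c.M.G.Adj (c.ray m j) (c.ray m' j')) :
    m ≡ m' [MOD c.d] ∧ (j' = j + 1 ∨ j = j' + 1) := by
  -- one of the two vertices is an interior vertex of its ray
  have key : ∀ {m m' j j' : ℕ}, 1 ≤ j → j < c.L → 1 ≤ j' → j' ≤ c.L →
      c.M.G.Adj (c.ray m j) (c.ray m' j') → m ≡ m' [MOD c.d] ∧ (j' = j + 1 ∨ j = j' + 1) := by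
    intro m m' j j' h1 h2 h3 h4 h
    rcases c.M.ray_int c.x c.hx m j (by omega) h2 _ h with he | he
    · have h5 := c.M.ray_inj c.x c.hx m' j' m (j - 1) h4 (show j - 1 ≤ c.L by omega) he
      refine ⟨?_, Or.inr (by omega)⟩
      rcases h5.2 with h6 | h6
      · omega
      · exact h6.symm
    · have h5 := c.M.ray_inj c.x c.hx m' j' m (j + 1) h4 (show j + 1 ≤ c.L by omega) he
      refine ⟨?_, Or.inl (by omega)⟩
      rcases h5.2 with h6 | h6
      · omega
      · exact h6.symm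
  by_cases hj : j < c.L
  · exact key h1 hj h3 h4 h
  by_cases hj' : j' < c.L
  · obtain ⟨h5, h6⟩ := key h3 hj' h1 h2 h.symm
    exact ⟨h5.symm, h6.symm⟩
  exfalso
  have hL := c.L_pos
  obtain rfl : j = c.L := by omega
  obtain rfl : j' = c.L := by omega
  -- `y = ray m L`, `u = ray m' L` adjacent
  have hne : ∀ k k' : ℕ, c.M.ray c.x k c.L ≠ c.M.ray c.x k' (c.L - 1) := by
    intro k k' he
    have := (c.M.ray_inj c.x c.hx k c.L k' (c.L - 1) le_rfl (Nat.sub_le _ _) he).1
    omega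
  rcases c.M.ray_end c.x c.hx m with ⟨hy, -⟩ | hy
  · rcases c.M.ray_end c.x c.hx m' with ⟨hu, -⟩ | hu
    · -- both ends are branch vertices
      obtain ⟨k, -, hk⟩ := c.M.nbr _ hy _ h
      have h3y : 3 ≤ c.M.d (c.ray m' c.L) := c.M.three_le _ hu
      have hint : ∀ v, c.M.G.Adj (c.ray m' c.L) v → v = c.ray m c.L ∨
          v = c.M.ray (c.ray m c.L) k 2 := by
        intro v hv
        have e1 : c.ray m' c.L = c.M.ray (c.ray m c.L) k 1 := hk
        rw [e1] at hv
        have h7 := c.M.ray_int _ hy k 1 (by omega) (by show 1 < c.L; exact hL) v hv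
        rw [show (1 : ℕ) - 1 = 0 by rfl, c.M.ray_zero _ hy] at h7
        exact h7
      have hadj : ∀ q : ℕ, c.M.G.Adj (c.ray m' c.L) (c.M.ray (c.ray m' c.L) q 1) := by
        intro q
        have h8 := c.M.ray_adj _ hu q 0 (by show 0 < c.L; omega)
        rw [c.M.ray_zero _ hu q] at h8
        exact h8
      have hinj : ∀ q q' : ℕ, q < 3 → q' < 3 →
          c.M.ray (c.ray m' c.L) q 1 = c.M.ray (c.ray m' c.L) q' 1 → q = q' := by
        intro q q' hq hq' he
        rcases (c.M.ray_inj _ hu q 1 q' 1 hL.le hL.le he).2 with h9 | h9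
        · omega
        · have h10 : q % c.M.d (c.ray m' c.L) = q' % c.M.d (c.ray m' c.L) := h9
          rwa [Nat.mod_eq_of_lt (by omega), Nat.mod_eq_of_lt (by omega)] at h10
      have e0 := hint _ (hadj 0)
      have e1 := hint _ (hadj 1)
      have e2 := hint _ (hadj 2)
      have n01 : c.M.ray (c.ray m' c.L) 0 1 ≠ c.M.ray (c.ray m' c.L) 1 1 := fun he => by
        have := hinj 0 1 (by omega) (by omega) he
        omega
      have n02 : c.M.ray (c.ray m' c.L) 0 1 ≠ c.M.ray (c.ray m' c.L) 2 1 := fun he => by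
        have := hinj 0 2 (by omega) (by omega) he
        omega
      have n12 : c.M.ray (c.ray m' c.L) 1 1 ≠ c.M.ray (c.ray m' c.L) 2 1 := fun he => by
        have := hinj 1 2 (by omega) (by omega) he
        omega
      rcases e0 with e0 | e0 <;> rcases e1 with e1 | e1 <;> rcases e2 with e2 | e2
      · exact n01 (e0.trans e1.symm)
      · exact n01 (e0.trans e1.symm)
      · exact n02 (e0.trans e2.symm)
      · exact n12 (e1.trans e2.symm)
      · exact n12 (e1.trans e2.symm)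
      · exact n02 (e0.trans e2.symm)
      · exact n01 (e0.trans e1.symm)
      · exact n01 (e0.trans e1.symm)
    · exact hne m m' (hu _ h.symm)
  · exact hne m' m (hy _ h)

theorem no_bypass {m m' : ℕ} (h : CIn c.M.G {v | v ≠ c.x} (c.ray m 1) (c.ray m' 1)) :
    m ≡ m' [MOD c.d] := by
  rw [← c.ray_one_iff]
  by_contra hne
  set u := c.ray m 1 with hu
  set u' := c.ray m' 1 with hu'
  have hxu : c.M.G.Adj c.x u := c.adj_ray_one m
  have hxu' : c.M.G.Adj c.x u' := c.adj_ray_one m'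
  have hA := c.M.tree.isAcyclic
  let p : c.M.G.Walk u u' := SimpleGraph.Walk.cons hxu.symm (SimpleGraph.Walk.cons hxu'
    SimpleGraph.Walk.nil)
  have hp : p.IsPath := by
    rw [SimpleGraph.Walk.cons_isPath_iff, SimpleGraph.Walk.cons_isPath_iff]
    refine ⟨⟨by simp, ?_⟩, ?_⟩
    · simpa using hxu'.ne
    · simp only [SimpleGraph.Walk.support_cons, SimpleGraph.Walk.support_nil, List.mem_cons,
        List.not_mem_nil, or_false, not_or]
      exact ⟨hxu.ne', hne⟩
  obtain ⟨q, hq⟩ := h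
  have h1 : c.x ∈ q.support := path_subset hA p q hp (by simp [p])
  exact hq c.x h1 rfl

theorem code_pos (E m : ℕ) : 0 < c.M.code c.x E m := by
  have h1 := c.d_ge
  have h2 := c.L_pos
  unfold Model.code
  split_ifs
  · show 0 < c.L
    omega
  · show 0 < m * c.d + (c.K + c.d - E) + c.d
    omega

theorem code_lt {E m : ℕ} (h : m + 1 < E) (h2 : E ≤ c.K + c.d) : c.M.code c.x E m < c.L := by
  have h1 := c.d_ge
  have h3 := c.L_ge
  have hK : c.K = c.d * c.d := by rw [c.K_eq, sq]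
  unfold Model.code
  rw [if_neg (by omega)]
  show m * c.d + (c.K + c.d - E) + c.d < c.L
  -- `m + 2 ≤ E`, so `m * d + (K + d - E) ≤ m * d + (K + d - m - 2)`
  have h4 : c.K + c.d - E ≤ c.K + c.d - (m + 2) := by omega
  obtain ⟨k, hk⟩ : ∃ k, c.K + c.d = m + 2 + k := ⟨c.K + c.d - (m + 2), by omega⟩
  have h5 : c.K + c.d - (m + 2) = k := by omega
  have h6 : k ≤ k * c.d := Nat.le_mul_of_pos_right k (by omega)
  have h7 : (m + 2 + k) * c.d ≤ c.L - c.d := by
    rw [← hk, hK]
    have : (c.d ^ 2 + c.d + 1) * c.d = (c.d * c.d + c.d) * c.d + c.d := by ring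
    omega
  have h8 : (m + 2 + k) * c.d = m * c.d + 2 * c.d + k * c.d := by ring
  have h9 : c.d ≤ c.L := by
    have : (c.d ^ 2 + c.d + 1) * c.d = (c.d * c.d + c.d) * c.d + c.d := by ring
    omega
  omega

theorem code_le {E m : ℕ} (h : m < E) (h2 : E ≤ c.K + c.d) : c.M.code c.x E m ≤ c.L := by
  by_cases hm : m + 1 = E
  · unfold Model.code
    rw [if_pos hm]
  · exact (c.code_lt (by omega) h2).le

theorem code_ne {E E' m : ℕ} (h : m + 1 < E) (h' : m + 1 < E') (hE : E ≤ c.K + c.d)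
    (hE' : E' ≤ c.K + c.d) (hne : E ≠ E') : c.M.code c.x E m ≠ c.M.code c.x E' m := by
  unfold Model.code
  rw [if_neg (by omega), if_neg (by omega)]
  show m * c.d + (c.K + c.d - E) + c.d ≠ m * c.d + (c.K + c.d - E') + c.d
  omega

/-! ## arms -/

variable {c}

theorem E_spec {a b : c.W} (hab : c.D.Adj a b) (ha : c.lab a = c.x) :
    c.K + 1 ≤ c.E b ∧ c.E b ≤ c.K + c.d ∧ c.lab b = c.ray (c.E b) 1 := by
  have h := c.lab.map_rel hab
  rw [ha] at h
  exact c.ex_spec h

theorem r_pos (b : c.W) (m : ℕ) : 0 < c.r b m := c.code_pos _ _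

theorem r_le {a b : c.W} (hab : c.D.Adj a b) (ha : c.lab a = c.x) {m : ℕ} (hm : m < c.E b) :
    c.r b m ≤ c.L := c.code_le hm (E_spec hab ha).2.1

theorem lab_ne {a b : c.W} (hab : c.D.Adj a b) (ha : c.lab a = c.x) : c.lab b ≠ c.x := by
  rw [(E_spec hab ha).2.2]
  exact c.ray_ne _ _ le_rfl c.L_pos.le

end Pool.Agent.DB.A.Ctx
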