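import Pool.Agent.DB.A.Surg

/-!
# Project DB, part A, module DB-A-Surg0: the hull of the exit points

PLAN (`hS : Surg c A h N O X`; definitions in `Surg.lean`; tree facts `path_subset`, `CIn.*` in
`Conn.lean`; `core1` in `Core.lean`; model facts in `Mod.lean`).
* `ep_spec`: unfold `EP`, `hS.exN`, `c.nbr_x`; `v ∉ O` by `hS.joint`.
* `ep_lab`: `core1` with the two exit joints; `O ⊆ {u | ¬ (u ∈ N ∧ h u = x)}` by `hS.joint`.
* `path_N`: `CIn A (N ∪ {e₁, e₂}) e₁ e₂` (through the two joints and `hS.con`), then `path_subset`.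
* `hul_O`: the path is contained in the walk given by `CIn A O e₁ e₂` (`path_subset`).
* `hul_con`: `s` on the path `e₁ → e₂`, `t` on `f₁ → f₂`. The part of the path from `s` to `e₁` is in
  `Hul` (all its vertices are on the path `e₁ → e₂`); `CIn A O e₁ f₁` by transitivity, so the path
  from `e₁` to `f₁` (`SimpleGraph.IsTree.existsUnique_path`) is in `Hul` by definition.
* `hul_lab`: `s` on the path `p` from `e₁` to `e₂`. `h e₁ = ray m 1`. Induction along the path from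
  `e₁` to `s` (`p.takeUntil s`; or `CIn.invariant` with
  `φ u = ∃ j, 1 ≤ j ∧ j ≤ L ∧ h u = ray m j` on the set of the support of `p`): every vertex `u` of
  the path is in `O` (`hul_O`) and in `N ∪ {e₁, e₂}` (`path_N`), so `h u = ray m' j'`, `j' ≤ L`, (for
  `e₁, e₂`: `ep_spec`), and `h u ≠ x` (`hS.joint`; for `e₁, e₂` by `ray_ne`), so `1 ≤ j'` and `ray_step`
  applies; `ray` only depends on the residue (`Model.ray_per`). For `e ∈ EP` with `CIn A O s e`:
  `h e = h e₁` by `ep_lab`.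
* `hul_nbr`: if `s` is not an end point of the path, its two neighbours on the path are different
  and in `Hul`; otherwise `s ∈ EP X`.
* `hul_single`: if there is `t ∈ Hul`, `t ≠ s`, `CIn A O s t`, then `hul_con` and the first step of the
  walk (`CIn.exit` with `B = {s}`) give a neighbour of `s` in `Hul`.
* `disj_rel` (`N` and `O` disjoint): if `e₁, e₂ ∈ EP X`, `CIn A O e₁ e₂`, the path from `e₁` to `e₂` lies
  in `O ∩ (N ∪ {e₁, e₂}) = {e₁, e₂}`; if `e₁ ≠ e₂` they are adjacent (first step of the path), but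
  `h e₁ = h e₂` by `ep_lab`: contradiction. So `e₁ = e₂`, all hull vertices are exit points and
  connected ones are equal.
-/

namespace Pool.Agent.DB.A.Surg

open Set Pool.Agent.DB.A

variable {c : Ctx} {S : Type} {A : SimpleGraph S} {h : A →g c.M.G} {N O : Set S}
  {X : Set (S × S)}

theorem ep_spec (hS : Surg c A h N O X) {e : S} (he : e ∈ EP X) :
    e ∈ O ∧ (∃ m, h e = c.ray m 1) ∧ ∃ v, v ∈ N ∧ v ∉ O ∧ h v = c.x ∧ A.Adj v e := by
  obtain ⟨v, hv⟩ := he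
  obtain ⟨h1, h2, h3, h4⟩ := hS.exN (v, e) hv
  have h5 := h.map_rel h4
  simp only at h1 h2 h3 h4 h5
  rw [h2] at h5
  obtain ⟨m, -, hm⟩ := c.nbr_x h5
  exact ⟨h3, ⟨m, hm⟩, v, h1, hS.joint v h1 h2, h2, h4⟩

theorem ep_lab (hS : Surg c A h N O X) {e₁ e₂ : S} (h₁ : e₁ ∈ EP X) (h₂ : e₂ ∈ EP X)
    (hc : CIn A O e₁ e₂) : h e₁ = h e₂ := by
  obtain ⟨-, -, v₁, a1, -, a3, a4⟩ := hS.ep_spec h₁
  obtain ⟨-, -, v₂, b1, -, b3, b4⟩ := hS.ep_spec h₂
  have hsub : O ⊆ {u | ¬ (u ∈ N ∧ h u = c.x)} := fun u hu hux => hS.joint u hux.1 hux.2 hu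
  exact c.core1 hS.tree.isAcyclic h N hS.con a1 b1 a3 b3 a4 b4 (hc.mono hsub)

theorem path_N (hS : Surg c A h N O X) {e₁ e₂ : S} (h₁ : e₁ ∈ EP X) (h₂ : e₂ ∈ EP X)
    (p : A.Walk e₁ e₂) (hp : p.IsPath) {u : S} (hu : u ∈ p.support) :
    u = e₁ ∨ u = e₂ ∨ u ∈ N := by
  obtain ⟨-, -, v₁, a1, -, a3, a4⟩ := hS.ep_spec h₁
  obtain ⟨-, -, v₂, b1, -, b3, b4⟩ := hS.ep_spec h₂
  set C : Set S := N ∪ {e₁, e₂} with hC
  have hs₁C : e₁ ∈ C := Or.inr (Or.inl rfl)
  have hs₂C : e₂ ∈ C := Or.inr (Or.inr rfl)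
  have hNC : N ⊆ C := subset_union_left
  have h1 : CIn A C e₁ e₂ :=
    (CIn.of_adj a4.symm hs₁C (hNC a1)).trans (((hS.con _ a1 _ b1).mono hNC).trans
      (CIn.of_adj b4 (hNC b1) hs₂C))
  obtain ⟨q, hq⟩ := h1
  have h2 := hq u (path_subset hS.tree.isAcyclic p q hp hu)
  rcases h2 with h2 | h2 | h2
  · exact Or.inr (Or.inr h2)
  · exact Or.inl h2
  · exact Or.inr (Or.inl h2)

theorem hul_O (hS : Surg c A h N O X) {s : S} (hs : s ∈ Hul A O X) : s ∈ O := by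
  obtain ⟨e₁, e₂, h1, h2, ⟨q, hq⟩, p, hp, hsp⟩ := hs
  exact hq s (path_subset hS.tree.isAcyclic p q hp hsp)

/-- a hull vertex is joined in the hull to an exit point -/
private theorem hul_ep {s : S} (hs : s ∈ Hul A O X) :
    ∃ e ∈ EP X, CIn A (Hul A O X) e s := by
  classical
  obtain ⟨e₁, e₂, h1, h2, hc, p, hp, hsp⟩ := hs
  exact ⟨e₁, h1, p.takeUntil s hsp, fun u hu => ⟨e₁, e₂, h1, h2, hc, p, hp,
    p.support_takeUntil_subset_support hsp hu⟩⟩

/-- connected exit points are joined in the hull -/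
private theorem ep_con {e f : S} (he : e ∈ EP X) (hf : f ∈ EP X) (hc : CIn A O e f) :
    CIn A (Hul A O X) e f := by
  classical
  obtain ⟨q, hq⟩ := id hc
  exact ⟨q.bypass, fun u hu => ⟨e, f, he, hf, hc, q.bypass, q.bypass_isPath, hu⟩⟩

theorem hul_con (hS : Surg c A h N O X) {s t : S} (hs : s ∈ Hul A O X) (ht : t ∈ Hul A O X)
    (hc : CIn A O s t) : CIn A (Hul A O X) s t := by
  obtain ⟨e, he, h1⟩ := hul_ep hs
  obtain ⟨f, hf, h2⟩ := hul_ep ht
  have hsub : Hul A O X ⊆ O := fun u hu => hS.hul_O hu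
  have h3 : CIn A O e f := (h1.mono hsub).trans (hc.trans (h2.mono hsub).symm)
  exact h1.symm.trans ((ep_con he hf h3).trans h2)

/-- all labels in one component of the hull are on one ray -/
theorem hul_lab (hS : Surg c A h N O X) {s : S} (hs : s ∈ Hul A O X) :
    ∃ m j, 1 ≤ j ∧ j ≤ c.L ∧ h s = c.ray m j ∧
      ∀ e ∈ EP X, CIn A O s e → h e = c.ray m 1 := by
  classical
  have hsub : Hul A O X ⊆ O := fun u hu => hS.hul_O hu
  obtain ⟨e₁, e₂, h1, h2, hc, p, hp, hsp⟩ := hs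
  obtain ⟨-, ⟨m, hm⟩, -⟩ := hS.ep_spec h1
  have hmem : ∀ u ∈ p.support, u ∈ Hul A O X := fun u hu => ⟨e₁, e₂, h1, h2, hc, p, hp, hu⟩
  have hlab : ∀ u ∈ p.support, ∃ m' j', 1 ≤ j' ∧ j' ≤ c.L ∧ h u = c.ray m' j' := by
    intro u hu
    rcases hS.path_N h1 h2 p hp hu with rfl | rfl | hN
    · exact ⟨m, 1, le_rfl, c.L_pos.le, hm⟩
    · obtain ⟨-, ⟨m', hm'⟩, -⟩ := hS.ep_spec h2
      exact ⟨m', 1, le_rfl, c.L_pos.le, hm'⟩
    · obtain ⟨m', j', hj', hu'⟩ := hS.rays u hN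
      refine ⟨m', j', ?_, hj', hu'⟩
      by_contra hj
      have hj0 : j' = 0 := by omega
      rw [hj0, c.ray_zero] at hu'
      exact hS.joint u hN hu' (hsub (hmem u hu))
  have hstep : ∀ a ∈ {u | u ∈ p.support}, ∀ b ∈ {u | u ∈ p.support}, A.Adj a b →
      (∃ j, 1 ≤ j ∧ j ≤ c.L ∧ h a = c.ray m j) → ∃ j, 1 ≤ j ∧ j ≤ c.L ∧ h b = c.ray m j := by
    rintro a ha b hb hab ⟨j, hj1, hj2, hj⟩
    obtain ⟨m', j', k1, k2, k3⟩ := hlab b hb
    have h3 := h.map_rel hab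
    rw [hj, k3] at h3
    obtain ⟨h4, -⟩ := c.ray_step hj1 hj2 k1 k2 h3
    exact ⟨j', k1, k2, by rw [k3]; exact c.M.ray_per c.x c.hx m' m j' h4.symm⟩
  have hC : CIn A {u | u ∈ p.support} e₁ s :=
    ⟨p.takeUntil s hsp, fun u hu => p.support_takeUntil_subset_support hsp hu⟩
  have hinv := hC.invariant (fun u => ∃ j, 1 ≤ j ∧ j ≤ c.L ∧ h u = c.ray m j)
    (fun a ha b hb hab => ⟨hstep a ha b hb hab, hstep b hb a ha hab.symm⟩)
  obtain ⟨j, hj1, hj2, hj⟩ := hinv.1 ⟨1, le_rfl, c.L_pos.le, hm⟩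
  refine ⟨m, j, hj1, hj2, hj, fun e he hse => ?_⟩
  rw [← hm]
  refine hS.ep_lab he h1 (hse.symm.trans ?_)
  exact CIn.symm (hC.mono (fun u hu => hsub (hmem u hu)))

theorem hul_nbr (hS : Surg c A h N O X) {s : S} (hs : s ∈ Hul A O X) :
    s ∈ EP X ∨ ∃ u u', u ∈ Hul A O X ∧ u' ∈ Hul A O X ∧ u ≠ u' ∧ A.Adj s u ∧ A.Adj s u' := by
  classical
  obtain ⟨e₁, e₂, h1, h2, hc, p, hp, hsp⟩ := hs
  by_cases hs1 : s = e₁
  · exact Or.inl (hs1 ▸ h1)
  by_cases hs2 : s = e₂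
  · exact Or.inl (hs2 ▸ h2)
  right
  obtain ⟨q, r, hqr⟩ := SimpleGraph.Walk.mem_support_iff_exists_append.1 hsp
  have hmem : ∀ u ∈ p.support, u ∈ Hul A O X := fun u hu => ⟨e₁, e₂, h1, h2, hc, p, hp, hu⟩
  -- first step of `r`
  have hr : ∃ u, A.Adj s u ∧ u ∈ r.support.tail := by
    cases r with
    | nil => exact absurd rfl hs2
    | cons hadj r' => exact ⟨_, hadj, by simp⟩
  have hq : ∃ u, A.Adj s u ∧ u ∈ q.support := by
    obtain ⟨q', hq'⟩ : ∃ q' : A.Walk s e₁, q' = q.reverse := ⟨_, rfl⟩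
    have hsup : ∀ u, u ∈ q'.support → u ∈ q.support := by
      intro u hu
      rw [hq'] at hu
      simpa [SimpleGraph.Walk.support_reverse] using hu
    cases q' with
    | nil => exact absurd rfl hs1
    | cons hadj r' => exact ⟨_, hadj, hsup _ (by simp)⟩
  obtain ⟨u, hu1, hu2⟩ := hr
  obtain ⟨u', hv1, hv2⟩ := hq
  have hsupp : p.support = q.support ++ r.support.tail := by
    rw [hqr, SimpleGraph.Walk.support_append]
  have hnd := hp.support_nodup
  rw [hsupp, List.nodup_append] at hnd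
  refine ⟨u, u', hmem u ?_, hmem u' ?_, ?_, hu1, hv1⟩
  · rw [hsupp]
    exact List.mem_append_right _ hu2
  · rw [hsupp]
    exact List.mem_append_left _ hv2
  · exact fun he => hnd.2.2 u' hv2 u hu2 he.symm

theorem hul_single (hS : Surg c A h N O X) {s : S} (hs : s ∈ Hul A O X) :
    (∃ u ∈ Hul A O X, A.Adj s u) ∨ ∀ t ∈ Hul A O X, CIn A O s t → t = s := by
  by_cases hex : ∃ t ∈ Hul A O X, CIn A O s t ∧ t ≠ s
  · obtain ⟨t, ht, hc, hne⟩ := hex
    left
    obtain ⟨a, b, ha, hb, hab, haC, hbC, -⟩ := (hS.hul_con hs ht hc).exit {s} rfl hne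
    have : a = s := ha
    exact ⟨b, hbC, this ▸ hab⟩
  · right
    intro t ht hc
    by_contra hne
    exact hex ⟨t, ht, hc, hne⟩

/-- if `N` and `O` are disjoint nothing is identified -/
theorem disj_rel (hS : Surg c A h N O X) (hd : Disjoint N O) {s t : S}
    (hr : Rel A h O X s t) : s = t := by
  classical
  have key : ∀ e₁ ∈ EP X, ∀ e₂ ∈ EP X, CIn A O e₁ e₂ → e₁ = e₂ := by
    intro e₁ h1 e₂ h2 hc
    by_contra hne
    obtain ⟨q, hq⟩ := id hc
    have hC : CIn A {e₁, e₂} e₁ e₂ := by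
      refine ⟨q.bypass, fun u hu => ?_⟩
      rcases hS.path_N h1 h2 q.bypass q.bypass_isPath hu with h3 | h3 | h3
      · exact Or.inl h3
      · exact Or.inr h3
      · exact absurd (hq u (q.support_bypass_subset_support hu))
          (Set.disjoint_left.1 hd h3)
    obtain ⟨a, b, ha, hb, hab, -, hbC, -⟩ := hC.exit {e₁} rfl (fun he => hne (Eq.symm he))
    have ha' : a = e₁ := ha
    rcases hbC with h3 | h3
    · exact hb h3
    · have hb' : b = e₂ := h3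
      rw [ha', hb'] at hab
      have h4 := h.map_rel hab
      rw [hS.ep_lab h1 h2 hc] at h4
      exact h4.ne rfl
  have hEP : ∀ u ∈ Hul A O X, u ∈ EP X := by
    rintro u ⟨e₁, e₂, h1, h2, hc, p, hp, hu⟩
    have he := key e₁ h1 e₂ h2 hc
    subst he
    have hnil : p.Nil := SimpleGraph.Walk.isPath_iff_nil.1 hp
    rw [← SimpleGraph.Walk.eq_nil_iff_nil] at hnil
    rw [hnil] at hu
    have : u = e₁ := by simpa using hu
    exact this ▸ h1
  rcases hr with hr | ⟨h1, h2, h3, -⟩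
  · exact hr
  · exact key s (hEP s h1) t (hEP t h2) h3

/-! ## consequences -/

/-- an exit point in the component of `s` -/
theorem exists_ep (hS : Surg c A h N O X) {s : S} (hs : s ∈ O) :
    ∃ e ∈ EP X, e ∈ O ∧ CIn A O s e := by
  obtain ⟨e, he, hc⟩ := hS.reach s hs
  exact ⟨e.2, ⟨e.1, he⟩, hc.right, hc⟩

/-- all labels of the hull in the component of `s` are on one ray `m`, the exit points of this
component are at height one -/
theorem comp_lab (hS : Surg c A h N O X) {s : S} (hs : s ∈ O) :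
    ∃ m, (∀ e ∈ EP X, CIn A O s e → h e = c.ray m 1) ∧
      ∀ t ∈ Hul A O X, CIn A O s t → ∃ j, 1 ≤ j ∧ j ≤ c.L ∧ h t = c.ray m j := by
  obtain ⟨e, he, heO, hc⟩ := hS.exists_ep hs
  obtain ⟨-, ⟨m, hm⟩, -⟩ := hS.ep_spec he
  refine ⟨m, fun e' he' hc' => ?_, fun t ht hct => ?_⟩
  · rw [← hm]
    exact hS.ep_lab he' he (hc'.symm.trans hc)
  · obtain ⟨m', j, h1, h2, h3, h4⟩ := hS.hul_lab ht
    have h5 := h4 e he (hct.symm.trans hc)
    rw [hm, c.ray_one_iff] at h5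
    refine ⟨j, h1, h2, ?_⟩
    rw [h3]
    exact c.M.ray_per c.x c.hx m' m j h5.symm

/-- connected exit points are identified -/
theorem ep_rep (hS : Surg c A h N O X) {e₁ e₂ : S} (h₁ : e₁ ∈ EP X) (h₂ : e₂ ∈ EP X)
    (hc : CIn A O e₁ e₂) : rep A h O X e₁ = rep A h O X e₂ :=
  rep_eq_iff.2 (Or.inr ⟨ep_hul h₁ hc.left, ep_hul h₂ hc.right, hc, hS.ep_lab h₁ h₂ hc⟩)

/-- related vertices are connected in `O` -/
theorem rep_con {s : S} (hs : s ∈ O) : CIn A O s (rep A h O X s) := by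
  rcases rep_rel (A := A) (h := h) (O := O) (X := X) s with he | ⟨-, -, hc, -⟩
  · rw [he]
    exact CIn.refl hs
  · exact hc.symm

end Pool.Agent.DB.A.Surg
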