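import Pool.Agent.DB.A.Comp
import Pool.Agent.DB.A.Surg0

/-!
# Project DB, part A, module DB-A-Out: surgery data and the exit number of outside components

PLAN.
`surg`: `cover`: `hSt.surj` (`p ∈ B`: `B_N`; otherwise `O`). `joint`: if `s = g p ∈ O`, `s ∈ N`, `h s = x`
then `labE p = x` (`hSt.lab`) and `joint_B` contradicts `p ∉ B`. `rays`: `N_cover`, `hSt.lab`, the labels
of points of `B`: `old a`: `x = ray 0 0`; `new a b m j`: `ray m (min j (2r - j))`, height `≤ r ≤ L`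
(`r_le`). `exN`: `joint_N`, `labE_armv_zero`, `exit_not_B`, `hSt.step` for `Step.exit`.
`reach`: let `s = g p`, `p` valid, `p ∉ B`. `conn_exp` gives `EqvGen (Step Q) p (old c₀)`, `old c₀ ∈ B`.
Convert to a chain (`Relation.EqvGen` is `ReflTransGen` of the symmetric closure:
`Relation.eqvGen_iff...` or induction for the statement
`∀ p p', EqvGen (Step Q) p p' → Valid p → (p ∉ B → p' ∈ B → goal for p)`; the cleanest way: let
`T = {p | Valid Q p ∧ p ∉ B ∧ goal(g p)} ∪ B` where `goal s = ∃ e ∈ X, CIn A O s e.2`; show that for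
`Step Q p p'`: `p ∈ T ↔ p' ∈ T` (use `step_B`; if both are outside they are in `O` and adjacent in `A`;
if the step is an exit then `p' = old b` satisfies goal with `CIn.refl`), so `T` is invariant under
`EqvGen`).
`exists_out`: `out p = ex (h e.2)` for a chosen `e ∈ X` with `CIn A O (g p) e.2` (`0` if there is
none). For two choices the labels are equal (`Surg.ep_lab`), hence the values. Range:
`e = (_, g (old b))`, `h e.2 = lab b`, `E_spec`. Step: both images are in `O` and adjacent, so the same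
`e` work. Exit: `e = (g (armv a b E 0), g (old b))` works for `old b` and `ex (lab b) = E b` by definition.
-/

namespace Pool.Agent.DB.A.Ctx

open Set

variable {c : Ctx} {Q : Set c.W} {S : Type} {A : SimpleGraph S} {g : EV c.W → S}
  {h : A →g c.M.G} {c₀ : c.W}

/-- exit number of the outside components -/
structure OutFn (c : Ctx) (Q : Set c.W) {S : Type} (g : EV c.W → S) (c₀ : c.W)
    (out : EV c.W → ℕ) : Prop where
  range : ∀ p, c.Valid Q p → p ∉ c.B Q g c₀ → c.K + 1 ≤ out p ∧ out p ≤ c.K + c.d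
  step : ∀ p p', c.Step Q p p' → p ∉ c.B Q g c₀ → p' ∉ c.B Q g c₀ → out p = out p'
  exit : ∀ a b, a ∈ c.QN Q g c₀ → c.D.Adj a b → out (.old b) = c.E b

/-- labels of the points of the blocks are on rays -/
private theorem B_ray (hSt : c.St Q A g h) {p : EV c.W} (hp : p ∈ c.B Q g c₀) :
    ∃ m j, j ≤ c.L ∧ c.labE p = c.ray m j := by
  cases p with
  | old a =>
      have ha : a ∈ c.QN Q g c₀ := hp
      refine ⟨0, 0, Nat.zero_le _, ?_⟩
      rw [c.ray_zero]
      exact hSt.cen a (QN_sub ha)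
  | new a b m j =>
      obtain ⟨h1, h2, h3, h4, h5⟩ := hp
      have := r_le h2 (hSt.cen a (QN_sub h1)) h3
      exact ⟨m, min j (2 * c.r b m - j), by omega, rfl⟩

private theorem mem_O {p : EV c.W} (hv : c.Valid Q p) (hp : p ∉ c.B Q g c₀) :
    g p ∈ c.O Q g c₀ := ⟨p, hv, hp, rfl⟩

/-- images of outside neighbours are joined in `O` -/
private theorem out_adj (hSt : c.St Q A g h) {p p' : EV c.W} (hs : c.Step Q p p')
    (hp : p ∉ c.B Q g c₀) (hp' : p' ∉ c.B Q g c₀) : CIn A (c.O Q g c₀) (g p) (g p') :=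
  CIn.of_adj (hSt.step _ _ hs) (mem_O (step_valid hs).1 hp) (mem_O (step_valid hs).2 hp')

/-- the exit of a block is joined with an exit point -/
private theorem exit_CIn (hSt : c.St Q A g h) {a b : c.W} (ha : a ∈ c.QN Q g c₀)
    (hab : c.D.Adj a b) : CIn A (c.O Q g c₀) (g (.old b)) (g (.old b)) :=
  CIn.refl (mem_O (p := .old b) trivial (exit_not_B hSt (QN_sub ha) hab))

private theorem reach_aux (hSt : c.St Q A g h) {p p' : EV c.W}
    (hr : Relation.EqvGen (c.Step Q) p p') :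
    (p ∈ c.B Q g c₀ ∨ ∃ e ∈ c.X Q g c₀, CIn A (c.O Q g c₀) (g p) e.2) ↔
      (p' ∈ c.B Q g c₀ ∨ ∃ e ∈ c.X Q g c₀, CIn A (c.O Q g c₀) (g p') e.2) := by
  induction hr with
  | rel p p' hs =>
      rcases step_B (c₀ := c₀) hSt hs with ⟨h1, h2⟩ | ⟨h1, h2⟩ | ⟨h1, h2, a, b, ha, hab, he, he'⟩
      · exact ⟨fun _ => Or.inl h2, fun _ => Or.inl h1⟩
      · have hc := out_adj hSt hs h1 h2
        constructor
        · rintro (h3 | ⟨e, he, h3⟩)
          · exact absurd h3 h1
          · exact Or.inr ⟨e, he, hc.symm.trans h3⟩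
        · rintro (h3 | ⟨e, he, h3⟩)
          · exact absurd h3 h2
          · exact Or.inr ⟨e, he, hc.trans h3⟩
      · refine ⟨fun _ => Or.inr ⟨(g (c.armv a b (c.E b) 0), g (.old b)), ⟨a, b, ha, hab, rfl⟩, ?_⟩,
          fun _ => Or.inl h1⟩
        rw [he']
        exact exit_CIn hSt ha hab
  | refl p => exact Iff.rfl
  | symm p p' _ ih => exact ih.symm
  | trans p p' p'' _ _ ih ih' => exact ih.trans ih'

private theorem reach (hSt : c.St Q A g h) (hc₀ : c₀ ∈ Q) {p : EV c.W} (hv : c.Valid Q p)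
    (hp : p ∉ c.B Q g c₀) : ∃ e ∈ c.X Q g c₀, CIn A (c.O Q g c₀) (g p) e.2 := by
  have h1 : c.Valid Q (.old c₀) := trivial
  have h2 : (.old c₀ : EV c.W) ∈ c.B Q g c₀ := c₀_mem hc₀
  exact ((reach_aux hSt (conn_exp hSt.cen hv h1)).2 (Or.inl h2)).resolve_left hp

theorem surg (hSt : c.St Q A g h) (hc₀ : c₀ ∈ Q) :
    Surg c A h (c.N Q g c₀) (c.O Q g c₀) (c.X Q g c₀) where
  tree := hSt.tree
  con := N_con hSt
  cover := by
    intro s
    obtain ⟨p, hv, hp⟩ := hSt.surj s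
    by_cases hB : p ∈ c.B Q g c₀
    · left
      rw [← hp]
      exact B_N hB
    · exact Or.inr ⟨p, hv, hB, hp⟩
  joint := by
    rintro s hs hx ⟨p, hv, hB, rfl⟩
    refine hB (joint_B hSt hc₀ hv hs ?_)
    rw [← hSt.lab p hv]
    exact hx
  rays := by
    intro s hs
    obtain ⟨p, hp, rfl⟩ := N_cover hc₀ hs
    rw [hSt.lab p (B_valid hp)]
    exact B_ray hSt hp
  exN := by
    rintro e ⟨a, b, ha, hab, rfl⟩
    refine ⟨joint_N ha hab le_rfl, ?_, mem_O (p := .old b) trivial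
      (exit_not_B hSt (QN_sub ha) hab), hSt.step _ _ (Step.exit a b (QN_sub ha) hab)⟩
    rw [hSt.lab _ (valid_armv_zero (QN_sub ha) hab le_rfl)]
    exact labE_armv_zero (hSt.cen a (QN_sub ha)) b _
  reach := by
    rintro s ⟨p, hv, hB, rfl⟩
    exact reach hSt hc₀ hv hB

theorem exists_out (hSt : c.St Q A g h) (hc₀ : c₀ ∈ Q) :
    ∃ out : EV c.W → ℕ, OutFn c Q g c₀ out := by
  classical
  have key : ∀ p, ∃ n, ∀ e ∈ c.X Q g c₀, CIn A (c.O Q g c₀) (g p) e.2 → n = c.ex (h e.2) := by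
    intro p
    by_cases hex : ∃ e ∈ c.X Q g c₀, CIn A (c.O Q g c₀) (g p) e.2
    · obtain ⟨e, he, hc⟩ := hex
      refine ⟨c.ex (h e.2), fun e' he' hc' => ?_⟩
      rw [(surg hSt hc₀).ep_lab ⟨e.1, he⟩ ⟨e'.1, he'⟩ (hc.symm.trans hc')]
    · exact ⟨0, fun e he hc => absurd ⟨e, he, hc⟩ hex⟩
  choose out hout using key
  refine ⟨out, ⟨?_, ?_, ?_⟩⟩
  · intro p hv hB
    obtain ⟨e, he, hc⟩ := reach hSt hc₀ hv hB
    rw [hout p e he hc]
    obtain ⟨a, b, ha, hab, rfl⟩ := he
    have h1 := E_spec hab (hSt.cen a (QN_sub ha))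
    have h2 : h (g (.old b)) = c.lab b := hSt.lab (.old b) trivial
    show c.K + 1 ≤ c.ex (h (g (.old b))) ∧ c.ex (h (g (.old b))) ≤ c.K + c.d
    rw [h2]
    exact ⟨h1.1, h1.2.1⟩
  · intro p p' hs hB hB'
    obtain ⟨e, he, hc⟩ := reach hSt hc₀ (step_valid hs).1 hB
    rw [hout p e he hc, hout p' e he ((out_adj hSt hs hB hB').symm.trans hc)]
  · intro a b ha hab
    have h2 : h (g (.old b)) = c.lab b := hSt.lab (.old b) trivial
    rw [hout (.old b) (g (c.armv a b (c.E b) 0), g (.old b)) ⟨a, b, ha, hab, rfl⟩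
      (exit_CIn hSt ha hab)]
    show c.ex (h (g (.old b))) = c.ex (c.lab b)
    rw [h2]

end Pool.Agent.DB.A.Ctx
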