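import Pool.Agent.DB.A.Surg2

/-!
# Project DB, part A, module DB-A-Surg3: excess after the surgery, `N` and `O` disjoint

All classes are single points. `some t ↦ t.1` does not increase degrees, and the degree of `none` is at
most the number of the darts leaving `N`.
-/

namespace Pool.Agent.DB.A.Surg

open Set Pool.Agent.DB.A

variable {c : Ctx} {S : Type} {A : SimpleGraph S} {h : A →g c.M.G} {N O : Set S}
  {X : Set (S × S)}

private theorem rep_id (hS : Surg c A h N O X) (hd : Disjoint N O) (s : S) :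
    rep A h O X s = s := hS.disj_rel hd (rep_rel s)

private theorem deg_some [Finite S] (hS : Surg c A h N O X) (hd : Disjoint N O)
    (t : {t : S // t ∈ O ∧ rep A h O X t = t}) : deg (SG c A h O X) (some t) ≤ deg A t.1 := by
  classical
  have hne : Nonempty S := ⟨t.1⟩
  have hex : ∀ γ ∈ (SG c A h O X).neighborSet (some t), ∃ s, s ∈ A.neighborSet t.1 ∧
      ((∃ t', γ = some t' ∧ t'.1 = s) ∨ (γ = none ∧ s ∉ O)) := by
    rintro (_ | t') hadj
    · obtain ⟨s, hs, hse, hr⟩ := hadj
      rw [rep_id hS hd] at hr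
      obtain ⟨-, -, v, -, hvO, -, hvs⟩ := hS.ep_spec hse
      refine ⟨v, ?_, Or.inr ⟨rfl, hvO⟩⟩
      rw [SimpleGraph.mem_neighborSet, ← hr]
      exact hvs.symm
    · obtain ⟨s, s', hs, hs', hss, hr, hr'⟩ := hadj
      rw [rep_id hS hd] at hr hr'
      refine ⟨s', ?_, Or.inl ⟨t', rfl, hr'.symm⟩⟩
      rw [SimpleGraph.mem_neighborSet, ← hr]
      exact hss
  choose! f hf1 hf2 using hex
  unfold deg
  refine Set.ncard_le_ncard_of_injOn f hf1 ?_ (Set.toFinite _)
  intro γ hγ γ' hγ' he
  rcases hf2 γ hγ with ⟨t1, h1, h2⟩ | ⟨h1, h2⟩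
  · rcases hf2 γ' hγ' with ⟨t2, h3, h4⟩ | ⟨h3, h4⟩
    · rw [h1, h3]
      congr 1
      exact Subtype.ext (h2.trans (he.trans h4.symm))
    · refine absurd ?_ h4
      rw [← he, ← h2]
      exact t1.2.1
  · rcases hf2 γ' hγ' with ⟨t2, h3, h4⟩ | ⟨h3, h4⟩
    · refine absurd ?_ h2
      rw [he, ← h4]
      exact t2.2.1
    · rw [h1, h3]

private theorem deg_none [Fintype S] (hS : Surg c A h N O X) (hd : Disjoint N O)
    (Nf : Finset S) (hN : (Nf : Set S) = N) :
    deg (SG c A h O X) none - 2 ≤ ∑ s ∈ Nf, (deg A s - 2) := by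
  classical
  have hnS : Nonempty S := hS.tree.connected.nonempty
  have hNO : ∀ {s : S}, s ∈ O → s ∉ N := fun ho hn => Set.disjoint_left.1 hd hn ho
  have hex : ∀ γ ∈ (SG c A h O X).neighborSet none, ∃ p : S × S, p ∈ leave A (Nf : Set S) ∧
      ∃ t', γ = some t' ∧ t'.1 = p.2 := by
    rintro (_ | t') hadj
    · exact absurd hadj id
    · obtain ⟨s, hs, hse, hr⟩ := hadj
      rw [rep_id hS hd] at hr
      obtain ⟨-, -, v, hvN, -, -, hvs⟩ := hS.ep_spec hse
      refine ⟨(v, s), ⟨?_, ?_, hvs⟩, t', rfl, hr.symm⟩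
      · rw [hN]
        exact hvN
      · rw [hN]
        exact hNO hs
  choose! f hf1 hf2 using hex
  have hle : deg (SG c A h O X) none ≤ (leave A (Nf : Set S)).ncard := by
    unfold deg
    refine Set.ncard_le_ncard_of_injOn f hf1 ?_ (Set.toFinite _)
    intro γ hγ γ' hγ' he
    obtain ⟨t1, h1, h2⟩ := hf2 γ hγ
    obtain ⟨t2, h3, h4⟩ := hf2 γ' hγ'
    rw [h1, h3]
    congr 1
    exact Subtype.ext (h2.trans ((congrArg Prod.snd he).trans h4.symm))
  rcases Nf.eq_empty_or_nonempty with hne | hne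
  · have h0 : leave A (Nf : Set S) = ∅ := by
      rw [hne]
      ext p
      simp [leave]
    rw [h0, Set.ncard_empty] at hle
    omega
  · have hconn : (A.induce (Nf : Set S)).Connected := by
      rw [hN]
      refine con_induce hS.con ?_
      rw [← hN]
      exact hne
    have h1 := leave_le A hS.tree Nf hconn
    omega

theorem beta_SG [Fintype S] [Fintype (SV A h O X)] (hS : Surg c A h N O X)
    (hd : Disjoint N O) : beta (SG c A h O X) ≤ beta A := by
  classical
  rename_i _ inst
  have hinst : inst = (instFintypeOption : Fintype (SV A h O X)) := Subsingleton.elim _ _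
  subst hinst
  unfold beta
  rw [Fintype.sum_option]
  have h1 := deg_none hS hd N.toFinset (Set.coe_toFinset N)
  have h2 : ∑ t : {t : S // t ∈ O ∧ rep A h O X t = t}, (deg (SG c A h O X) (some t) - 2) ≤
      ∑ s ∈ O.toFinset, (deg A s - 2) := by
    calc ∑ t : {t : S // t ∈ O ∧ rep A h O X t = t}, (deg (SG c A h O X) (some t) - 2)
        ≤ ∑ t : {t : S // t ∈ O ∧ rep A h O X t = t}, (deg A t.1 - 2) :=
          Finset.sum_le_sum fun t _ => Nat.sub_le_sub_right (deg_some hS hd t) 2
      _ = ∑ s ∈ Finset.univ.image (fun t : {t : S // t ∈ O ∧ rep A h O X t = t} => t.1),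
          (deg A s - 2) := by
          rw [Finset.sum_image]
          intro t _ t' _ he
          exact Subtype.ext he
      _ ≤ ∑ s ∈ O.toFinset, (deg A s - 2) := by
          refine Finset.sum_le_sum_of_subset ?_
          intro s hs
          obtain ⟨t, -, rfl⟩ := Finset.mem_image.1 hs
          exact Set.mem_toFinset.2 t.2.1
  have hdf : Disjoint N.toFinset O.toFinset := by
    rw [Set.disjoint_toFinset]
    exact hd
  calc _ ≤ ∑ s ∈ N.toFinset, (deg A s - 2) + ∑ s ∈ O.toFinset, (deg A s - 2) := add_le_add h1 h2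
    _ = ∑ s ∈ N.toFinset ∪ O.toFinset, (deg A s - 2) := (Finset.sum_union hdf).symm
    _ ≤ ∑ s, (deg A s - 2) := Finset.sum_le_sum_of_subset (Finset.subset_univ _)

end Pool.Agent.DB.A.Surg
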