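import Pool.Agent.DB.A.Surg1
import Pool.Agent.DB.A.Surg3

/-!
# Project DB, part A: the surgery theorem
-/

namespace Pool.Agent.DB.A

open Set

/-- all vertices of `N` are identified to one vertex `α`, the outside image is kept (partially
folded) -/
theorem surgery (c : Ctx) {S : Type} [Fintype S] (A : SimpleGraph S) (h : A →g c.M.G)
    (N O : Set S) (X : Set (S × S)) (hS : Surg c A h N O X) :
    ∃ (S' : Type) (_ : Fintype S') (A' : SimpleGraph S') (α : S') (π : S → S')
      (h' : A' →g c.M.G), A'.IsTree ∧ (∀ s ∈ O, π s ≠ α) ∧ (∀ t, t = α ∨ ∃ s ∈ O, π s = t) ∧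
      (∀ s ∈ O, ∀ t ∈ O, A.Adj s t → A'.Adj (π s) (π t)) ∧ (∀ e ∈ X, A'.Adj α (π e.2)) ∧
      h' α = c.x ∧ (∀ s ∈ O, h' (π s) = h s) ∧
      (∀ s ∈ O, ∀ t ∈ O, π s = π t → h s = c.x → s = t) ∧
      (((∃ s ∈ N, s ∉ O ∧ 3 ≤ deg A s) ∨ Disjoint N O) → bnum A' ≤ bnum A) ∧
      (Disjoint N O → beta A' ≤ beta A) := by
  classical
  have hrl : ∀ s, h (rep A h O X s) = h s := fun s => rep_lab (h := (h : S → c.M.V)) s
  let fi : Fintype (SV A h O X) := Fintype.ofFinite _
  have hcls : ∀ s (hs : s ∈ O), cls c A h O X s = some ⟨rep A h O X s, rep_mem hs, rep_rep s⟩ := by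
    intro s hs
    unfold cls
    rw [dif_pos hs]
  have hSGadj : ∀ e ∈ X, (SG c A h O X).Adj none (cls c A h O X e.2) := by
    intro e he
    have heO := (hS.exN e he).2.2.1
    rw [hcls _ heO]
    exact ⟨e.2, heO, ⟨e.1, he⟩, rfl⟩
  let hfun : SV A h O X → c.M.V := fun t => match t with
    | none => c.x
    | some t => h t.1
  have hhom : ∀ {a b : SV A h O X}, (SG c A h O X).Adj a b → c.M.G.Adj (hfun a) (hfun b) := by
    rintro (_ | t) (_ | t') hadj
    · exact absurd hadj id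
    · obtain ⟨s, hs, he, hr⟩ := hadj
      obtain ⟨-, -, v, -, -, hv, hvs⟩ := hS.ep_spec he
      have h1 := h.map_rel hvs
      rw [hv] at h1
      show c.M.G.Adj c.x (h t'.1)
      rw [← hr, hrl]
      exact h1
    · obtain ⟨s, hs, he, hr⟩ := hadj
      obtain ⟨-, -, v, -, -, hv, hvs⟩ := hS.ep_spec he
      have h1 := h.map_rel hvs.symm
      rw [hv] at h1
      show c.M.G.Adj (h t.1) c.x
      rw [← hr, hrl]
      exact h1
    · obtain ⟨s, s', hs, hs', hss, hr, hr'⟩ := hadj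
      have h1 := h.map_rel hss
      show c.M.G.Adj (h t.1) (h t'.1)
      rw [← hr, ← hr', hrl, hrl]
      exact h1
  refine ⟨SV A h O X, fi, SG c A h O X, none, cls c A h O X, ⟨hfun, hhom⟩, hS.SG_isTree, ?_, ?_,
    ?_, hSGadj, rfl, ?_, ?_, fun hp => hS.bnum_SG hp, fun hd => hS.beta_SG hd⟩
  · intro s hs
    rw [hcls s hs]
    simp
  · rintro (_ | t)
    · exact Or.inl rfl
    · refine Or.inr ⟨t.1, t.2.1, ?_⟩
      rw [hcls t.1 t.2.1]
      congr 1
      exact Subtype.ext t.2.2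
  · intro s hs t ht hadj
    rw [hcls s hs, hcls t ht]
    exact ⟨s, t, hs, ht, hadj, rfl, rfl⟩
  · intro s hs
    rw [hcls s hs]
    show h (rep A h O X s) = h s
    exact hrl s
  · intro s hs t ht he hx
    rw [hcls s hs, hcls t ht] at he
    have h1 : rep A h O X s = rep A h O X t := by
      have := Option.some.inj he
      exact congrArg Subtype.val this
    rcases rep_eq_iff.1 h1 with h2 | ⟨h2, -, -, -⟩
    · exact h2
    · exfalso
      obtain ⟨m, j, h3, h4, h5, -⟩ := hS.hul_lab h2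
      exact c.ray_ne m j h3 h4 (by rw [← h5, hx])

end Pool.Agent.DB.A
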