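import Pool.Agent.DB.A.Pure
import Pool.Agent.DB.A.Surg4

/-!
# Project DB, part A: peeling one component, peeling a whole expansion
-/

namespace Pool.Agent.DB.A.Ctx

open Set

variable {c : Ctx} {Q : Set c.W} {S : Type} {A : SimpleGraph S} {g : EV c.W → S}
  {h : A →g c.M.G}

theorem peel_step [Fintype S] (hSt : c.St Q A g h) (hQ : Q.Nonempty) :
    ∃ Q' : Set c.W, Q' ⊂ Q ∧ ∃ (S' : Type) (_ : Fintype S') (A' : SimpleGraph S')
      (g' : EV c.W → S') (h' : A' →g c.M.G), c.St Q' A' g' h' ∧ bnum A' ≤ bnum A ∧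
        (beta A < c.d - 2 → beta A' ≤ beta A) := by
  classical
  obtain ⟨c₀, hc₀⟩ := hQ
  have hS := surg hSt hc₀
  obtain ⟨S', fS', A', α, π, h', hT, hπα, hcov, hadj, hX, hα, hlab, hinj, hbn, hbe⟩ :=
    surgery c A h _ _ _ hS
  have hN0 : c₀ ∈ c.QN Q g c₀ := c₀_mem hc₀
  let g' : EV c.W → S' := fun p => match p with
    | .old w => if w ∈ c.QN Q g c₀ then α else π (g (.old w))
    | .new a b m j => π (g (.new a b m j))
  have hg'α : ∀ w, w ∈ c.QN Q g c₀ → g' (.old w) = α := fun w hw => if_pos hw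
  have hg'o : ∀ w, w ∉ c.QN Q g c₀ → g' (.old w) = π (g (.old w)) := fun w hw => if_neg hw
  have hg'B : ∀ p, p ∉ c.B Q g c₀ → g' p = π (g p) := by
    intro p hp
    cases p with
    | old w => exact hg'o w hp
    | new a b m j => rfl
  have hVQ : ∀ p, c.Valid (Q \ c.QN Q g c₀) p → c.Valid Q p := by
    intro p hp
    cases p with
    | old w => exact trivial
    | new a b m j => exact ⟨hp.1.1, hp.2⟩
  have hVB : ∀ p, c.Valid (Q \ c.QN Q g c₀) p → p ∉ c.B Q g c₀ ∨ ∃ w ∈ c.QN Q g c₀, p = .old w := by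
    intro p hp
    cases p with
    | old w =>
        by_cases hw : w ∈ c.QN Q g c₀
        · exact Or.inr ⟨w, hw, rfl⟩
        · exact Or.inl hw
    | new a b m j => exact Or.inl (fun hB => hp.1.2 hB.1)
  have hO : ∀ p, c.Valid Q p → p ∉ c.B Q g c₀ → g p ∈ c.O Q g c₀ := fun p hp hB => ⟨p, hp, hB, rfl⟩
  refine ⟨Q \ c.QN Q g c₀, ⟨sdiff_subset, fun hsub => (hsub hc₀).2 hN0⟩, S', fS', A', g', h',
    ?_, ?_, ?_⟩
  · refine ⟨fun a ha => hSt.cen a ha.1, hT, ?_, ?_, ?_, ?_⟩
    · -- steps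
      have hexit : ∀ w w', w ∈ c.QN Q g c₀ → c.D.Adj w w' → A'.Adj (g' (.old w)) (g' (.old w')) := by
        intro w w' hw hww
        have hnB : (.old w' : EV c.W) ∉ c.B Q g c₀ := exit_not_B hSt hw.1 hww
        rw [hg'α w hw, hg'B _ hnB]
        exact hX _ ⟨w, w', hw, hww, rfl⟩
      intro p p' hs
      cases hs with
      | main w w' hww hw hw' =>
          by_cases h1 : w ∈ c.QN Q g c₀
          · exact hexit w w' h1 hww
          · by_cases h2 : w' ∈ c.QN Q g c₀
            · exact (hexit w' w h2 hww.symm).symm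
            · rw [hg'o w h1, hg'o w' h2]
              refine hadj _ (hO (.old w) trivial h1) _ (hO (.old w') trivial h2) (hSt.step _ _ ?_)
              exact Step.main w w' hww (fun hq => hw ⟨hq, h1⟩) (fun hq => hw' ⟨hq, h2⟩)
      | arm a b m j ha hab hm hj =>
          have e1 := not_B_armv (g := g) (c₀ := c₀) (j := j) ha.2 hm
          have e2 := not_B_armv (g := g) (c₀ := c₀) (j := j + 1) ha.2 hm
          rw [hg'B _ e1, hg'B _ e2]
          exact hadj _ (hO _ (valid_armv ha.1 hab hm hj.le) e1) _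
            (hO _ (valid_armv ha.1 hab hm hj) e2) (hSt.step _ _ (Step.arm a b m j ha.1 hab hm hj))
      | exit a b ha hab =>
          have e1 := not_B_joint (g := g) (c₀ := c₀) (b := b) ha.2 (c.E b)
          have e2 : (.old b : EV c.W) ∉ c.B Q g c₀ := exit_not_B hSt ha.1 hab
          rw [hg'B _ e1, hg'B _ e2]
          exact hadj _ (hO _ (valid_armv_zero ha.1 hab le_rfl) e1) _ (hO _ trivial e2)
            (hSt.step _ _ (Step.exit a b ha.1 hab))
    · -- labels
      intro p hp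
      rcases hVB p hp with hB | ⟨w, hw, rfl⟩
      · rw [hg'B p hB, hlab _ (hO _ (hVQ p hp) hB)]
        exact hSt.lab p (hVQ p hp)
      · rw [hg'α w hw, hα]
        exact (hSt.cen w hw.1).symm
    · -- surjectivity
      intro t
      rcases hcov t with rfl | ⟨s, ⟨p, hp, hB, rfl⟩, rfl⟩
      · exact ⟨.old c₀, trivial, hg'α c₀ hN0⟩
      · refine ⟨p, ?_, hg'B p hB⟩
        cases p with
        | old w => exact trivial
        | new a b m j => exact ⟨⟨hp.1, fun ha => hB ⟨ha, hp.2⟩⟩, hp.2⟩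
    · -- separation of the centres
      intro a ha hax p hp he
      by_cases h1 : a ∈ c.QN Q g c₀
      · rw [hg'α a h1] at he
        rcases hVB p hp with hB | ⟨w, hw, rfl⟩
        · rw [hg'B p hB] at he
          exact absurd he (hπα _ (hO _ (hVQ p hp) hB))
        · exact ⟨w, fun hw' => hw'.2 hw, rfl⟩
      · have haQ : a ∉ Q := fun hq => ha ⟨hq, h1⟩
        rw [hg'o a h1] at he
        rcases hVB p hp with hB | ⟨w, hw, rfl⟩
        · rw [hg'B p hB] at he
          have h2 : g p = g (.old a) := by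
            refine (hinj _ (hO (.old a) trivial h1) _ (hO _ (hVQ p hp) hB) he.symm ?_).symm
            rw [hSt.lab (.old a) trivial]
            exact hax
          obtain ⟨a', ha', rfl⟩ := hSt.inv a haQ hax p (hVQ p hp) h2
          exact ⟨a', fun hq => ha' hq.1, rfl⟩
        · rw [hg'α w hw] at he
          exact absurd he.symm (hπα _ (hO (.old a) trivial h1))
  · exact hbn (pure_b hSt hc₀)
  · intro hb
    exact hbe (pure_beta hSt hc₀ hb)

theorem peel [Finite c.W] : ∀ (n : ℕ) (Q : Set c.W), Q.ncard ≤ n → ∀ (S : Type) (_ : Fintype S)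
    (A : SimpleGraph S) (g : EV c.W → S) (h : A →g c.M.G), c.St Q A g h →
    ∃ (S' : Type) (_ : Fintype S') (A' : SimpleGraph S') (g' : EV c.W → S') (h' : A' →g c.M.G),
      c.St ∅ A' g' h' ∧ bnum A' ≤ bnum A ∧ (beta A < c.d - 2 → beta A' ≤ beta A) := by
  intro n
  induction n with
  | zero =>
      intro Q hQ S fS A g h hSt
      have h0 : Q = ∅ := by
        rw [← Set.ncard_eq_zero (Set.toFinite Q)]
        omega
      subst h0
      exact ⟨S, fS, A, g, h, hSt, le_rfl, fun _ => le_rfl⟩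
  | succ n ih =>
      intro Q hQ S fS A g h hSt
      by_cases hne : Q.Nonempty
      · obtain ⟨Q', hQ', S₁, fS₁, A₁, g₁, h₁, hSt₁, hb₁, hbe₁⟩ := peel_step hSt hne
        have hlt : Q'.ncard < Q.ncard := Set.ncard_lt_ncard hQ' (Set.toFinite Q)
        obtain ⟨S₂, fS₂, A₂, g₂, h₂, hSt₂, hb₂, hbe₂⟩ :=
          ih Q' (by omega) S₁ fS₁ A₁ g₁ h₁ hSt₁
        refine ⟨S₂, fS₂, A₂, g₂, h₂, hSt₂, hb₂.trans hb₁, fun hb => ?_⟩
        have h3 := hbe₁ hb
        exact (hbe₂ (lt_of_le_of_lt h3 hb)).trans h3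
      · rw [Set.not_nonempty_iff_eq_empty] at hne
        subst hne
        exact ⟨S, fS, A, g, h, hSt, le_rfl, fun _ => le_rfl⟩

end Pool.Agent.DB.A.Ctx
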