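import Pool.Agent.DB.A.Disj

/-!
# Project DB, part A, module DB-A-Pure: a pure branch vertex or disjointness

PLAN.
`miss_of_deg`: a vertex `v` with `h v = x` and `deg A v < d` misses a direction: otherwise choose for
every `w < d` a neighbour with label `ray w 1`; they are different (`ray_one_iff`: different residues),
so the neighbour set has at least `d` elements.
`pure_b`: CASE 1: some `v ∈ N`, `h v = x`, `3 ≤ deg A v`: then `v ∉ O` (`surg.joint`): left.
CASE 2: all joints of `N` have degree `≤ 2 < d`: `miss_of_deg`, `exists_out`, `exists_index`.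
CASE 2a: some `a ∈ QN`, `m ≤ K`, `m < E b`, `1 ≤ j < 2r` with `3 ≤ deg A (g (armv a b m j))`: this vertex is
in `N` (`arm_N`) and not in `O`, because `I = m ≤ K` there and `I ≥ K + 1` on `O` (`IdxFn.out`,
`OutFn.range`): left. CASE 2b: otherwise `m₀ = 1` is free (`K = d ^ 2 ≥ 9`; joints are in `N` with label
`x`: `joint_N`, `labE_armv_zero`): right by `disj`.
`pure_beta`: `beta A < d - 2`. Every vertex has `deg ≤ d - 1` (a summand of `beta`), so
`exists_index`. Let `Br` = vertices with `3 ≤ deg`; `Br.card ≤ beta A ≤ d - 3` (each contributes at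
least one). If for every `m₀` in `[1, K - 1]` the index `m₀` is not free, then there is `s ∈ Br` with
`I s ≤ m₀ ≤ I s + (d - 2)` (`s = g (armv a b m₀ 0)`: `IdxFn.joint`; `s = g (armv a b m₀ j)`:
`I s = m₀`, `IdxFn.arm`; `m₀ < K < E b`). So `[1, K - 1] ⊆ ⋃_{s ∈ Br} [I s, I s + d - 2]` (integers), hence
`K - 1 ≤ (d - 3) (d - 1)` (`Finset.card_biUnion_le_card_mul`, `Int.card_Icc`), but
`K - 1 = d ^ 2 - 1 > (d - 3)(d - 1)`: contradiction. So some `m₀` is free: `disj`.
-/

namespace Pool.Agent.DB.A.Ctx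

open Set

variable {c : Ctx} {Q : Set c.W} {S : Type} {A : SimpleGraph S} {g : EV c.W → S}
  {h : A →g c.M.G} {c₀ : c.W}

theorem miss_of_deg [Finite S] (v : S) (hd : deg A v < c.d) :
    ∃ w, w < c.d ∧ ∀ u, A.Adj v u → h u ≠ c.ray w 1 := by
  classical
  by_contra hno
  push Not at hno
  have : Nonempty S := ⟨v⟩
  choose! f hf using hno
  have h1 : (Finset.range c.d).card = ((Finset.range c.d).image f).card := by
    rw [Finset.card_image_of_injOn]
    intro w hw w' hw' he
    have hw1 : w < c.d := by simpa using hw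
    have hw2 : w' < c.d := by simpa using hw'
    have e1 := (hf w hw1).2
    have e2 := (hf w' hw2).2
    have e3 : f w = f w' := he
    rw [e3, e2] at e1
    have e4 := (c.ray_one_iff w' w).1 e1
    unfold Nat.ModEq at e4
    rw [Nat.mod_eq_of_lt hw2, Nat.mod_eq_of_lt hw1] at e4
    exact e4.symm
  have h2 : (((Finset.range c.d).image f : Finset S) : Set S).ncard ≤
      (A.neighborSet v).ncard := by
    apply Set.ncard_le_ncard _ (Set.toFinite _)
    intro u hu
    rw [Finset.mem_coe, Finset.mem_image] at hu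
    obtain ⟨w, hw, rfl⟩ := hu
    exact (hf w (Finset.mem_range.1 hw)).1
  rw [Set.ncard_coe_finset, ← h1, Finset.card_range] at h2
  have h3 : (A.neighborSet v).ncard < c.d := hd
  omega

private theorem K_ge : 9 ≤ c.K := by
  have h1 := c.d_ge
  have h2 := c.K_eq
  rw [h2]
  nlinarith

private theorem E_big {a b : c.W} (hSt : c.St Q A g h) (ha : a ∈ c.QN Q g c₀)
    (hab : c.D.Adj a b) : c.K + 1 ≤ c.E b :=
  (E_spec hab (hSt.cen a ha.1)).1

private theorem lab_joint (hSt : c.St Q A g h) {a b : c.W} (ha : a ∈ c.QN Q g c₀)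
    (hab : c.D.Adj a b) {m : ℕ} (hm : m ≤ c.E b) : h (g (c.armv a b m 0)) = c.x := by
  rw [hSt.lab _ (valid_armv_zero ha.1 hab hm)]
  exact labE_armv_zero (hSt.cen a ha.1) b m

theorem pure_b [Finite S] (hSt : c.St Q A g h) (hc₀ : c₀ ∈ Q) :
    (∃ s ∈ c.N Q g c₀, s ∉ c.O Q g c₀ ∧ 3 ≤ deg A s) ∨
      Disjoint (c.N Q g c₀) (c.O Q g c₀) := by
  classical
  have hd3 := c.d_ge
  have hK := K_ge (c := c)
  by_cases h1 : ∃ v ∈ c.N Q g c₀, h v = c.x ∧ 3 ≤ deg A v
  · obtain ⟨v, hv, hx, hdeg⟩ := h1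
    exact Or.inl ⟨v, hv, (surg hSt hc₀).joint v hv hx, hdeg⟩
  · have h1' : ∀ v ∈ c.N Q g c₀, h v = c.x → deg A v ≤ 2 := by
      intro v hv hx
      by_contra hdeg
      exact h1 ⟨v, hv, hx, by omega⟩
    obtain ⟨out, ho⟩ := exists_out hSt hc₀
    obtain ⟨I, hI⟩ := exists_index hSt hc₀ (fun v hv hx => miss_of_deg (c := c) (h := h) v
      (by have := h1' v hv hx; omega)) ho
    by_cases h2 : ∃ a b m j, a ∈ c.QN Q g c₀ ∧ c.D.Adj a b ∧ m ≤ c.K ∧ m < c.E b ∧ 1 ≤ j ∧
        j < 2 * c.r b m ∧ 3 ≤ deg A (g (c.armv a b m j))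
    · obtain ⟨a, b, m, j, ha, hab, hmK, hm, hj, hj', hdeg⟩ := h2
      refine Or.inl ⟨_, arm_N ha hab hm hj'.le, ?_, hdeg⟩
      rintro ⟨p, hp, hpB, hpe⟩
      have e1 := hI.arm a b m j ha hab hm hj hj'
      have e2 := hI.out p hp hpB
      rw [hpe, e1] at e2
      have e3 := (ho.range p hp hpB).1
      have e4 : m = out p := by exact_mod_cast e2
      omega
    · right
      refine disj hSt hc₀ ho hI (m₀ := 1) ⟨le_rfl, by omega, ?_, ?_⟩
      · intro a b ha hab
        have hE := E_big hSt ha hab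
        exact h1' _ (joint_N ha hab (by omega)) (lab_joint hSt ha hab (by omega))
      · intro a b j ha hab hj hj'
        have hE := E_big hSt ha hab
        by_contra hdeg
        exact h2 ⟨a, b, 1, j, ha, hab, by omega, by omega, hj, hj', by omega⟩

theorem pure_beta [Fintype S] (hSt : c.St Q A g h) (hc₀ : c₀ ∈ Q) (hb : beta A < c.d - 2) :
    Disjoint (c.N Q g c₀) (c.O Q g c₀) := by
  classical
  have hd3 := c.d_ge
  have hK := K_ge (c := c)
  have hdeg : ∀ v : S, deg A v < c.d := by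
    intro v
    have h1 : deg A v - 2 ≤ beta A := by
      unfold beta
      exact Finset.single_le_sum (f := fun v => deg A v - 2) (fun _ _ => Nat.zero_le _)
        (Finset.mem_univ v)
    omega
  obtain ⟨out, ho⟩ := exists_out hSt hc₀
  obtain ⟨I, hI⟩ := exists_index hSt hc₀ (fun v _ _ => miss_of_deg (c := c) (h := h) v
    (hdeg v)) ho
  by_contra hdis
  have key : ∀ m₀ : ℕ, 1 ≤ m₀ → m₀ + 1 ≤ c.K → ∃ s : S, 3 ≤ deg A s ∧ I s ≤ m₀ ∧
      (m₀ : ℤ) + 2 ≤ I s + c.d := by
    intro m₀ hm1 hm2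
    by_contra hno
    refine hdis (disj hSt hc₀ ho hI (m₀ := m₀) ⟨hm1, hm2, ?_, ?_⟩)
    · intro a b ha hab
      by_contra hdg
      have hE := E_big hSt ha hab
      have e1 := hI.joint a b m₀ ha hab (by omega)
      exact hno ⟨_, by omega, e1.1, e1.2⟩
    · intro a b j ha hab hj hj'
      by_contra hdg
      have hE := E_big hSt ha hab
      have e1 := hI.arm a b m₀ j ha hab (by omega) hj hj'
      refine hno ⟨_, by omega, le_of_eq e1, ?_⟩
      rw [e1]
      have : (3 : ℤ) ≤ c.d := by exact_mod_cast hd3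
      linarith
  set Br : Finset S := Finset.univ.filter fun s => 3 ≤ deg A s with hBr
  have hcard : Br.card ≤ beta A := by
    calc Br.card = ∑ v ∈ Br, 1 := by simp
      _ ≤ ∑ v ∈ Br, (deg A v - 2) := by
          apply Finset.sum_le_sum
          intro v hv
          rw [hBr, Finset.mem_filter] at hv
          omega
      _ ≤ ∑ v : S, (deg A v - 2) := by
          apply Finset.sum_le_sum_of_subset
          exact Finset.subset_univ _
      _ = beta A := rfl
  have hsub : Finset.Icc (1 : ℤ) (c.K - 1) ⊆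
      Br.biUnion fun s => Finset.Icc (I s) (I s + (c.d - 2)) := by
    intro z hz
    rw [Finset.mem_Icc] at hz
    obtain ⟨m₀, rfl⟩ : ∃ m₀ : ℕ, z = m₀ := ⟨z.toNat, by omega⟩
    obtain ⟨s, hs, h1, h2⟩ := key m₀ (by omega) (by omega)
    rw [Finset.mem_biUnion]
    refine ⟨s, by rw [hBr, Finset.mem_filter]; exact ⟨Finset.mem_univ s, hs⟩, ?_⟩
    rw [Finset.mem_Icc]
    exact ⟨h1, by linarith⟩
  have h1 := Finset.card_le_card hsub
  have h2 : (Br.biUnion fun s => Finset.Icc (I s) (I s + (c.d - 2))).card ≤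
      Br.card * (c.d - 1) := by
    apply Finset.card_biUnion_le_card_mul
    intro s _
    rw [Int.card_Icc]
    omega
  rw [Int.card_Icc] at h1
  have h3 : ((c.K : ℤ) - 1 + 1 - 1).toNat = c.K - 1 := by omega
  rw [h3] at h1
  have h4 : Br.card * (c.d - 1) ≤ (c.d - 3) * (c.d - 1) :=
    Nat.mul_le_mul_right _ (by omega)
  have h5 : c.K - 1 ≤ (c.d - 3) * (c.d - 1) := h1.trans (h2.trans h4)
  rw [c.K_eq] at h5
  obtain ⟨k, hk⟩ := Nat.exists_eq_add_of_le hd3
  rw [hk] at h5
  have e1 : 3 + k - 3 = k := by omega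
  have e2 : 3 + k - 1 = k + 2 := by omega
  rw [e1, e2] at h5
  have e3 : (3 + k) ^ 2 = k * k + 6 * k + 9 := by ring
  have e4 : k * (k + 2) = k * k + 2 * k := by ring
  rw [e3, e4] at h5
  omega

end Pool.Agent.DB.A.Ctx
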