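import Pool.Agent.DB.A.Conn

/-!
# Project DB, part A, module DB-A-Retr: retraction of a tree onto a subtree (Mathlib + Conn only)

PLAN. Let `A'` be `A` without the edges with both ends in `H`
(`A' = A.deleteEdges {e | ∀ v ∈ e, v ∈ H}` or `SimpleGraph.fromRel`-like definition of your choice).
(1) every `s` is connected in `A'` to an element of `H`: walk in `A` from `s` to an element of `H`,
induction on the walk (if `s ∈ H` nothing to do; otherwise the first edge is an edge of `A'`).
(2) two different elements `h₁ ≠ h₂` of `H` are not connected in `A'`: a walk of `A'` from `h₁` to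
`h₂`; map it to `A` and take its `bypass`: a path of `A` none of whose edges has both ends in `H`
(`SimpleGraph.Walk.edges_bypass_subset`); `Con A H` gives a walk of `A` inside `H`, its bypass is a
path of `A` with all vertices in `H`; both are equal by uniqueness of paths; as `h₁ ≠ h₂` the path
has a first edge, with both ends in `H`: contradiction.
(3) `π s` := the element of `H` connected to `s` in `A'`. If `A.Adj s t` and not both in `H` then
`A'.Adj s t`, so `π s = π t` by (2).
-/

namespace Pool.Agent.DB.A

open Set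

theorem exists_retr {S : Type} {A : SimpleGraph S} (hA : A.IsTree) (H : Set S) (hH : Con A H)
    (hne : H.Nonempty) : ∃ π : S → S, (∀ s, π s ∈ H) ∧ (∀ s ∈ H, π s = s) ∧
      ∀ s t, A.Adj s t → ¬ (s ∈ H ∧ t ∈ H) → π s = π t := by
  classical
  set A' : SimpleGraph S := A.deleteEdges {e | ∀ v ∈ e, v ∈ H} with hA'
  have hadj : ∀ s t, A'.Adj s t ↔ A.Adj s t ∧ ¬ (s ∈ H ∧ t ∈ H) := by
    intro s t
    rw [hA', SimpleGraph.deleteEdges_adj]
    simp
  have hle : A' ≤ A := SimpleGraph.deleteEdges_le _
  -- every vertex is connected in `A'` to an element of `H`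
  have h1 : ∀ s t : S, ∀ p : A.Walk s t, t ∈ H → ∃ u ∈ H, A'.Reachable s u := by
    intro s t p
    induction p with
    | nil => intro ht; exact ⟨_, ht, SimpleGraph.Reachable.refl _⟩
    | @cons a b e hab p ih =>
        intro ht
        by_cases ha : a ∈ H
        · exact ⟨a, ha, SimpleGraph.Reachable.refl _⟩
        · obtain ⟨u, hu, hr⟩ := ih ht
          have hab' : A'.Adj a b := (hadj a b).2 ⟨hab, fun hh => ha hh.1⟩
          exact ⟨u, hu, hab'.reachable.trans hr⟩
  obtain ⟨h₀, hh₀⟩ := hne
  have h2 : ∀ s : S, ∃ u ∈ H, A'.Reachable s u := by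
    intro s
    obtain ⟨p⟩ := hA.connected.preconnected s h₀
    exact h1 s h₀ p hh₀
  -- uniqueness
  have h3 : ∀ u ∈ H, ∀ v ∈ H, A'.Reachable u v → u = v := by
    intro u hu v hv hr
    by_contra hne'
    obtain ⟨p⟩ := hr
    obtain ⟨q, hq⟩ := hH u hu v hv
    -- the path of `A` from `u` to `v` lies in `H`, and it is also a walk of `A'`
    set p' : A.Walk u v := (p.mapLe hle).bypass with hp'
    have hpath : p'.IsPath := SimpleGraph.Walk.bypass_isPath _
    have hsub : ∀ w ∈ p'.support, w ∈ H := fun w hw =>
      hq w (path_subset hA.isAcyclic p' q hpath hw)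
    have hedge : ∀ e ∈ p'.edges, e ∈ A'.edgeSet := by
      intro e he
      have he2 : e ∈ (p.mapLe hle).edges := SimpleGraph.Walk.edges_bypass_subset_edges _ he
      rw [SimpleGraph.Walk.edges_mapLe_eq_edges] at he2
      exact SimpleGraph.Walk.edges_subset_edgeSet p he2
    cases hc : p' with
    | nil => exact hne' rfl
    | @cons _ b _ hab r =>
        rw [hc] at hsub hedge
        have hb : b ∈ H := hsub b (by simp)
        have he := hedge s(u, b) (by simp)
        rw [SimpleGraph.mem_edgeSet, hadj] at he
        exact he.2 ⟨hu, hb⟩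
  choose π hπH hπr using h2
  refine ⟨π, hπH, fun s hs => (h3 s hs _ (hπH s) (hπr s)).symm, fun s t hst hn => ?_⟩
  have hst' : A'.Adj s t := (hadj s t).2 ⟨hst, hn⟩
  exact h3 _ (hπH s) _ (hπH t) ((hπr s).symm.trans (hst'.reachable.trans (hπr t)))

end Pool.Agent.DB.A
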