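import Pool.Agent.DB.A.Surg0
import Pool.Agent.DB.A.Retr

/-!
# Project DB, part A, module DB-A-Surg1: the graph after the surgery is a tree

PLAN. Use `isTree_of_cuts` (`Conn.lean`).
CONNECTED: every `some t` is reachable from `none`: `t.1 ∈ O`, `hS.exists_ep` gives `e ∈ EP X`,
`CIn A O t.1 e`; induction along the walk (all vertices in `O`): `cls` of adjacent vertices of `O` are
adjacent in `SG`; `cls t.1 = t` because `rep t = t`; `none` is adjacent to `cls e`.
CUTS. (i) edge `none - some t` (`t.1 = rep e`, `e ∈ EP X`): `φ none = True`,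
`φ (some t') = ¬ CIn A O t.1 t'.1`. Another edge `none - some t'` with `CIn A O t.1 t'.1`: its exit point
`e'` is connected with `e` in `O` (`rep_con`), so `t' = t` by `ep_rep`: same edge. Edges
`some t₁ - some t₂` come from adjacent `s, s' ∈ O`, `CIn A O s s'`.
(ii) edge `some t - some t'` given by `s, s' ∈ O` adjacent, `rep s = t`, `rep s' = t'`, NOT both in `Hul`.
Let `φ₀` be the cut function of the edge `s s'` of `A` (`exists_cut`), `e ∈ EP X` with `CIn A O s e`
(`exists_ep`). Define `φ none = φ₀ e`, `φ (some u) = if CIn A O s u.1 then φ₀ u.1 else φ₀ e`. Key remark: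
for `u, u' ∈ Hul` with `CIn A O u u'`: `φ₀ u ↔ φ₀ u'` (`hul_con` and `CIn.invariant`; an edge inside `Hul`
is not the edge `s s'`). Hence for `u ∈ O`, `CIn A O s u`: `φ (cls u) ↔ φ₀ u` (either `rep u = u` or both
are in `Hul`). Check the edges: `none - some u`, `u = rep e'`: if `CIn A O s e'` both `e, e' ∈ Hul` are
connected in `O`. `some u - some u'` from adjacent `a, a' ∈ O`: both or none connected with `s`; if
both and `{a, a'} ≠ {s, s'}` use the cut function; if `{a, a'} = {s, s'}` it is the removed edge.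
`φ t ↔ φ₀ s`, `φ t' ↔ φ₀ s'`.
(iii) the same with `s, s' ∈ Hul`. Let `m` be from `comp_lab s`, `h s = ray m k`, `h s' = ray m k'`, by
`ray_step` `k' = k + 1` or `k = k' + 1`; by symmetry of the statement assume `k' = k + 1` (or treat both
cases with `l = min k k'`). Let `H = Hul ∩ {u | CIn A O s u}`: `Con A H` (`hul_con`; every vertex of a walk
in `Hul` starting at `s` is connected with `s` in `Hul ⊆ O`). `π` = retraction onto `H`
(`exists_retr`). For `u ∈ H` let the height be the `j` with `h u = ray m j` (unique by `ray_inj`), so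
define `φ none = False`, `φ (some u) = CIn A O s u.1 ∧ ∃ j, k + 1 ≤ j ∧ j ≤ L ∧ h (π u.1) = ray m j`.
For `u ∈ O`, `CIn A O s u`: `φ (cls u) ↔ ∃ j, ..., h (π u) = ray m j` (if `rep u ≠ u` both are in `H`, where
`π = id` and the labels agree). Edges `none - some u`: `u = rep e'`, height one `≤ k`: both false. Edges
`some u - some u'` from adjacent `a, a' ∈ O` connected with `s`: if not both in `H` then `π a = π a'`;
if both in `H`: heights `j, j'` differ by one (`ray_step`) and `φ` changes only if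
`{j, j'} = {k, k+1}`, and then `rep a = rep s`, `rep a' = rep s'` or vice versa: removed edge.
-/

namespace Pool.Agent.DB.A.Surg

open Set Pool.Agent.DB.A

variable {c : Ctx} {S : Type} {A : SimpleGraph S} {h : A →g c.M.G} {N O : Set S}
  {X : Set (S × S)}

private theorem cls_eq {s : S} (hs : s ∈ O) :
    cls c A h O X s = some ⟨rep A h O X s, rep_mem hs, rep_rep s⟩ := by
  unfold cls
  rw [dif_pos hs]

private theorem cls_rep {s : S} (hs : s ∈ O) {t : {t : S // t ∈ O ∧ rep A h O X t = t}}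
    (ht : rep A h O X s = t.1) : cls c A h O X s = some t := by
  rw [cls_eq hs]
  congr 1
  exact Subtype.ext ht

private theorem cls_self (t : {t : S // t ∈ O ∧ rep A h O X t = t}) :
    cls c A h O X t.1 = some t := cls_rep t.2.1 t.2.2

private theorem cls_adj {a b : S} (ha : a ∈ O) (hb : b ∈ O) (hab : A.Adj a b) :
    (SG c A h O X).Adj (cls c A h O X a) (cls c A h O X b) := by
  rw [cls_eq ha, cls_eq hb]
  exact ⟨a, b, ha, hb, hab, rfl, rfl⟩

private theorem strengthen {C : Set S} {a b : S} (hab : CIn A C a b) :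
    CIn A {u | u ∈ C ∧ CIn A C a u} a b := by
  classical
  obtain ⟨p, hp⟩ := hab
  exact ⟨p, fun u hu => ⟨hp u hu, p.takeUntil u hu, fun v hv =>
    hp v (p.support_takeUntil_subset_support hu hv)⟩⟩

theorem SG_connected (hS : Surg c A h N O X) : (SG c A h O X).Connected := by
  have key : ∀ a : SV A h O X, (SG c A h O X).Reachable none a := by
    rintro (_ | t)
    · exact SimpleGraph.Reachable.refl _
    · obtain ⟨e, he, heO, hc⟩ := hS.exists_ep t.2.1
      have h1 : (SG c A h O X).Reachable none (cls c A h O X e) := by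
        refine SimpleGraph.Adj.reachable ?_
        rw [cls_eq heO]
        exact ⟨e, heO, he, rfl⟩
      have h2 := hc.invariant (fun u => (SG c A h O X).Reachable none (cls c A h O X u))
        (fun a ha b hb hab => ⟨fun hr => hr.trans (cls_adj ha hb hab).reachable,
          fun hr => hr.trans (cls_adj ha hb hab).symm.reachable⟩)
      have h3 := h2.2 h1
      rw [cls_self] at h3
      exact h3
  have hne : Nonempty (SV A h O X) := ⟨none⟩
  exact ⟨fun a b => (key a).symm.trans (key b)⟩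

private theorem con_of_adj {t t' : {t : S // t ∈ O ∧ rep A h O X t = t}} {a b : S} (ha : a ∈ O)
    (hb : b ∈ O) (hab : A.Adj a b) (h1 : rep A h O X a = t.1) (h2 : rep A h O X b = t'.1) :
    CIn A O t.1 t'.1 := by
  have h3 := rep_con (A := A) (h := h) (O := O) (X := X) ha
  have h4 := rep_con (A := A) (h := h) (O := O) (X := X) hb
  rw [h1] at h3
  rw [h2] at h4
  exact h3.symm.trans ((CIn.of_adj hab ha hb).trans h4)

theorem cut_none (hS : Surg c A h N O X) (t : {t : S // t ∈ O ∧ rep A h O X t = t})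
    (hadj : (SG c A h O X).Adj none (some t)) :
    ∃ φ : SV A h O X → Prop, φ none ∧ ¬ φ (some t) ∧
      ∀ a b, (SG c A h O X).Adj a b → s(a, b) ≠ s(none, some t) → (φ a ↔ φ b) := by
  obtain ⟨e, heO, he, het⟩ := hadj
  let φ : SV A h O X → Prop := fun a =>
    match a with
    | none => True
    | some t' => ¬ CIn A O t.1 t'.1
  have hnone : ∀ t' : {t : S // t ∈ O ∧ rep A h O X t = t}, (SG c A h O X).Adj none (some t') →
      t' ≠ t → ¬ CIn A O t.1 t'.1 := by
    rintro t' ⟨e', heO', he', het'⟩ hne hcon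
    apply hne
    have h1 := rep_con (A := A) (h := h) (O := O) (X := X) heO
    have h2 := rep_con (A := A) (h := h) (O := O) (X := X) heO'
    rw [het] at h1
    rw [het'] at h2
    have h3 := hS.ep_rep he he' (h1.trans (hcon.trans h2.symm))
    rw [het, het'] at h3
    exact Subtype.ext h3.symm
  refine ⟨φ, trivial, fun hφ => hφ (CIn.refl t.2.1), ?_⟩
  rintro (_ | t₁) (_ | t₂) hab hne
  · exact Iff.rfl
  · have h1 : t₂ ≠ t := by
      rintro rfl
      exact hne rfl
    exact ⟨fun _ => hnone t₂ hab h1, fun _ => trivial⟩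
  · have h1 : t₁ ≠ t := by
      rintro rfl
      exact hne Sym2.eq_swap
    exact ⟨fun _ => trivial, fun _ => hnone t₁ hab.symm h1⟩
  · obtain ⟨a, b, ha, hb, hab', h1, h2⟩ := hab
    have h3 := con_of_adj ha hb hab' h1 h2
    exact ⟨fun hn hc => hn (hc.trans h3.symm), fun hn hc => hn (hc.trans h3)⟩

theorem cut_out (hS : Surg c A h N O X) (t t' : {t : S // t ∈ O ∧ rep A h O X t = t})
    {s s' : S} (hs : s ∈ O) (hs' : s' ∈ O) (hadj : A.Adj s s') (ht : rep A h O X s = t.1)
    (ht' : rep A h O X s' = t'.1) (hH : ¬ (s ∈ Hul A O X ∧ s' ∈ Hul A O X)) :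
    ∃ φ : SV A h O X → Prop, φ (some t) ∧ ¬ φ (some t') ∧
      ∀ a b, (SG c A h O X).Adj a b → s(a, b) ≠ s(some t, some t') → (φ a ↔ φ b) := by
  obtain ⟨φ₀, hφs, hφs', hφ₀⟩ := exists_cut hS.tree.isAcyclic hadj
  obtain ⟨e, he, heO, hse⟩ := hS.exists_ep hs
  let φ : SV A h O X → Prop := fun a =>
    match a with
    | none => φ₀ e
    | some u => (CIn A O s u.1 ∧ φ₀ u.1) ∨ (¬ CIn A O s u.1 ∧ φ₀ e)
  have key1 : ∀ u ∈ Hul A O X, ∀ u' ∈ Hul A O X, CIn A O u u' → (φ₀ u ↔ φ₀ u') := by
    intro u hu u' hu' hc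
    refine (hS.hul_con hu hu' hc).invariant φ₀ fun a ha b hb hab => hφ₀ a b hab fun heq => ?_
    rcases Sym2.eq_iff.1 heq with ⟨rfl, rfl⟩ | ⟨rfl, rfl⟩
    · exact hH ⟨ha, hb⟩
    · exact hH ⟨hb, ha⟩
  have key2 : ∀ u ∈ O, CIn A O s u → (φ (cls c A h O X u) ↔ φ₀ u) := by
    intro u hu hc
    rw [cls_eq hu]
    have h1 : CIn A O s (rep A h O X u) := hc.trans (rep_con hu)
    have h2 : φ (some ⟨rep A h O X u, rep_mem hu, rep_rep u⟩) ↔ φ₀ (rep A h O X u) :=
      ⟨fun hh => hh.elim (fun k => k.2) (fun k => absurd h1 k.1), fun k => Or.inl ⟨h1, k⟩⟩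
    rw [h2]
    rcases rep_rel (A := A) (h := h) (O := O) (X := X) u with h3 | ⟨k1, k2, k3, -⟩
    · rw [h3]
    · exact key1 _ k1 _ k2 k3
  have key3 : ∀ u : {t : S // t ∈ O ∧ rep A h O X t = t}, (SG c A h O X).Adj none (some u) →
      (φ₀ e ↔ φ (some u)) := by
    rintro u ⟨e', heO', he', heu⟩
    by_cases hc : CIn A O s u.1
    · have h1 := rep_con (A := A) (h := h) (O := O) (X := X) heO'
      rw [heu] at h1
      have h2 : CIn A O s e' := hc.trans h1.symm
      have h3 := key2 e' heO' h2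
      rw [cls_rep heO' heu] at h3
      rw [h3]
      exact key1 _ (ep_hul he heO) _ (ep_hul he' heO') (hse.symm.trans h2)
    · exact ⟨fun k => Or.inr ⟨hc, k⟩, fun k => k.elim (fun k => absurd k.1 hc) (fun k => k.2)⟩
  refine ⟨φ, ?_, ?_, ?_⟩
  · have h1 := key2 s hs (CIn.refl hs)
    rw [cls_rep hs ht] at h1
    exact h1.2 hφs
  · have h1 := key2 s' hs' (CIn.of_adj hadj hs hs')
    rw [cls_rep hs' ht'] at h1
    exact fun k => hφs' (h1.1 k)
  · rintro (_ | u) (_ | u') hab hne
    · exact Iff.rfl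
    · exact key3 u' hab
    · exact (key3 u hab.symm).symm
    · obtain ⟨a, b, ha, hb, hab', h1, h2⟩ := hab
      have h3 := con_of_adj ha hb hab' h1 h2
      by_cases hc : CIn A O s u.1
      · have h4 := rep_con (A := A) (h := h) (O := O) (X := X) ha
        rw [h1] at h4
        have hsa : CIn A O s a := hc.trans h4.symm
        have hsb : CIn A O s b := hsa.trans (CIn.of_adj hab' ha hb)
        have h5 := key2 a ha hsa
        have h6 := key2 b hb hsb
        rw [cls_rep ha h1] at h5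
        rw [cls_rep hb h2] at h6
        rw [h5, h6]
        refine hφ₀ a b hab' fun heq => hne ?_
        rcases Sym2.eq_iff.1 heq with ⟨rfl, rfl⟩ | ⟨rfl, rfl⟩
        · have e1 : u = t := Subtype.ext (h1.symm.trans ht)
          have e2 : u' = t' := Subtype.ext (h2.symm.trans ht')
          rw [e1, e2]
        · have e1 : u = t' := Subtype.ext (h1.symm.trans ht')
          have e2 : u' = t := Subtype.ext (h2.symm.trans ht)
          rw [e1, e2]
          exact Sym2.eq_swap
      · have hc' : ¬ CIn A O s u'.1 := fun k => hc (k.trans h3.symm)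
        have e1 : φ (some u) ↔ φ₀ e :=
          ⟨fun k => k.elim (fun k => absurd k.1 hc) (fun k => k.2), fun k => Or.inr ⟨hc, k⟩⟩
        have e2 : φ (some u') ↔ φ₀ e :=
          ⟨fun k => k.elim (fun k => absurd k.1 hc') (fun k => k.2), fun k => Or.inr ⟨hc', k⟩⟩
        rw [e1, e2]

private theorem cut_aux (hS : Surg c A h N O X) (t t' : {t : S // t ∈ O ∧ rep A h O X t = t})
    {s s' : S} (hs : s ∈ Hul A O X) (hs' : s' ∈ Hul A O X) (hadj : A.Adj s s')
    (ht : rep A h O X s = t.1) (ht' : rep A h O X s' = t'.1) {m k : ℕ} (hk1 : 1 ≤ k)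
    (hkL : k + 1 ≤ c.L) (hls : h s = c.ray m k) (hls' : h s' = c.ray m (k + 1))
    (hep : ∀ e ∈ EP X, CIn A O s e → h e = c.ray m 1)
    (hlab : ∀ u ∈ Hul A O X, CIn A O s u → ∃ j, 1 ≤ j ∧ j ≤ c.L ∧ h u = c.ray m j) :
    ∃ φ : SV A h O X → Prop, ¬ φ (some t) ∧ φ (some t') ∧
      ∀ a b, (SG c A h O X).Adj a b → s(a, b) ≠ s(some t, some t') → (φ a ↔ φ b) := by
  have hsO := hS.hul_O hs
  have hsO' := hS.hul_O hs'
  set H : Set S := {u | u ∈ Hul A O X ∧ CIn A O s u} with hH
  have hHcon : Con A H := by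
    intro a ha b hb
    refine (strengthen (hS.hul_con ha.1 hb.1 (ha.2.symm.trans hb.2))).mono ?_
    rintro u ⟨hu, hau⟩
    exact ⟨hu, ha.2.trans (hau.mono fun v hv => hS.hul_O hv)⟩
  have hsH : s ∈ H := ⟨hs, CIn.refl hsO⟩
  have hsH' : s' ∈ H := ⟨hs', CIn.of_adj hadj hsO hsO'⟩
  obtain ⟨π, hπH, hπid, hπ⟩ := exists_retr hS.tree H hHcon ⟨s, hsH⟩
  let P : S → Prop := fun v => ∃ j, k + 1 ≤ j ∧ j ≤ c.L ∧ h v = c.ray m j
  let φ : SV A h O X → Prop := fun a =>
    match a with
    | none => False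
    | some u => CIn A O s u.1 ∧ P (π u.1)
  have key3 : ∀ (v : S) (j : ℕ), j ≤ c.L → h v = c.ray m j → (P v ↔ k + 1 ≤ j) := by
    intro v j hj hv
    constructor
    · rintro ⟨j', h1, h2, h3⟩
      rw [hv] at h3
      have := (c.M.ray_inj c.x c.hx m j m j' hj h2 h3).1
      omega
    · intro h1
      exact ⟨j, h1, hj, hv⟩
  have key2 : ∀ u ∈ O, CIn A O s u → (φ (cls c A h O X u) ↔ P (π u)) := by
    intro u hu hc
    rw [cls_eq hu]
    have h1 : CIn A O s (rep A h O X u) := hc.trans (rep_con hu)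
    have h2 : φ (some ⟨rep A h O X u, rep_mem hu, rep_rep u⟩) ↔ P (π (rep A h O X u)) :=
      ⟨fun hh => hh.2, fun k => ⟨h1, k⟩⟩
    rw [h2]
    rcases rep_rel (A := A) (h := h) (O := O) (X := X) u with h3 | ⟨k1, k2, k3, k4⟩
    · rw [h3]
    · have e1 : π (rep A h O X u) = rep A h O X u := hπid _ ⟨k1, h1⟩
      have e2 : π u = u := hπid _ ⟨k2, hc⟩
      rw [e1, e2]
      change (∃ j, k + 1 ≤ j ∧ j ≤ c.L ∧ h (rep A h O X u) = c.ray m j) ↔
        ∃ j, k + 1 ≤ j ∧ j ≤ c.L ∧ h u = c.ray m j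
      rw [k4]
  have key4 : ∀ u : {t : S // t ∈ O ∧ rep A h O X t = t}, (SG c A h O X).Adj none (some u) →
      ¬ φ (some u) := by
    rintro u ⟨e', heO', he', heu⟩ hφ
    have hc : CIn A O s u.1 := hφ.1
    have h1 := rep_con (A := A) (h := h) (O := O) (X := X) heO'
    rw [heu] at h1
    have h2 : CIn A O s e' := hc.trans h1.symm
    have h3 := key2 e' heO' h2
    rw [cls_rep heO' heu] at h3
    have h4 := h3.1 hφ
    rw [hπid e' ⟨ep_hul he' heO', h2⟩] at h4
    have h5 := (key3 e' 1 c.L_pos.le (hep e' he' h2)).1 h4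
    omega
  refine ⟨φ, ?_, ?_, ?_⟩
  · have h1 := key2 s hsO (CIn.refl hsO)
    rw [cls_rep hsO ht, hπid s hsH] at h1
    intro k1
    have h2 := (key3 s k (by omega) hls).1 (h1.1 k1)
    omega
  · have h1 := key2 s' hsO' hsH'.2
    rw [cls_rep hsO' ht', hπid s' hsH'] at h1
    exact h1.2 ((key3 s' (k + 1) hkL hls').2 le_rfl)
  · rintro (_ | u) (_ | u') hab hne
    · exact Iff.rfl
    · exact ⟨fun k => k.elim, fun k => key4 u' hab k⟩
    · exact ⟨fun k => key4 u hab.symm k, fun k => k.elim⟩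
    · obtain ⟨a, b, ha, hb, hab', h1, h2⟩ := hab
      have h3 := con_of_adj ha hb hab' h1 h2
      by_cases hc : CIn A O s u.1
      · have h4 := rep_con (A := A) (h := h) (O := O) (X := X) ha
        rw [h1] at h4
        have hsa : CIn A O s a := hc.trans h4.symm
        have hsb : CIn A O s b := hsa.trans (CIn.of_adj hab' ha hb)
        have h5 := key2 a ha hsa
        have h6 := key2 b hb hsb
        rw [cls_rep ha h1] at h5
        rw [cls_rep hb h2] at h6
        rw [h5, h6]
        by_cases hboth : a ∈ H ∧ b ∈ H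
        · obtain ⟨haH, hbH⟩ := hboth
          rw [hπid a haH, hπid b hbH]
          obtain ⟨j, hj1, hjL, hja⟩ := hlab a haH.1 haH.2
          obtain ⟨j', hj1', hjL', hjb⟩ := hlab b hbH.1 hbH.2
          rw [key3 a j hjL hja, key3 b j' hjL' hjb]
          have hstep := h.map_rel hab'
          rw [hja, hjb] at hstep
          have hst := (c.ray_step hj1 hjL hj1' hjL' hstep).2
          by_contra hcon
          apply hne
          have hcase : (j = k ∧ j' = k + 1) ∨ (j = k + 1 ∧ j' = k) := by omega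
          rcases hcase with ⟨rfl, rfl⟩ | ⟨rfl, rfl⟩
          · have e1 : rep A h O X a = rep A h O X s :=
              rep_eq_iff.2 (Or.inr ⟨haH.1, hs, haH.2.symm, hja.trans hls.symm⟩)
            have e2 : rep A h O X b = rep A h O X s' :=
              rep_eq_iff.2 (Or.inr ⟨hbH.1, hs', hbH.2.symm.trans hsH'.2, hjb.trans hls'.symm⟩)
            have e3 : u = t := Subtype.ext (h1.symm.trans (e1.trans ht))
            have e4 : u' = t' := Subtype.ext (h2.symm.trans (e2.trans ht'))
            rw [e3, e4]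
          · have e1 : rep A h O X a = rep A h O X s' :=
              rep_eq_iff.2 (Or.inr ⟨haH.1, hs', haH.2.symm.trans hsH'.2, hja.trans hls'.symm⟩)
            have e2 : rep A h O X b = rep A h O X s :=
              rep_eq_iff.2 (Or.inr ⟨hbH.1, hs, hbH.2.symm, hjb.trans hls.symm⟩)
            have e3 : u = t' := Subtype.ext (h1.symm.trans (e1.trans ht'))
            have e4 : u' = t := Subtype.ext (h2.symm.trans (e2.trans ht))
            rw [e3, e4]
            exact Sym2.eq_swap
        · rw [hπ a b hab' hboth]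
      · have hc' : ¬ CIn A O s u'.1 := fun k => hc (k.trans h3.symm)
        exact ⟨fun k => absurd k.1 hc, fun k => absurd k.1 hc'⟩

theorem cut_hul (hS : Surg c A h N O X) (t t' : {t : S // t ∈ O ∧ rep A h O X t = t})
    {s s' : S} (hs : s ∈ Hul A O X) (hs' : s' ∈ Hul A O X) (hadj : A.Adj s s')
    (ht : rep A h O X s = t.1) (ht' : rep A h O X s' = t'.1) :
    ∃ φ : SV A h O X → Prop, φ (some t) ∧ ¬ φ (some t') ∧
      ∀ a b, (SG c A h O X).Adj a b → s(a, b) ≠ s(some t, some t') → (φ a ↔ φ b) := by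
  have hsO := hS.hul_O hs
  have hsO' := hS.hul_O hs'
  have hcon : CIn A O s s' := CIn.of_adj hadj hsO hsO'
  obtain ⟨m, hep, hlab⟩ := hS.comp_lab hsO
  obtain ⟨k, hk1, hkL, hks⟩ := hlab s hs (CIn.refl hsO)
  obtain ⟨k', hk1', hkL', hks'⟩ := hlab s' hs' hcon
  have hstep := h.map_rel hadj
  rw [hks, hks'] at hstep
  rcases (c.ray_step hk1 hkL hk1' hkL' hstep).2 with rfl | rfl
  · obtain ⟨φ, h1, h2, h3⟩ := hS.cut_aux t t' hs hs' hadj ht ht' hk1 hkL' hks hks' hep hlab
    exact ⟨fun a => ¬ φ a, h1, fun k => k h2, fun a b hab hne => not_congr (h3 a b hab hne)⟩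
  · obtain ⟨φ, h1, h2, h3⟩ := hS.cut_aux t' t hs' hs hadj.symm ht' ht hk1' hkL hks' hks
      (fun e he hc => hep e he (hcon.trans hc)) (fun u hu hc => hlab u hu (hcon.trans hc))
    refine ⟨φ, h2, h1, fun a b hab hne => h3 a b hab ?_⟩
    rw [Sym2.eq_swap (a := (some t' : SV A h O X))]
    exact hne

theorem SG_isTree (hS : Surg c A h N O X) : (SG c A h O X).IsTree := by
  refine isTree_of_cuts hS.SG_connected ?_
  rintro (_ | t) (_ | t') hadj
  · exact absurd hadj id
  · exact hS.cut_none t' hadj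
  · obtain ⟨φ, h1, h2, h3⟩ := hS.cut_none t hadj.symm
    exact ⟨fun a => ¬ φ a, h2, fun h => h h1, fun a b hab hne =>
      not_congr (h3 a b hab (by rwa [Sym2.eq_swap (a := none)]))⟩
  · obtain ⟨s, s', h1, h2, h3, h4, h5⟩ := hadj
    by_cases hH : s ∈ Hul A O X ∧ s' ∈ Hul A O X
    · exact hS.cut_hul t t' hH.1 hH.2 h3 h4 h5
    · exact hS.cut_out t t' h1 h2 h3 h4 h5 hH

end Pool.Agent.DB.A.Surg
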